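import Pool.Agent.helper31.IB.Blk
import Pool.Agent.helper31.IA.LogSound

/-!
# IB-4: inverse, exponential and logarithm of one packed number

The same algorithms as in `IA` (`IA/ExpSound.lean`, `IA/LogSound.lean`), other constants.
-/

namespace Pool.Agent.helper31.IB

open Complex

/-! ### auxiliary facts -/

private theorem zf_good {n y : Nat} (h : One n y) (hg : good y = true) : One (2 ^ 62) y :=
  fun i => ⟨((good_iff y).1 hg i).1, (h i).2⟩

private theorem zf_fd_le {n x : Nat} (hn : n ≤ 2 ^ 125) (h : One n x) (i : Nat) :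
    fd x i ≤ mg x := by
  rw [mg_eq hn h]
  by_cases hi : i < 4
  · interval_cases i <;> omega
  · rw [(h i).2 (by omega)]
    exact Nat.zero_le _

private theorem zf_one_lt {n m x : Nat} (hn : n ≤ 2 ^ 125) (h : One n x) (hm : mg x < m) :
    One m x :=
  fun i => ⟨lt_of_le_of_lt (zf_fd_le hn h i) hm, (h i).2⟩

private theorem zf_fd_add {m n X Y : Nat} (hX : One m X) (hY : One n Y) (h : m + n ≤ 2 ^ 128)
    (i : Nat) : fd (Nat.add X Y) i = fd X i + fd Y i :=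
  fd_add (X := X) (Y := Y) (fun i => by
    have h1 := (hX i).1
    have h2 := (hY i).1
    omega) i

private theorem zf_mg_add {m n X Y : Nat} (hX : One m X) (hY : One n Y) (h : m + n ≤ 2 ^ 125) :
    mg (Nat.add X Y) = mg X + mg Y := by
  have h' : m + n ≤ 2 ^ 128 := le_trans h (by norm_num)
  rw [mg_eq h (one_add hX hY h').1, mg_eq (le_trans (Nat.le_add_right m n) h) hX,
    mg_eq (le_trans (Nat.le_add_left n m) h) hY, zf_fd_add hX hY h', zf_fd_add hX hY h',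
    zf_fd_add hX hY h', zf_fd_add hX hY h']
  ring

private theorem zf_mg_nrm {n X : Nat} (hn : n ≤ 2 ^ 100) (h : One n X) : mg (nrm X) ≤ mg X := by
  have hn' : n ≤ 2 ^ 125 := le_trans hn (by norm_num)
  rw [mg_eq hn' (one_nrm hn h).1, mg_eq hn' h]
  have f0 := fd_nrm hn (clean_of_one h) 0 0 (by norm_num)
  have f1 := fd_nrm hn (clean_of_one h) 0 1 (by norm_num)
  have f2 := fd_nrm hn (clean_of_one h) 0 2 (by norm_num)
  have f3 := fd_nrm hn (clean_of_one h) 0 3 (by norm_num)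
  norm_num at f0 f1 f2 f3
  rw [f0, f1, f2, f3]
  omega

private theorem zf_mg_swap {n X : Nat} (hn : n ≤ 2 ^ 125) (h : One n X) : mg (swap X) = mg X := by
  have hn' : n ≤ 2 ^ 128 := le_trans hn (by norm_num)
  rw [mg_eq hn (one_swap hn' h).1, mg_eq hn h]
  have f0 := fd_swap hn' (clean_of_one h) 0 0 (by norm_num)
  have f1 := fd_swap hn' (clean_of_one h) 0 1 (by norm_num)
  have f2 := fd_swap hn' (clean_of_one h) 0 2 (by norm_num)
  have f3 := fd_swap hn' (clean_of_one h) 0 3 (by norm_num)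
  norm_num at f0 f1 f2 f3
  rw [f0, f1, f2, f3]
  ring

private theorem zf_fd_const {c : Nat} (hc : c < 2 ^ 62) (i : Nat) :
    fd c i = if i = 0 then c else 0 := by
  split_ifs with hi
  · subst hi
    rw [fd_zero]
    exact Nat.mod_eq_of_lt (lt_trans hc (by norm_num))
  · exact fd_of_lt (n := 1) (lt_trans hc (by norm_num)) (by omega)

private theorem zf_const {c : Nat} (hc : c < 2 ^ 62) :
    One (2 ^ 62) c ∧ bz c 0 = (c : ℂ) / 2 ^ 40 ∧ mg c = c := by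
  have h : One (2 ^ 62) c := by
    intro i
    rw [zf_fd_const hc]
    split_ifs with hi
    · exact ⟨hc, fun h => by omega⟩
    · exact ⟨by norm_num, fun _ => rfl⟩
  refine ⟨h, ?_, ?_⟩
  · unfold bz
    simp only [Nat.mul_zero, Nat.zero_add, zf_fd_const hc]
    norm_num
  · rw [mg_eq (by norm_num) h]
    simp [zf_fd_const hc]

private theorem zf_bz (x : Nat) :
    bz x 0 = (IA.Z.mk (fd x 0) (fd x 2) (fd x 1) (fd x 3)).val := rfl

private theorem zf_shr_le (P k : ℕ) : (P : ℝ) / 2 ^ k ≤ ((Nat.shiftRight P k : ℕ) : ℝ) + 1 := by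
  have h0 : Nat.shiftRight P k = P / 2 ^ k := Nat.shiftRight_eq_div_pow P k
  have h1 : P < (P / 2 ^ k + 1) * 2 ^ k := by
    have h2 := Nat.div_add_mod P (2 ^ k)
    have h3 := Nat.mod_lt P (Nat.pos_of_ne_zero (pow_ne_zero k (two_ne_zero : (2 : ℕ) ≠ 0)))
    calc P = 2 ^ k * (P / 2 ^ k) + P % 2 ^ k := h2.symm
      _ < 2 ^ k * (P / 2 ^ k) + 2 ^ k := by omega
      _ = (P / 2 ^ k + 1) * 2 ^ k := by ring
  rw [h0, div_le_iff₀ (by positivity)]
  exact_mod_cast h1.le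

/-! ### inverse -/

private theorem zf_inv_eq (x : Nat) : (zinv x).1 =
    pack (IA.Z.mk (fd x 0) (fd x 2) (fd x 1) (fd x 3)).inv.a
      (IA.Z.mk (fd x 0) (fd x 2) (fd x 1) (fd x 3)).inv.b
      (IA.Z.mk (fd x 0) (fd x 2) (fd x 1) (fd x 3)).inv.c
      (IA.Z.mk (fd x 0) (fd x 2) (fd x 1) (fd x 3)).inv.d := by
  simp only [zinv, IA.Z.inv, IA.Z.nsq]

/-- `p - q`, `s - t` are the coordinates `P`, `Q` of `x` in units, `n = P² + Q²`, so
`1/x = (P - Q i) 2^40/n`; each division loses less than one unit. -/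
theorem zinv_spec {x : Nat} (hx : One (2 ^ 62) x) (hn : 1099511627776 ≤ (zinv x).2) :
    One (2 ^ 62) (zinv x).1 ∧ bz x 0 ≠ 0 ∧ ‖bz (zinv x).1 0 - (bz x 0)⁻¹‖ ≤ 2 / 2 ^ 40 ∧
      ((zinv x).2 : ℝ) = ‖bz x 0‖ ^ 2 * 2 ^ 80 := by
  set z : IA.Z := IA.Z.mk (fd x 0) (fd x 2) (fd x 1) (fd x 3) with hz
  have e2 : (zinv x).2 = z.nsq := rfl
  have e1 : (zinv x).1 = pack z.inv.a z.inv.b z.inv.c z.inv.d := zf_inv_eq x
  rw [e2] at hn
  have key : ∀ p : ℕ, p * p ≤ z.nsq → Nat.div (Nat.shiftLeft p 80) z.nsq < 2 ^ 62 := by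
    intro p hp
    have h1 : Nat.shiftLeft p 80 = p * 2 ^ 80 := Nat.shiftLeft_eq p 80
    have hpos : 0 < z.nsq := lt_of_lt_of_le (by norm_num) hn
    have h2 : p * 2 ^ 80 < 2 ^ 62 * z.nsq := by
      by_cases hp20 : p < 2 ^ 20
      · have h3 : p * 2 ^ 80 < 2 ^ 100 := by
          have : p * 2 ^ 80 < 2 ^ 20 * 2 ^ 80 := by omega
          refine lt_of_lt_of_le this (by norm_num)
        have h4 : (2 : ℕ) ^ 62 * 2 ^ 40 ≤ 2 ^ 62 * z.nsq := Nat.mul_le_mul_left _ (by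
          refine le_trans ?_ hn
          norm_num)
        refine lt_of_lt_of_le h3 (le_trans (by norm_num) h4)
      · have h3 : 2 ^ 20 * p ≤ p * p := Nat.mul_le_mul_right _ (by omega)
        have h4 : 2 ^ 62 * (2 ^ 20 * p) ≤ 2 ^ 62 * z.nsq :=
          Nat.mul_le_mul_left _ (le_trans h3 hp)
        have hp0 : 0 < p := by
          have : (0 : ℕ) < 2 ^ 20 := by norm_num
          omega
        have h5 : 2 ^ 62 * (2 ^ 20 * p) = p * 2 ^ 82 := by ring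
        have h6 : p * 2 ^ 80 < p * 2 ^ 82 := Nat.mul_lt_mul_of_pos_left (by norm_num) hp0
        omega
    have h7 : Nat.div (p * 2 ^ 80) z.nsq = p * 2 ^ 80 / z.nsq := rfl
    rw [h1, h7]
    exact (Nat.div_lt_iff_lt_mul hpos).2 (by rw [mul_comm] at h2; linarith)
  have hnsq : z.nsq = (Nat.sub z.a z.b + Nat.sub z.b z.a) * (Nat.sub z.a z.b + Nat.sub z.b z.a) +
      (Nat.sub z.c z.d + Nat.sub z.d z.c) * (Nat.sub z.c z.d + Nat.sub z.d z.c) := rfl
  have ba : z.inv.a < 2 ^ 62 := key _ (by rw [hnsq]; nlinarith [Nat.zero_le (Nat.sub z.a z.b * Nat.sub z.b z.a), Nat.zero_le (Nat.sub z.b z.a * Nat.sub z.b z.a), Nat.zero_le ((Nat.sub z.c z.d + Nat.sub z.d z.c) * (Nat.sub z.c z.d + Nat.sub z.d z.c))])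
  have bb : z.inv.b < 2 ^ 62 := key _ (by rw [hnsq]; nlinarith [Nat.zero_le (Nat.sub z.a z.b * Nat.sub z.b z.a), Nat.zero_le (Nat.sub z.a z.b * Nat.sub z.a z.b), Nat.zero_le ((Nat.sub z.c z.d + Nat.sub z.d z.c) * (Nat.sub z.c z.d + Nat.sub z.d z.c))])
  have bc : z.inv.c < 2 ^ 62 := key _ (by rw [hnsq]; nlinarith [Nat.zero_le (Nat.sub z.c z.d * Nat.sub z.d z.c), Nat.zero_le (Nat.sub z.c z.d * Nat.sub z.c z.d), Nat.zero_le ((Nat.sub z.a z.b + Nat.sub z.b z.a) * (Nat.sub z.a z.b + Nat.sub z.b z.a))])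
  have bd : z.inv.d < 2 ^ 62 := key _ (by rw [hnsq]; nlinarith [Nat.zero_le (Nat.sub z.c z.d * Nat.sub z.d z.c), Nat.zero_le (Nat.sub z.d z.c * Nat.sub z.d z.c), Nat.zero_le ((Nat.sub z.a z.b + Nat.sub z.b z.a) * (Nat.sub z.a z.b + Nat.sub z.b z.a))])
  have hp := pack_spec (n := 2 ^ 62) (by norm_num) ba bb bc bd
  have hpos : 1 ≤ z.nsq := le_trans (by norm_num) hn
  have hxz : bz x 0 = z.val := rfl
  rw [e1, e2, hp.2.1, hxz]
  refine ⟨hp.1, ?_, IA.Z.val_inv z hpos, IA.Z.nsq_eq z⟩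
  intro h0
  have h1 := IA.Z.nsq_eq z
  rw [h0, norm_zero] at h1
  have h2 : (z.nsq : ℝ) = 0 := by
    rw [h1]
    norm_num
  have h3 : z.nsq = 0 := by exact_mod_cast h2
  omega

/-! ### exponential -/

/-- exact Horner recursion -/
private noncomputable def zf_horP (x : ℂ) : List Nat → ℂ → ℂ
  | [], p => p
  | k :: ks, p => zf_horP x ks (p * x + (k : ℂ) / 2 ^ 40)

private theorem zf_hor_err {x : Nat} (hx : One (2 ^ 62) x) (hm : mg x ≤ 2 ^ 39) :
    ∀ (ks : List Nat) (acc : Nat) (p : ℂ), (∀ k ∈ ks, k ≤ 2 ^ 40) →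
      One (2 ^ 42) acc → mg acc ≤ 2 ^ 41 → ‖bz acc 0 - p‖ ≤ 4 / 2 ^ 40 →
      One (2 ^ 42) (hor x ks acc) ∧
        ‖bz (hor x ks acc) 0 - zf_horP (bz x 0) ks p‖ ≤ 4 / 2 ^ 40 := by
  intro ks
  induction ks with
  | nil =>
    intro acc p _ h1 _ h3
    exact ⟨h1, h3⟩
  | cons k ks ih =>
    intro acc p hk h1 h2 h3
    rw [hor, zf_horP]
    have hk0 : k ≤ 2 ^ 40 := hk k (by simp)
    have hk1 : k < 2 ^ 62 := lt_of_le_of_lt hk0 (by norm_num)
    have hc := zf_const hk1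
    have hacc : One (2 ^ 62) acc := one_mono h1 (by norm_num)
    have hz := mz_spec hacc hx
    have hz2 := mg_mz hacc hx
    have hadd := one_add hz.1 hc.1 (by norm_num)
    have hmga := zf_mg_add hz.1 hc.1 (by norm_num)
    have hmz : mg (mz acc x) ≤ 2 ^ 40 := by
      have h4 : mg acc * mg x ≤ 2 ^ 41 * 2 ^ 39 := Nat.mul_le_mul h2 hm
      have h5 : mg (mz acc x) * 2 ^ 40 ≤ 2 ^ 40 * 2 ^ 40 := by
        refine le_trans hz2 (le_trans h4 (by norm_num))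
      exact Nat.le_of_mul_le_mul_right h5 (by norm_num)
    have hmgle : mg (Nat.add (mz acc x) k) ≤ 2 ^ 41 := by
      rw [hmga, hc.2.2]
      have : (2 : ℕ) ^ 41 = 2 ^ 40 + 2 ^ 40 := by norm_num
      omega
    apply ih
    · intro k' hk'
      exact hk k' (by simp [hk'])
    · exact zf_one_lt (n := 2 ^ 86 + 2 ^ 62) (by norm_num) hadd.1
        (lt_of_le_of_lt hmgle (by norm_num))
    · exact hmgle
    · rw [hadd.2, hc.2.1]
      have e : bz (mz acc x) 0 + (k : ℂ) / 2 ^ 40 - (p * bz x 0 + (k : ℂ) / 2 ^ 40)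
          = (bz (mz acc x) 0 - bz acc 0 * bz x 0) + (bz acc 0 - p) * bz x 0 := by ring
      rw [e]
      refine (norm_add_le _ _).trans ?_
      rw [norm_mul]
      have hxn : ‖bz x 0‖ ≤ 1 / 2 := by
        refine (norm_le_mg (by norm_num) hx).trans ?_
        have : (mg x : ℝ) ≤ 2 ^ 39 := by exact_mod_cast hm
        rw [div_le_iff₀ (by positivity)]
        refine this.trans ?_
        norm_num
      have h6 : ‖bz acc 0 - p‖ * ‖bz x 0‖ ≤ 4 / 2 ^ 40 * (1 / 2) :=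
        mul_le_mul h3 hxn (norm_nonneg _) (by norm_num)
      have h7 : (2 : ℝ) / 2 ^ 40 + 4 / 2 ^ 40 * (1 / 2) ≤ 4 / 2 ^ 40 := by norm_num
      linarith [hz.2]

private def zf_K : ℕ → ℕ := fun j =>
  [1099511627776, 1099511627776, 549755813888, 183251937963, 45812984491, 9162596898, 1527099483,
    218157069, 27269634, 3029959, 302996, 27545].getD j 0

private theorem zf_horP_eq (x : ℂ) :
    zf_horP x horc (27545 / 2 ^ 40) =
      ∑ j ∈ Finset.range 12, (((zf_K j : ℝ) / 2 ^ 40 : ℝ) : ℂ) * x ^ j := by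
  simp only [zf_horP, horc, zf_K, Finset.sum_range_succ, Finset.sum_range_zero]
  norm_num [List.getD]
  ring

private theorem zf_K_le : ∀ j < 12, |(zf_K j : ℝ) / 2 ^ 40 - 1 / (Nat.factorial j : ℝ)| ≤
    1 / 2 ^ 41 := by
  intro j hj
  rw [abs_le]
  interval_cases j <;> norm_num [zf_K, List.getD, Nat.factorial]

/-- Horner: if `mg x ≤ 2^39` the accumulator stays below `2^42`, the error is at most
`5 + 1` units (truncation `2` and rounding of the coefficient `1/2` per step, factor `1/2`), plus the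
tail of the series. -/
theorem hor_spec {x : Nat} (hx : One (2 ^ 62) x) (hm : mg x ≤ 2 ^ 39) :
    One (2 ^ 42) (nrm (hor x horc 27545)) ∧
      ‖bz (nrm (hor x horc 27545)) 0 - Complex.exp (bz x 0)‖ ≤ 10 / 2 ^ 40 := by
  have hc := zf_const (c := 27545) (by norm_num)
  have hxn : ‖bz x 0‖ ≤ 1 / 2 := by
    refine (norm_le_mg (by norm_num) hx).trans ?_
    have : (mg x : ℝ) ≤ 2 ^ 39 := by exact_mod_cast hm
    rw [div_le_iff₀ (by positivity)]
    refine this.trans ?_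
    norm_num
  have h1 := zf_hor_err hx hm horc 27545 (27545 / 2 ^ 40) (by
      intro k hk
      simp only [horc, List.mem_cons, List.not_mem_nil, or_false] at hk
      rcases hk with h | h | h | h | h | h | h | h | h | h | h <;> rw [h] <;> norm_num)
    (zf_one_lt (by norm_num) hc.1 (by rw [hc.2.2]; norm_num)) (by rw [hc.2.2]; norm_num) (by
      rw [hc.2.1]
      norm_num)
  have h2 := one_nrm (n := 2 ^ 42) (by norm_num) h1.1
  refine ⟨h2.1, ?_⟩
  rw [h2.2]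
  have h3 : ‖Complex.exp (bz x 0) - ∑ m ∈ Finset.range 12, bz x 0 ^ m / (Nat.factorial m : ℂ)‖ ≤
      ‖bz x 0‖ ^ 12 * ((Nat.succ 12 : ℝ) * ((Nat.factorial 12 : ℝ) * (12 : ℕ))⁻¹) := by
    exact_mod_cast Complex.exp_bound (x := bz x 0) (hxn.trans (by norm_num)) (n := 12)
      (by norm_num)
  have h4 : ‖bz x 0‖ ^ 12 * ((Nat.succ 12 : ℝ) * ((Nat.factorial 12 : ℝ) * (12 : ℕ))⁻¹)
      ≤ 1 / 2 ^ 40 := by
    have h5 : ‖bz x 0‖ ^ 12 ≤ (1 / 2 : ℝ) ^ 12 := pow_le_pow_left₀ (norm_nonneg _) hxn 12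
    have h6 : (0 : ℝ) ≤ (Nat.succ 12 : ℝ) * ((Nat.factorial 12 : ℝ) * (12 : ℕ))⁻¹ := by positivity
    refine (mul_le_mul_of_nonneg_right h5 h6).trans ?_
    norm_num [Nat.factorial]
  have h5 : ‖zf_horP (bz x 0) horc (27545 / 2 ^ 40) -
      ∑ m ∈ Finset.range 12, bz x 0 ^ m / (Nat.factorial m : ℂ)‖ ≤ 1 / 2 ^ 40 := by
    rw [zf_horP_eq, ← Finset.sum_sub_distrib]
    refine (norm_sum_le _ _).trans ?_
    have h6 : ∀ j ∈ Finset.range 12, ‖(((zf_K j : ℝ) / 2 ^ 40 : ℝ) : ℂ) * bz x 0 ^ j -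
        bz x 0 ^ j / (Nat.factorial j : ℂ)‖ ≤ 1 / 2 ^ 41 * (1 / 2) ^ j := by
      intro j hj
      have hj' : j < 12 := Finset.mem_range.1 hj
      have e : (((zf_K j : ℝ) / 2 ^ 40 : ℝ) : ℂ) * bz x 0 ^ j - bz x 0 ^ j / (Nat.factorial j : ℂ) =
          (((zf_K j : ℝ) / 2 ^ 40 - 1 / (Nat.factorial j : ℝ) : ℝ) : ℂ) * bz x 0 ^ j := by
        push_cast
        ring
      rw [e, norm_mul, Complex.norm_real, Real.norm_eq_abs, norm_pow]
      exact mul_le_mul (zf_K_le j hj') (pow_le_pow_left₀ (norm_nonneg _) hxn j)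
        (by positivity) (by positivity)
    refine (Finset.sum_le_sum h6).trans ?_
    norm_num [Finset.sum_range_succ]
  have e : bz (hor x horc 27545) 0 - Complex.exp (bz x 0) =
      (bz (hor x horc 27545) 0 - zf_horP (bz x 0) horc (27545 / 2 ^ 40)) +
      (zf_horP (bz x 0) horc (27545 / 2 ^ 40) -
        ∑ m ∈ Finset.range 12, bz x 0 ^ m / (Nat.factorial m : ℂ)) -
      (Complex.exp (bz x 0) - ∑ m ∈ Finset.range 12, bz x 0 ^ m / (Nat.factorial m : ℂ)) := by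
    ring
  rw [e]
  refine (norm_sub_le _ _).trans ?_
  have h7 := norm_add_le (bz (hor x horc 27545) 0 - zf_horP (bz x 0) horc (27545 / 2 ^ 40))
    (zf_horP (bz x 0) horc (27545 / 2 ^ 40) -
        ∑ m ∈ Finset.range 12, bz x 0 ^ m / (Nat.factorial m : ℂ))
  have h8 : (4 : ℝ) / 2 ^ 40 + 1 / 2 ^ 40 + 1 / 2 ^ 40 ≤ 10 / 2 ^ 40 := by norm_num
  linarith [h1.2]

/-- invariant of the repeated squaring: `‖bz z 0 - w‖ ≤ e/2^40` -/
theorem sqr_spec : ∀ (k z e : Nat) (w : ℂ), One (2 ^ 62) z → ‖bz z 0 - w‖ ≤ (e : ℝ) / 2 ^ 40 →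
    (sqr k z e).2.2 = true → One (2 ^ 62) (sqr k z e).1 ∧
      ‖bz (sqr k z e).1 0 - w ^ (2 ^ k)‖ ≤ ((sqr k z e).2.1 : ℝ) / 2 ^ 40 := by
  intro k
  induction k with
  | zero =>
    intro z e w hz h _
    refine ⟨hz, ?_⟩
    simpa [sqr] using h
  | succ k ih =>
    intro z e w hz h ht
    have hgood : good (nrm (mz z z)) = true := by
      by_contra hc
      rw [Bool.not_eq_true] at hc
      simp [sqr, hc] at ht
    have es : sqr (k + 1) z e = sqr k (nrm (mz z z))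
        (Nat.add (Nat.shiftRight (Nat.mul (Nat.add (Nat.mul 2 (Nat.add (mg z) e)) e) e) 40) 3) := by
      simp [sqr, hgood]
    rw [es] at ht ⊢
    have hmz := mz_spec hz hz
    have hnr := one_nrm (n := 2 ^ 86) (by norm_num) hmz.1
    have hy : One (2 ^ 62) (nrm (mz z z)) := zf_good hnr.1 hgood
    have e2 : w ^ (2 ^ (k + 1)) = (w * w) ^ (2 ^ k) := by
      rw [← pow_two, ← pow_mul]
      congr 1
      ring
    rw [e2]
    apply ih _ _ _ hy _ ht
    rw [hnr.2]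
    set d := bz z 0 - w with hd
    have e3 : bz (mz z z) 0 - w * w = (bz (mz z z) 0 - bz z 0 * bz z 0) +
        d * (2 * bz z 0 - d) := by
      rw [hd]
      ring
    rw [e3]
    have h2 := norm_le_mg (n := 2 ^ 62) (by norm_num) hz
    have h3 : ‖2 * bz z 0 - d‖ ≤ 2 * ((mg z : ℝ) / 2 ^ 40) + (e : ℝ) / 2 ^ 40 := by
      refine (norm_sub_le _ _).trans ?_
      rw [norm_mul]
      have : ‖(2 : ℂ)‖ = 2 := by simp
      rw [this]
      linarith
    have h4 : ‖d * (2 * bz z 0 - d)‖ ≤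
        (e : ℝ) / 2 ^ 40 * (2 * ((mg z : ℝ) / 2 ^ 40) + (e : ℝ) / 2 ^ 40) := by
      rw [norm_mul]
      exact mul_le_mul h h3 (norm_nonneg _) (by positivity)
    have hP : (((Nat.mul (Nat.add (Nat.mul 2 (Nat.add (mg z) e)) e) e : ℕ)) : ℝ)
        = (2 * ((mg z : ℝ) + e) + e) * e := by
      simp only [Nat.add_eq, Nat.mul_eq]
      push_cast
      ring
    have h5 := zf_shr_le (Nat.mul (Nat.add (Nat.mul 2 (Nat.add (mg z) e)) e) e) 40
    rw [hP] at h5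
    have h6 : ((Nat.add (Nat.shiftRight (Nat.mul (Nat.add (Nat.mul 2 (Nat.add (mg z) e)) e) e) 40) 3
        : ℕ) : ℝ) = ((Nat.shiftRight (Nat.mul (Nat.add (Nat.mul 2 (Nat.add (mg z) e)) e) e) 40
        : ℕ) : ℝ) + 3 := by
      rw [Nat.add_eq]
      push_cast
      ring
    rw [h6]
    have he0 : (0 : ℝ) ≤ e := Nat.cast_nonneg _
    have h7 : (e : ℝ) / 2 ^ 40 * (2 * ((mg z : ℝ) / 2 ^ 40) + (e : ℝ) / 2 ^ 40)
        ≤ (2 * ((mg z : ℝ) + e) + e) * e / 2 ^ 40 / 2 ^ 40 := by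
      have e4 : (e : ℝ) / 2 ^ 40 * (2 * ((mg z : ℝ) / 2 ^ 40) + (e : ℝ) / 2 ^ 40)
        = (2 * (mg z : ℝ) + e) * e / 2 ^ 40 / 2 ^ 40 := by ring
      rw [e4]
      apply div_le_div_of_nonneg_right _ (by positivity)
      apply div_le_div_of_nonneg_right _ (by positivity)
      nlinarith
    have h8 : (2 * ((mg z : ℝ) + e) + e) * e / 2 ^ 40 / 2 ^ 40
        ≤ (((Nat.shiftRight (Nat.mul (Nat.add (Nat.mul 2 (Nat.add (mg z) e)) e) e) 40 : ℕ) : ℝ) + 1)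
          / 2 ^ 40 := div_le_div_of_nonneg_right h5 (by positivity)
    refine (norm_add_le _ _).trans ?_
    have h9 : (((Nat.shiftRight (Nat.mul (Nat.add (Nat.mul 2 (Nat.add (mg z) e)) e) e) 40 : ℕ) : ℝ)
        + 3) / 2 ^ 40 = 2 / 2 ^ 40 +
        (((Nat.shiftRight (Nat.mul (Nat.add (Nat.mul 2 (Nat.add (mg z) e)) e) e) 40 : ℕ) : ℝ) + 1)
          / 2 ^ 40 := by ring
    rw [h9]
    linarith [hmz.2]

private theorem zf_exp_close (y w : ℂ) (hw : ‖w‖ ≤ 1 / 2) (hd : ‖y - w‖ ≤ 2 / 2 ^ 40) :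
    ‖Complex.exp y - Complex.exp w‖ ≤ 4 / 2 ^ 40 := by
  have e : Complex.exp y - Complex.exp w
      = Complex.exp w * ((Complex.exp (y - w) - 1 - (y - w)) + (y - w)) := by
    rw [Complex.exp_sub]
    have : Complex.exp w ≠ 0 := Complex.exp_ne_zero w
    field_simp
    ring
  rw [e, norm_mul]
  have h1 : ‖Complex.exp w‖ ≤ 165 / 100 := by
    rw [Complex.norm_exp]
    have h2 : w.re ≤ 1 / 2 := (Complex.re_le_norm w).trans hw
    refine (Real.exp_le_exp.2 h2).trans ?_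
    have h3 : Real.exp (1 / 2) * Real.exp (1 / 2) = Real.exp 1 := by
      rw [← Real.exp_add]
      norm_num
    have h4 := Real.exp_one_lt_d9
    have h5 : 0 < Real.exp (1 / 2) := Real.exp_pos _
    nlinarith
  have hd1 : ‖y - w‖ ≤ 1 := hd.trans (by norm_num)
  have h6 := Complex.norm_exp_sub_one_sub_id_le hd1
  have h7 : ‖y - w‖ ^ 2 ≤ (2 / 2 ^ 40 : ℝ) ^ 2 := pow_le_pow_left₀ (norm_nonneg _) hd 2
  have h8 : ‖(Complex.exp (y - w) - 1 - (y - w)) + (y - w)‖ ≤ (2 / 2 ^ 40 : ℝ) ^ 2 + 2 / 2 ^ 40 := by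
    refine (norm_add_le _ _).trans ?_
    linarith
  refine (mul_le_mul h1 h8 (norm_nonneg _) (by norm_num)).trans ?_
  norm_num

/-- `k = log2 (mg x) - 38` makes `mg (x >>> k) ≤ 2^39`; the shift costs `√2` units, times
`exp (1/2)`; `10 + 2.4 ≤ 20`. -/
theorem zexp_spec {x : Nat} (hx : One (2 ^ 62) x) (h : (zexp x).2.2 = true) :
    One (2 ^ 62) (zexp x).1 ∧
      ‖bz (zexp x).1 0 - Complex.exp (bz x 0)‖ ≤ ((zexp x).2.1 : ℝ) / 2 ^ 40 := by
  set k := Nat.sub (Nat.log2 (mg x)) 38 with hk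
  set y := Nat.land (Nat.shiftRight x k)
    (Nat.mul rep4 (Nat.sub (Nat.pow 2 (Nat.sub 128 k)) 1)) with hy
  have e0 : zexp x = bif Nat.ble k 60 then sqr k (nrm (hor y horc 27545)) 20 else (0, 0, false) :=
    rfl
  have hk60 : Nat.ble k 60 = true := by
    by_contra hc
    rw [Bool.not_eq_true] at hc
    rw [e0, hc] at h
    simp at h
  have e1 : zexp x = sqr k (nrm (hor y horc 27545)) 20 := by
    rw [e0, hk60]
    rfl
  have hk60' : k ≤ 60 := Nat.le_of_ble_eq_true hk60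
  rw [e1] at h ⊢
  have hfd : ∀ i, fd y i = fd x i / 2 ^ k := fun i => shrk_spec hk60' hx i
  have hyo : One (2 ^ 62) y := by
    intro i
    rw [hfd]
    refine ⟨lt_of_le_of_lt (Nat.div_le_self _ _) (hx i).1, fun hi => ?_⟩
    rw [(hx i).2 hi]
    exact Nat.zero_div _
  have hlt : mg x < 2 ^ (k + 39) := by
    have h1 : mg x < 2 ^ (Nat.log2 (mg x) + 1) := Nat.lt_log2_self
    refine lt_of_lt_of_le h1 (Nat.pow_le_pow_right (by norm_num) ?_)
    have h2 : k = Nat.log2 (mg x) - 38 := hk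
    omega
  have hmy : mg y ≤ 2 ^ 39 := by
    rw [mg_eq (by norm_num) hyo, hfd, hfd, hfd, hfd]
    rw [mg_eq (by norm_num) hx] at hlt
    have hpos : 0 < 2 ^ k := by positivity
    have d0 := Nat.div_mul_le_self (fd x 0) (2 ^ k)
    have d1 := Nat.div_mul_le_self (fd x 1) (2 ^ k)
    have d2 := Nat.div_mul_le_self (fd x 2) (2 ^ k)
    have d3 := Nat.div_mul_le_self (fd x 3) (2 ^ k)
    have h5 : (fd x 0 / 2 ^ k + fd x 1 / 2 ^ k + fd x 2 / 2 ^ k + fd x 3 / 2 ^ k) * 2 ^ k ≤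
        2 ^ 39 * 2 ^ k := by
      have e3 : (2 : ℕ) ^ (k + 39) = 2 ^ 39 * 2 ^ k := by rw [pow_add]; ring
      rw [e3] at hlt
      have e4 : (fd x 0 / 2 ^ k + fd x 1 / 2 ^ k + fd x 2 / 2 ^ k + fd x 3 / 2 ^ k) * 2 ^ k =
        fd x 0 / 2 ^ k * 2 ^ k + fd x 1 / 2 ^ k * 2 ^ k + fd x 2 / 2 ^ k * 2 ^ k +
          fd x 3 / 2 ^ k * 2 ^ k := by ring
      rw [e4]
      omega
    exact Nat.le_of_mul_le_mul_right h5 hpos
  have hw : ‖bz x 0 / 2 ^ k‖ ≤ 1 / 2 := by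
    rw [norm_div, norm_pow]
    have h2 : ‖(2 : ℂ)‖ = 2 := by simp
    rw [h2, div_le_iff₀ (by positivity)]
    have h3 := norm_le_mg (n := 2 ^ 62) (by norm_num) hx
    have h4 : (mg x : ℝ) ≤ 2 ^ (k + 39) := by exact_mod_cast hlt.le
    have h5 : (mg x : ℝ) / 2 ^ 40 ≤ 2 ^ (k + 39) / 2 ^ 40 :=
      div_le_div_of_nonneg_right h4 (by positivity)
    have h6 : (2 : ℝ) ^ (k + 39) / 2 ^ 40 = 1 / 2 * 2 ^ k := by
      rw [pow_add]
      field_simp
    linarith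
  have hd : ‖bz y 0 - bz x 0 / 2 ^ k‖ ≤ 2 / 2 ^ 40 := by
    have h3 := IA.Z.val_divn (IA.Z.mk (fd x 0) (fd x 2) (fd x 1) (fd x 3)) (n := 2 ^ k)
      (by positivity)
    have e3 : bz y 0 = ((IA.Z.mk (fd x 0) (fd x 2) (fd x 1) (fd x 3)).divn (2 ^ k)).val := by
      rw [zf_bz, hfd, hfd, hfd, hfd]
      rfl
    rw [← zf_bz, ← e3] at h3
    push_cast at h3
    exact h3
  have h1 := hor_spec hyo hmy
  have h2 := zf_exp_close (bz y 0) (bz x 0 / 2 ^ k) hw hd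
  have h3 : ‖bz (nrm (hor y horc 27545)) 0 - Complex.exp (bz x 0 / 2 ^ k)‖
      ≤ ((20 : ℕ) : ℝ) / 2 ^ 40 := by
    have e : bz (nrm (hor y horc 27545)) 0 - Complex.exp (bz x 0 / 2 ^ k)
        = (bz (nrm (hor y horc 27545)) 0 - Complex.exp (bz y 0))
          + (Complex.exp (bz y 0) - Complex.exp (bz x 0 / 2 ^ k)) := by ring
    rw [e]
    refine (norm_add_le _ _).trans ?_
    have : (10 : ℝ) / 2 ^ 40 + 4 / 2 ^ 40 ≤ ((20 : ℕ) : ℝ) / 2 ^ 40 := by norm_num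
    linarith [h1.2]
  have h4 := sqr_spec k _ 20 _ (one_mono h1.1 (by norm_num)) h3 h
  have e5 : Complex.exp (bz x 0 / 2 ^ k) ^ (2 ^ k) = Complex.exp (bz x 0) := by
    rw [← Complex.exp_nat_mul]
    congr 1
    push_cast
    field_simp
  rw [e5] at h4
  exact h4

/-! ### logarithm -/

private theorem zf_head {X : Nat} (h : good (Nat.land X m512) = true) :
    One (2 ^ 62) (Nat.land X m512) := by
  intro i
  refine ⟨((good_iff _).1 h i).1, fun hi => ?_⟩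
  rw [fd_land, fd_m512, if_neg (by omega)]
  exact land_zero_right _

/-- first guess: only one block -/
theorem zlog0_one (x : Nat) (h : good (zlog0 x) = true) : One (2 ^ 62) (zlog0 x) := by
  unfold zlog0 at h ⊢
  exact zf_head h

private theorem zf_logu1 (x l : Nat) : (logu x l).1 = nrm (Nat.add (mz x (zexp (swap l)).1)
    (Nat.shiftLeft 1099511627776 256)) := by
  rw [logu]

private theorem zf_logu2 (x l : Nat) : (logu x l).2.2 = (zexp (swap l)).2.2 := by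
  rw [logu]

private theorem zf_logu3 (x l : Nat) : (logu x l).2.1 =
    Nat.add (Nat.shiftRight (Nat.mul (mg x) (zexp (swap l)).2.1) 40) 3 := by
  rw [logu]

theorem logu_spec {x l : Nat} (hx : One (2 ^ 62) x) (hl : One (2 ^ 62) l)
    (h : (logu x l).2.2 = true) (hg : good (logu x l).1 = true) :
    One (2 ^ 62) (logu x l).1 ∧
      ‖bz (logu x l).1 0 - (bz x 0 * Complex.exp (-bz l 0) - 1)‖ ≤ ((logu x l).2.1 : ℝ) / 2 ^ 40 := by
  have hs := one_swap (n := 2 ^ 62) (by norm_num) hl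
  rw [zf_logu2] at h
  have he := zexp_spec hs.1 h
  rw [hs.2] at he
  have hfd : ∀ i, fd (Nat.shiftLeft 1099511627776 256) i = if i = 2 then 2 ^ 40 else 0 := by
    intro i
    have h1 : fd (Nat.shiftLeft 1099511627776 256) i =
        if i < 2 then 0 else fd 1099511627776 (i - 2) := fd_shl 1099511627776 2 i
    rw [h1]
    by_cases hi : i < 2
    · rw [if_pos hi, if_neg (by omega)]
    · rw [if_neg hi, zf_fd_const (by norm_num)]
      by_cases h2 : i = 2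
      · rw [if_pos (by omega), if_pos h2]
        norm_num
      · rw [if_neg (by omega), if_neg h2]
  have hc : One (2 ^ 62) (Nat.shiftLeft 1099511627776 256) := by
    intro i
    rw [hfd]
    split_ifs with hi
    · exact ⟨by norm_num, fun h => by omega⟩
    · exact ⟨by norm_num, fun _ => rfl⟩
  have hcz : bz (Nat.shiftLeft 1099511627776 256) 0 = -1 := by
    unfold bz
    simp only [Nat.mul_zero, Nat.zero_add, hfd]
    norm_num
  have hmz := mz_spec hx he.1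
  have hadd := one_add hmz.1 hc (by norm_num)
  have hnr := one_nrm (n := 2 ^ 86 + 2 ^ 62) (by norm_num) hadd.1
  rw [← zf_logu1] at hnr
  refine ⟨zf_good hnr.1 hg, ?_⟩
  rw [hnr.2, hadd.2, hcz, zf_logu3]
  generalize zexp (swap l) = E at *
  have h2 : ((Nat.add (Nat.shiftRight (Nat.mul (mg x) E.2.1) 40) 3 : ℕ) : ℝ) =
      ((Nat.shiftRight (Nat.mul (mg x) E.2.1) 40 : ℕ) : ℝ) + 1 + 2 := by
    rw [Nat.add_eq]
    push_cast
    ring
  rw [h2]
  have h4 := norm_le_mg (n := 2 ^ 62) (by norm_num) hx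
  have h5 : bz (mz x E.1) 0 + -1 - (bz x 0 * Complex.exp (-bz l 0) - 1) =
      (bz (mz x E.1) 0 - bz x 0 * bz E.1 0) +
      bz x 0 * (bz E.1 0 - Complex.exp (-bz l 0)) := by ring
  rw [h5]
  refine (norm_add_le _ _).trans ?_
  rw [norm_mul]
  have h6 : ‖bz x 0‖ * ‖bz E.1 0 - Complex.exp (-bz l 0)‖ ≤
      ((mg x : ℝ) / 2 ^ 40) * ((E.2.1 : ℝ) / 2 ^ 40) :=
    mul_le_mul h4 he.2 (norm_nonneg _) (by positivity)
  have h7 := zf_shr_le (Nat.mul (mg x) E.2.1) 40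
  have h8 : ((Nat.mul (mg x) E.2.1 : ℕ) : ℝ) =
      (mg x : ℝ) * E.2.1 := by
    show ((mg x * E.2.1 : ℕ) : ℝ) = _
    push_cast
    rfl
  rw [h8] at h7
  have h9 : ((mg x : ℝ) / 2 ^ 40) * ((E.2.1 : ℝ) / 2 ^ 40) ≤
      (((Nat.shiftRight (Nat.mul (mg x) E.2.1) 40 : ℕ) : ℝ) + 1) / 2 ^ 40 := by
    have : ((mg x : ℝ) / 2 ^ 40) * ((E.2.1 : ℝ) / 2 ^ 40) =
        ((mg x : ℝ) * E.2.1 / 2 ^ 40) / 2 ^ 40 := by ring
    rw [this]
    gcongr
  rw [add_div _ (2 : ℝ)]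
  linarith [hmz.2]

/-- rounding errors `3/2 + 1 + 2 + ...` units -/
theorem log3_spec {u : Nat} (hu : One (2 ^ 62) u) (hm : mg u ≤ 2 ^ 38) :
    One (2 ^ 62) (log3 u) ∧
      ‖bz (log3 u) 0 - (bz u 0 - bz u 0 ^ 2 / 2 + bz u 0 ^ 3 / 3)‖ ≤ 10 / 2 ^ 40 := by
  have c2 := zf_const (c := 549755813888) (by norm_num)
  have c3 := zf_const (c := 366503875925) (by norm_num)
  have hun : ‖bz u 0‖ ≤ 1 / 4 := by
    refine (norm_le_mg (by norm_num) hu).trans ?_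
    have : (mg u : ℝ) ≤ 2 ^ 38 := by exact_mod_cast hm
    rw [div_le_iff₀ (by positivity)]
    refine this.trans ?_
    norm_num
  -- `u2`
  have m1 := mz_spec hu hu
  have g1 := mg_mz hu hu
  have n1 := one_nrm (n := 2 ^ 86) (by norm_num) m1.1
  have k1 := zf_mg_nrm (n := 2 ^ 86) (by norm_num) m1.1
  have b1 : mg (mz u u) ≤ 2 ^ 36 := by
    have h4 : mg u * mg u ≤ 2 ^ 38 * 2 ^ 38 := Nat.mul_le_mul hm hm
    have h5 : mg (mz u u) * 2 ^ 40 ≤ 2 ^ 36 * 2 ^ 40 := le_trans g1 (le_trans h4 (by norm_num))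
    exact Nat.le_of_mul_le_mul_right h5 (by norm_num)
  set u2 := nrm (mz u u) with hu2
  have b2 : mg u2 ≤ 2 ^ 36 := le_trans k1 b1
  have o2 : One (2 ^ 62) u2 := zf_one_lt (n := 2 ^ 86) (by norm_num) n1.1
    (lt_of_le_of_lt b2 (by norm_num))
  -- `u2 / 2`
  have m2 := mz_spec o2 c2.1
  have g2 := mg_mz o2 c2.1
  have b3 : mg (mz u2 549755813888) ≤ 2 ^ 36 := by
    have h4 : mg u2 * mg 549755813888 ≤ 2 ^ 36 * 2 ^ 40 :=
      Nat.mul_le_mul b2 (by rw [c2.2.2]; norm_num)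
    exact Nat.le_of_mul_le_mul_right (le_trans g2 h4) (by norm_num)
  have s2 := one_swap (n := 2 ^ 86) (by norm_num) m2.1
  have t2 := zf_mg_swap (n := 2 ^ 86) (by norm_num) m2.1
  -- `u3`
  have m3 := mz_spec o2 hu
  have g3 := mg_mz o2 hu
  have n3 := one_nrm (n := 2 ^ 86) (by norm_num) m3.1
  have k3 := zf_mg_nrm (n := 2 ^ 86) (by norm_num) m3.1
  have b4 : mg (mz u2 u) ≤ 2 ^ 36 := by
    have h4 : mg u2 * mg u ≤ 2 ^ 36 * 2 ^ 40 :=
      Nat.mul_le_mul b2 (le_trans hm (by norm_num))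
    exact Nat.le_of_mul_le_mul_right (le_trans g3 h4) (by norm_num)
  set u3 := nrm (mz u2 u) with hu3
  have b5 : mg u3 ≤ 2 ^ 36 := le_trans k3 b4
  have o3 : One (2 ^ 62) u3 := zf_one_lt (n := 2 ^ 86) (by norm_num) n3.1
    (lt_of_le_of_lt b5 (by norm_num))
  -- `u3 / 3`
  have m4 := mz_spec o3 c3.1
  have g4 := mg_mz o3 c3.1
  have b6 : mg (mz u3 366503875925) ≤ 2 ^ 36 := by
    have h4 : mg u3 * mg 366503875925 ≤ 2 ^ 36 * 2 ^ 40 :=
      Nat.mul_le_mul b5 (by rw [c3.2.2]; norm_num)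
    exact Nat.le_of_mul_le_mul_right (le_trans g4 h4) (by norm_num)
  -- sum
  have a1 := one_add hu s2.1 (by norm_num)
  have a2 := zf_mg_add hu s2.1 (by norm_num)
  have a3 := one_add a1.1 m4.1 (by norm_num)
  have a4 := zf_mg_add a1.1 m4.1 (by norm_num)
  have n5 := one_nrm (n := 2 ^ 62 + 2 ^ 86 + 2 ^ 86) (by norm_num) a3.1
  have k5 := zf_mg_nrm (n := 2 ^ 62 + 2 ^ 86 + 2 ^ 86) (by norm_num) a3.1
  have e0 : log3 u = nrm (Nat.add (Nat.add u (swap (mz u2 549755813888)))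
    (mz u3 366503875925)) := rfl
  rw [← e0] at n5 k5
  have b7 : mg (log3 u) < 2 ^ 62 := by
    refine lt_of_le_of_lt k5 ?_
    rw [a4, a2, t2]
    have h5 : (2 : ℕ) ^ 38 + 2 ^ 36 + 2 ^ 36 < 2 ^ 62 := by norm_num
    omega
  refine ⟨zf_one_lt (n := 2 ^ 62 + 2 ^ 86 + 2 ^ 86) (by norm_num) n5.1 b7, ?_⟩
  rw [n5.2, a3.2, a1.2, s2.2]
  have r1 := m1.2
  rw [← n1.2] at r1
  have r2 := m2.2
  rw [c2.2.1] at r2
  have r3 := m3.2
  rw [← n3.2] at r3
  have r4 := m4.2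
  rw [c3.2.1] at r4
  set U := bz u 0
  set A := bz u2 0
  set B := bz (mz u2 549755813888) 0
  set C := bz u3 0
  set D := bz (mz u3 366503875925) 0
  have e1 : U + -B + D - (U - U ^ 2 / 2 + U ^ 3 / 3) =
      -(B - A * ((549755813888 : ℕ) / 2 ^ 40)) + -((A - U * U) / 2) +
        (D - C * ((366503875925 : ℕ) / 2 ^ 40)) +
        ((C - A * U) * ((366503875925 : ℕ) / 2 ^ 40) +
          (A - U * U) * U * ((366503875925 : ℕ) / 2 ^ 40) +
          U ^ 3 * ((366503875925 : ℕ) / 2 ^ 40 - 1 / 3)) := by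
    push_cast
    ring
  rw [e1]
  have q1 := norm_add_le (-(B - A * ((549755813888 : ℕ) / 2 ^ 40)) + -((A - U * U) / 2) +
        (D - C * ((366503875925 : ℕ) / 2 ^ 40)))
        ((C - A * U) * ((366503875925 : ℕ) / 2 ^ 40) +
          (A - U * U) * U * ((366503875925 : ℕ) / 2 ^ 40) +
          U ^ 3 * ((366503875925 : ℕ) / 2 ^ 40 - 1 / 3))
  have q2 := norm_add_le (-(B - A * ((549755813888 : ℕ) / 2 ^ 40)) + -((A - U * U) / 2))
        (D - C * ((366503875925 : ℕ) / 2 ^ 40))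
  have q3 := norm_add_le (-(B - A * ((549755813888 : ℕ) / 2 ^ 40))) (-((A - U * U) / 2))
  have q4 := norm_add_le ((C - A * U) * ((366503875925 : ℕ) / 2 ^ 40) +
          (A - U * U) * U * ((366503875925 : ℕ) / 2 ^ 40))
          (U ^ 3 * ((366503875925 : ℕ) / 2 ^ 40 - 1 / 3))
  have q5 := norm_add_le ((C - A * U) * ((366503875925 : ℕ) / 2 ^ 40))
          ((A - U * U) * U * ((366503875925 : ℕ) / 2 ^ 40))
  rw [norm_neg, norm_neg] at q3
  have w1 : ‖(A - U * U) / 2‖ = ‖A - U * U‖ / 2 := by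
    rw [norm_div]
    norm_num
  have w2 : ‖(((366503875925 : ℕ) : ℂ) / 2 ^ 40)‖ ≤ 1 / 3 := by
    rw [norm_div, Complex.norm_natCast, norm_pow]
    norm_num
  have w3 : ‖(((366503875925 : ℕ) : ℂ) / 2 ^ 40 - 1 / 3)‖ ≤ 1 / 2 ^ 40 := by
    have : (((366503875925 : ℕ) : ℂ) / 2 ^ 40 - 1 / 3) =
        (((366503875925 : ℝ) / 2 ^ 40 - 1 / 3 : ℝ) : ℂ) := by push_cast; ring
    rw [this, Complex.norm_real, Real.norm_eq_abs, abs_le]
    constructor <;> norm_num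
  have w4 : ‖(C - A * U) * ((366503875925 : ℕ) / 2 ^ 40)‖ ≤ 2 / 2 ^ 40 * (1 / 3) := by
    rw [norm_mul]
    exact mul_le_mul r3 w2 (norm_nonneg _) (by positivity)
  have w5 : ‖(A - U * U) * U * ((366503875925 : ℕ) / 2 ^ 40)‖ ≤
      2 / 2 ^ 40 * (1 / 4) * (1 / 3) := by
    rw [norm_mul, norm_mul]
    exact mul_le_mul (mul_le_mul r1 hun (norm_nonneg _) (by positivity)) w2 (norm_nonneg _)
      (by positivity)
  have w6 : ‖U ^ 3 * ((366503875925 : ℕ) / 2 ^ 40 - 1 / 3)‖ ≤ (1 / 4) ^ 3 * (1 / 2 ^ 40) := by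
    rw [norm_mul, norm_pow]
    exact mul_le_mul (pow_le_pow_left₀ (norm_nonneg _) hun 3) w3 (norm_nonneg _) (by positivity)
  have e8 : (2 : ℝ) / 2 ^ 40 + 2 / 2 ^ 40 / 2 + 2 / 2 ^ 40 + 2 / 2 ^ 40 * (1 / 3) +
      2 / 2 ^ 40 * (1 / 4) * (1 / 3) + (1 / 4) ^ 3 * (1 / 2 ^ 40) ≤ 10 / 2 ^ 40 := by norm_num
  linarith

private theorem zf_cubic {U u : ℂ} {e : ℝ} (hU4 : ‖U‖ ≤ 1 / 4) (hu4 : ‖u‖ ≤ 1 / 4)
    (hUu : ‖U - u‖ ≤ e) :
    ‖(U - U ^ 2 / 2 + U ^ 3 / 3) - (u - u ^ 2 / 2 + u ^ 3 / 3)‖ ≤ 2 * e := by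
  have e3 : (U - U ^ 2 / 2 + U ^ 3 / 3) - (u - u ^ 2 / 2 + u ^ 3 / 3) =
      (U - u) * (1 - (U + u) / 2 + (U ^ 2 + U * u + u ^ 2) / 3) := by ring
  rw [e3, norm_mul]
  have h3 : ‖1 - (U + u) / 2 + (U ^ 2 + U * u + u ^ 2) / 3‖ ≤ 2 := by
    have a1 : ‖1 - (U + u) / 2 + (U ^ 2 + U * u + u ^ 2) / 3‖ ≤
        ‖(1 : ℂ)‖ + ‖(U + u) / 2‖ + ‖(U ^ 2 + U * u + u ^ 2) / 3‖ :=
      (norm_add_le _ _).trans (add_le_add (norm_sub_le _ _) le_rfl)
    have a2 : ‖(U + u) / 2‖ ≤ 1 / 4 := by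
      rw [norm_div]
      have := norm_add_le U u
      norm_num
      linarith
    have a3 : ‖(U ^ 2 + U * u + u ^ 2) / 3‖ ≤ 1 / 16 := by
      rw [norm_div]
      have b1 := norm_add_le (U ^ 2 + U * u) (u ^ 2)
      have b2 := norm_add_le (U ^ 2) (U * u)
      rw [norm_pow] at b1 b2
      rw [norm_mul] at b2
      have c0 := norm_nonneg U
      have c1 := norm_nonneg u
      norm_num
      nlinarith
    rw [norm_one] at a1
    linarith
  have h4 := norm_nonneg (U - u)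
  nlinarith

private theorem zf_main {x l1 : Nat} (hx : One (2 ^ 62) x) (ol1 : One (2 ^ 62) l1)
    (ht : (logu x l1).2.2 = true) (hg : good (logu x l1).1 = true)
    (h : Nat.ble (Nat.add (mg (logu x l1).1) (logu x l1).2.1) 274877906944 = true) :
    One (2 ^ 63) (nrm (Nat.add l1 (log3 (logu x l1).1))) ∧
    ∃ L : ℂ, Complex.exp L = bz x 0 ∧
      ‖bz (nrm (Nat.add l1 (log3 (logu x l1).1))) 0 - L‖ ≤
        ((Nat.add (Nat.add (Nat.mul 2 (logu x l1).2.1) (Nat.shiftRight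
          (Nat.mul (Nat.mul (Nat.add (mg (logu x l1).1) (logu x l1).2.1)
            (Nat.add (mg (logu x l1).1) (logu x l1).2.1))
            (Nat.mul (Nat.add (mg (logu x l1).1) (logu x l1).2.1)
            (Nat.add (mg (logu x l1).1) (logu x l1).2.1))) 120)) 16 : ℕ) : ℝ) / 2 ^ 40 := by
  have hlu := logu_spec hx ol1 ht hg
  generalize hu1 : (logu x l1).1 = u1 at *
  generalize he1 : (logu x l1).2.1 = e1 at *
  have hmle : Nat.add (mg u1) e1 ≤ 274877906944 := Nat.le_of_ble_eq_true h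
  generalize hm : Nat.add (mg u1) e1 = m at *
  have hm' : m = mg u1 + e1 := hm.symm
  have hmg38 : mg u1 ≤ 2 ^ 38 := by
    have : (274877906944 : ℕ) = 2 ^ 38 := by norm_num
    omega
  have hl3 := log3_spec hlu.1 hmg38
  have hadd := one_add ol1 hl3.1 (by norm_num)
  have hnr := one_nrm (n := 2 ^ 62 + 2 ^ 62) (by norm_num) hadd.1
  refine ⟨one_mono hnr.1 (by norm_num), ?_⟩
  rw [hnr.2, hadd.2]
  have hmgn := norm_le_mg (n := 2 ^ 62) (by norm_num) hlu.1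
  have hu := hlu.2
  have hmr : (m : ℝ) = (mg u1 : ℝ) + e1 := by rw [hm']; push_cast; rfl
  have t3 := hl3.2
  generalize bz (log3 u1) 0 = w at *
  set U : ℂ := bz x 0 * Complex.exp (-bz l1 0) - 1 with hU
  set u : ℂ := bz u1 0 with hudef
  have hUu : ‖U - u‖ ≤ (e1 : ℝ) / 2 ^ 40 := by rw [norm_sub_rev]; exact hu
  have hUm : ‖U‖ ≤ (m : ℝ) / 2 ^ 40 := by
    have h1 : ‖U‖ ≤ ‖U - u‖ + ‖u‖ := by
      have := norm_add_le (U - u) u
      rwa [sub_add_cancel] at this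
    rw [hmr, add_div]
    linarith
  have hm4 : (m : ℝ) / 2 ^ 40 ≤ 1 / 4 := by
    rw [div_le_iff₀ (by positivity)]
    have : (m : ℝ) ≤ 274877906944 := by exact_mod_cast hmle
    refine this.trans ?_
    norm_num
  have hU4 : ‖U‖ ≤ 1 / 4 := hUm.trans hm4
  have he0 : (0 : ℝ) ≤ (e1 : ℝ) := Nat.cast_nonneg _
  have hu4 : ‖u‖ ≤ 1 / 4 := by
    refine hmgn.trans (le_trans ?_ hm4)
    rw [hmr]
    gcongr
    linarith
  have h1U : 1 + U ≠ 0 := by
    intro h0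
    have h1 : U = -1 := by linear_combination h0
    rw [h1, norm_neg, norm_one] at hU4
    norm_num at hU4
  refine ⟨bz l1 0 + Complex.log (1 + U), ?_, ?_⟩
  · rw [Complex.exp_add, Complex.exp_log h1U, hU]
    have h2 : Complex.exp (bz l1 0) * Complex.exp (-bz l1 0) = 1 := by
      rw [← Complex.exp_add, add_neg_cancel, Complex.exp_zero]
    linear_combination bz x 0 * h2
  · have e2 : bz l1 0 + w - (bz l1 0 + Complex.log (1 + U)) =
        -((Complex.log (1 + U) - (U - U ^ 2 / 2 + U ^ 3 / 3)) +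
        ((U - U ^ 2 / 2 + U ^ 3 / 3) - (u - u ^ 2 / 2 + u ^ 3 / 3))) +
        (w - (u - u ^ 2 / 2 + u ^ 3 / 3)) := by ring
    rw [e2]
    have t1 := IA.log_one_add_bound U hU4
    have t2 := zf_cubic hU4 hu4 hUu
    have t0 : ‖U‖ ^ 4 / 3 ≤ ((Nat.shiftRight (Nat.mul (Nat.mul m m) (Nat.mul m m)) 120 : ℕ) + 1) /
        2 ^ 40 := by
      have s1 := zf_shr_le (Nat.mul (Nat.mul m m) (Nat.mul m m)) 120
      have s2 : ((Nat.mul (Nat.mul m m) (Nat.mul m m) : ℕ) : ℝ) = (m : ℝ) ^ 4 := by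
        simp only [Nat.mul_eq]
        push_cast
        ring
      rw [s2] at s1
      have s3 : ‖U‖ ^ 4 ≤ ((m : ℝ) / 2 ^ 40) ^ 4 :=
        pow_le_pow_left₀ (norm_nonneg _) hUm 4
      have s4 : ((m : ℝ) / 2 ^ 40) ^ 4 = ((m : ℝ) ^ 4 / 2 ^ 120) / 2 ^ 40 := by
        rw [div_pow, div_div, ← pow_mul, ← pow_add]
      rw [s4] at s3
      have s5 : (m : ℝ) ^ 4 / 2 ^ 120 / 2 ^ 40 ≤
          ((Nat.shiftRight (Nat.mul (Nat.mul m m) (Nat.mul m m)) 120 : ℕ) + 1) / 2 ^ 40 := by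
        gcongr
      have s6 : 0 ≤ ‖U‖ ^ 4 := by positivity
      linarith
    have t4 := norm_add_le (-((Complex.log (1 + U) - (U - U ^ 2 / 2 + U ^ 3 / 3)) +
        ((U - U ^ 2 / 2 + U ^ 3 / 3) - (u - u ^ 2 / 2 + u ^ 3 / 3))))
        (w - (u - u ^ 2 / 2 + u ^ 3 / 3))
    have t5 := norm_add_le (Complex.log (1 + U) - (U - U ^ 2 / 2 + U ^ 3 / 3))
        ((U - U ^ 2 / 2 + U ^ 3 / 3) - (u - u ^ 2 / 2 + u ^ 3 / 3))
    rw [norm_neg] at t4
    have t6 : (((Nat.add (Nat.add (Nat.mul 2 e1) (Nat.shiftRight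
        (Nat.mul (Nat.mul m m) (Nat.mul m m)) 120)) 16 : ℕ)) : ℝ) / 2 ^ 40 =
        2 * ((e1 : ℝ) / 2 ^ 40) +
        ((Nat.shiftRight (Nat.mul (Nat.mul m m) (Nat.mul m m)) 120 : ℕ) + 1) / 2 ^ 40 +
        15 / 2 ^ 40 := by
      show ((2 * e1 + Nat.shiftRight (Nat.mul (Nat.mul m m) (Nat.mul m m)) 120 + 16 : ℕ) : ℝ) /
        2 ^ 40 = _
      push_cast
      ring
    rw [t6]
    have t7 : (10 : ℝ) / 2 ^ 40 ≤ 15 / 2 ^ 40 := by gcongr; norm_num
    linarith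

private def zf_l1 (x : Nat) : Nat :=
  Nat.land (nrm (Nat.add (Nat.add (zlog0 x) (log3 (logu x (zlog0 x)).1))
    (swap (mz (mz (nrm (mz (logu x (zlog0 x)).1 (logu x (zlog0 x)).1))
      (nrm (mz (logu x (zlog0 x)).1 (logu x (zlog0 x)).1))) 274877906944)))) m512

private def zf_e (x l1 : Nat) : Nat :=
  Nat.add (Nat.add (Nat.mul 2 (logu x l1).2.1) (Nat.shiftRight
          (Nat.mul (Nat.mul (Nat.add (mg (logu x l1).1) (logu x l1).2.1)
            (Nat.add (mg (logu x l1).1) (logu x l1).2.1))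
            (Nat.mul (Nat.add (mg (logu x l1).1) (logu x l1).2.1)
            (Nat.add (mg (logu x l1).1) (logu x l1).2.1))) 120)) 16

private theorem zf_zlog (x : Nat) : zlog x =
    bif good (zlog0 x) && good (logu x (zlog0 x)).1 && good (zf_l1 x) && (logu x (zf_l1 x)).2.2 &&
      good (logu x (zf_l1 x)).1 &&
      Nat.ble (Nat.add (mg (logu x (zf_l1 x)).1) (logu x (zf_l1 x)).2.1) 274877906944 then
    (nrm (Nat.add (zf_l1 x) (log3 (logu x (zf_l1 x)).1)), zf_e x (zf_l1 x), true)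
  else (0, 0, false) := by
  rw [zlog, zf_e, zf_l1]

/-- With `u = x exp (-l1) - 1`, `‖u‖ ≤ 1/4`: `x = exp (l1 + log (1 + u))`; the value
`l = l1 + log (1+u)` is the principal logarithm if `|Im l| < π`. -/
theorem zlog_spec {x : Nat} (hx : One (2 ^ 62) x) (h : (zlog x).2.2 = true) :
    One (2 ^ 63) (zlog x).1 ∧
      ∃ l : ℂ, Complex.exp l = bz x 0 ∧ ‖bz (zlog x).1 0 - l‖ ≤ ((zlog x).2.1 : ℝ) / 2 ^ 40 := by
  have hz := zf_zlog x
  cases hc : (good (zlog0 x) && good (logu x (zlog0 x)).1 && good (zf_l1 x) &&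
      (logu x (zf_l1 x)).2.2 && good (logu x (zf_l1 x)).1 &&
      Nat.ble (Nat.add (mg (logu x (zf_l1 x)).1) (logu x (zf_l1 x)).2.1) 274877906944) with
  | false =>
    rw [hc, cond_false] at hz
    rw [hz] at h
    exact absurd h Bool.false_ne_true
  | true =>
    rw [hc, cond_true] at hz
    rw [hz]
    simp only [Bool.and_eq_true] at hc
    obtain ⟨⟨⟨⟨⟨_, _⟩, hgl1⟩, hu1t⟩, hgu1⟩, hmb⟩ := hc
    have ol1 : One (2 ^ 62) (zf_l1 x) := by
      unfold zf_l1 at hgl1 ⊢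
      exact zf_head hgl1
    have hm := zf_main hx ol1 hu1t hgu1 hmb
    rw [← zf_e] at hm
    exact hm

end Pool.Agent.helper31.IB
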