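import Pool.Agent.helper31.IB.BlkA

/-!
# IB-3: blocks, products and bounds

Every function is computed field by field with `IB/Field.lean` and the masks of `IB/BlkA.lean`.
-/

namespace Pool.Agent.helper31.IB

open Complex
open Pool.Agent.helper31.IA (Z)

/-! ### products -/

/-- cyclic product `Σ_{a + b = m mod 4} x_a c_b` of the block `j` of `X` with `c` -/
def cyc (X c j m : Nat) : Nat :=
  fd X (8 * j) * fd c (m % 4) + fd X (8 * j + 1) * fd c ((m + 3) % 4) +
    fd X (8 * j + 2) * fd c ((m + 2) % 4) + fd X (8 * j + 3) * fd c ((m + 1) % 4)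

theorem bz_cyc (X c j : Nat) :
    (((cyc X c j 0 : ℝ) - cyc X c j 2 : ℝ) : ℂ) + (((cyc X c j 1 : ℝ) - cyc X c j 3 : ℝ) : ℂ) * I =
      2 ^ 80 * (bz X j * bz c 0) := by
  have h0 : cyc X c j 0 = fd X (8 * j) * fd c 0 + fd X (8 * j + 1) * fd c 3 +
      fd X (8 * j + 2) * fd c 2 + fd X (8 * j + 3) * fd c 1 := rfl
  have h1 : cyc X c j 1 = fd X (8 * j) * fd c 1 + fd X (8 * j + 1) * fd c 0 +
      fd X (8 * j + 2) * fd c 3 + fd X (8 * j + 3) * fd c 2 := rfl
  have h2 : cyc X c j 2 = fd X (8 * j) * fd c 2 + fd X (8 * j + 1) * fd c 1 +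
      fd X (8 * j + 2) * fd c 0 + fd X (8 * j + 3) * fd c 3 := rfl
  have h3 : cyc X c j 3 = fd X (8 * j) * fd c 3 + fd X (8 * j + 1) * fd c 2 +
      fd X (8 * j + 2) * fd c 1 + fd X (8 * j + 3) * fd c 0 := rfl
  have hb : bz c 0 = ((((fd c 0 : ℝ) - fd c 2) / 2 ^ 40 : ℝ) : ℂ) +
    ((((fd c 1 : ℝ) - fd c 3) / 2 ^ 40 : ℝ) : ℂ) * I := rfl
  rw [h0, h1, h2, h3, hb]
  unfold bz
  generalize fd X (8 * j) = x0
  generalize fd X (8 * j + 1) = x1
  generalize fd X (8 * j + 2) = x2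
  generalize fd X (8 * j + 3) = x3
  generalize fd c 0 = c0
  generalize fd c 1 = c1
  generalize fd c 2 = c2
  generalize fd c 3 = c3
  push_cast
  have hI : I ^ 2 = -1 := I_sq
  linear_combination (-(((x1 : ℂ) - x3) * ((c1 : ℂ) - c3))) * hI

private theorem blk_land_full {a : Nat} (h : a < 2 ^ 128) : Nat.land a (2 ^ 128 - 1) = a := by
  rw [land_mask]
  exact Nat.mod_eq_of_lt h

private theorem blk_conv_lt {X c : Nat} (hX : Clean (2 ^ 62) X) (hc : One (2 ^ 62) c) (i : Nat) :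
    conv X c i ≤ 4 * (2 ^ 62 - 1) ^ 2 := by
  have key : ∀ a b : Nat, a < 2 ^ 62 → b < 2 ^ 62 → a * b ≤ (2 ^ 62 - 1) ^ 2 := by
    intro a b ha hb
    rw [pow_two]
    exact Nat.mul_le_mul (by omega) (by omega)
  have k0 := key _ _ (hX i).1 (hc 0).1
  have k1 := key _ _ (hX (i - 1)).1 (hc 1).1
  have k2 := key _ _ (hX (i - 2)).1 (hc 2).1
  have k3 := key _ _ (hX (i - 3)).1 (hc 3).1
  unfold conv
  generalize fd X i * fd c 0 = a0 at *
  generalize fd X (i - 1) * fd c 1 = a1 at *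
  generalize fd X (i - 2) * fd c 2 = a2 at *
  generalize fd X (i - 3) * fd c 3 = a3 at *
  generalize (2 ^ 62 - 1) ^ 2 = q at *
  split_ifs <;> omega

private theorem blk_fd_mul {X c : Nat} (hX : Clean (2 ^ 62) X) (hc : One (2 ^ 62) c) (i : Nat) :
    fd (Nat.mul X c) i = conv X c i := by
  have h := fd_mul (X := X) (c := c) (lt_of_one hc) (fun i => by
    have h1 := blk_conv_lt hX hc i
    norm_num at h1 ⊢
    omega) i
  exact h

private theorem blk_conv_cyc {X c : Nat} (hX : Clean (2 ^ 62) X) (j m : Nat) (hm : m < 4) :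
    conv X c (8 * j + m) + conv X c (8 * j + m + 4) = cyc X c j m := by
  have z : ∀ i b : Nat, i % 8 < b → b ≤ 3 → (if b ≤ i then fd X (i - b) * fd c b else 0) = 0 := by
    intro i b h1 h2
    by_cases h : b ≤ i
    · rw [if_pos h, (hX (i - b)).2 (Or.inr (by omega)), Nat.zero_mul]
    · rw [if_neg h]
  have y : ∀ i b : Nat, 4 ≤ i % 8 → b + 4 ≤ i % 8 → (if b ≤ i then fd X (i - b) * fd c b else 0) = 0 := by
    intro i b h1 h2
    by_cases h : b ≤ i
    · rw [if_pos h, (hX (i - b)).2 (Or.inr (by omega)), Nat.zero_mul]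
    · rw [if_neg h]
  have w : ∀ i b k : Nat, i = k + b → (if b ≤ i then fd X (i - b) * fd c b else 0) = fd X k * fd c b := by
    intro i b k h
    rw [if_pos (by omega), h, Nat.add_sub_cancel]
  have v : ∀ i : Nat, 4 ≤ i % 8 → fd X i * fd c 0 = 0 := by
    intro i h
    rw [(hX i).2 (Or.inr h), Nat.zero_mul]
  unfold conv cyc
  rcases (by omega : m = 0 ∨ m = 1 ∨ m = 2 ∨ m = 3) with rfl | rfl | rfl | rfl
  · rw [z _ 1 (by omega) (by omega), z _ 2 (by omega) (by omega), z _ 3 (by omega) (by omega),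
      v (8 * j + 0 + 4) (by omega), w (8 * j + 0 + 4) 1 (8 * j + 3) (by omega),
      w (8 * j + 0 + 4) 2 (8 * j + 2) (by omega), w (8 * j + 0 + 4) 3 (8 * j + 1) (by omega)]
    simp only [Nat.add_zero, Nat.zero_add, Nat.zero_mod, Nat.reduceMod]
    ring
  · rw [w (8 * j + 1) 1 (8 * j) (by omega), z (8 * j + 1) 2 (by omega) (by omega),
      z (8 * j + 1) 3 (by omega) (by omega),
      v (8 * j + 1 + 4) (by omega), y (8 * j + 1 + 4) 1 (by omega) (by omega),
      w (8 * j + 1 + 4) 2 (8 * j + 3) (by omega), w (8 * j + 1 + 4) 3 (8 * j + 2) (by omega)]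
    simp only [Nat.add_zero, Nat.zero_add, Nat.reduceMod, Nat.reduceAdd]
    ring
  · rw [w (8 * j + 2) 1 (8 * j + 1) (by omega), w (8 * j + 2) 2 (8 * j) (by omega),
      z (8 * j + 2) 3 (by omega) (by omega),
      v (8 * j + 2 + 4) (by omega), y (8 * j + 2 + 4) 1 (by omega) (by omega),
      y (8 * j + 2 + 4) 2 (by omega) (by omega), w (8 * j + 2 + 4) 3 (8 * j + 3) (by omega)]
    simp only [Nat.add_zero, Nat.zero_add, Nat.reduceMod, Nat.reduceAdd]
    ring
  · rw [w (8 * j + 3) 1 (8 * j + 2) (by omega), w (8 * j + 3) 2 (8 * j + 1) (by omega),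
      w (8 * j + 3) 3 (8 * j) (by omega),
      v (8 * j + 3 + 4) (by omega), y (8 * j + 3 + 4) 1 (by omega) (by omega),
      y (8 * j + 3 + 4) 2 (by omega) (by omega), y (8 * j + 3 + 4) 3 (by omega) (by omega)]
    simp only [Nat.add_zero, Nat.reduceMod, Nat.reduceAdd]
    ring

private theorem blk_fd_fold {P : Nat} (hP : ∀ i, fd P i < 2 ^ 127) (i : Nat) :
    fd (fold P) i = if i < 64 ∧ i % 8 < 4 then fd P i + fd P (i + 4) else 0 := by
  have hA : ∀ i, fd (Nat.land P mB) i = if i < 64 ∧ i % 8 < 4 then fd P i else 0 := by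
    intro i
    rw [fd_land, fd_mB]
    split_ifs
    · exact blk_land_full (fd_lt P i)
    · exact land_zero_right _
  have hB : ∀ i, fd (Nat.land (Nat.shiftRight P 512) mB) i =
      if i < 64 ∧ i % 8 < 4 then fd P (i + 4) else 0 := by
    intro i
    have e : fd (Nat.shiftRight P 512) i = fd P (i + 4) := fd_shr P 4 i
    rw [fd_land, fd_mB, e]
    split_ifs
    · exact blk_land_full (fd_lt P (i + 4))
    · exact land_zero_right _
  have h := fd_add (X := Nat.land P mB) (Y := Nat.land (Nat.shiftRight P 512) mB) (fun i => by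
    rw [hA, hB]
    have h1 := hP i
    have h2 := hP (i + 4)
    split_ifs <;> omega) i
  have h2 : fd (fold P) i = fd (Nat.land P mB) i + fd (Nat.land (Nat.shiftRight P 512) mB) i := h
  rw [h2, hA, hB]
  split_ifs <;> rfl

private theorem blk_cyc_zero {X : Nat} (hX : Clean (2 ^ 62) X) (c j m : Nat) (hj : 8 ≤ j) :
    cyc X c j m = 0 := by
  unfold cyc
  rw [(hX (8 * j)).2 (Or.inl (by omega)), (hX (8 * j + 1)).2 (Or.inl (by omega)),
    (hX (8 * j + 2)).2 (Or.inl (by omega)), (hX (8 * j + 3)).2 (Or.inl (by omega))]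
  simp

private theorem blk_cyc_le {X c : Nat} (hX : Clean (2 ^ 62) X) (hc : One (2 ^ 62) c) (j m : Nat) :
    cyc X c j m ≤ 4 * (2 ^ 62 - 1) ^ 2 := by
  have key : ∀ a b : Nat, a < 2 ^ 62 → b < 2 ^ 62 → a * b ≤ (2 ^ 62 - 1) ^ 2 := by
    intro a b ha hb
    rw [pow_two]
    exact Nat.mul_le_mul (by omega) (by omega)
  have k0 := key _ _ (hX (8 * j)).1 (hc (m % 4)).1
  have k1 := key _ _ (hX (8 * j + 1)).1 (hc ((m + 3) % 4)).1
  have k2 := key _ _ (hX (8 * j + 2)).1 (hc ((m + 2) % 4)).1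
  have k3 := key _ _ (hX (8 * j + 3)).1 (hc ((m + 1) % 4)).1
  unfold cyc
  generalize fd X (8 * j) * fd c (m % 4) = a0 at *
  generalize fd X (8 * j + 1) * fd c ((m + 3) % 4) = a1 at *
  generalize fd X (8 * j + 2) * fd c ((m + 2) % 4) = a2 at *
  generalize fd X (8 * j + 3) * fd c ((m + 1) % 4) = a3 at *
  generalize (2 ^ 62 - 1) ^ 2 = q at *
  omega

/-- fields of a folded product -/
theorem fd_fold_mul {X c : Nat} (hX : Clean (2 ^ 62) X) (hc : One (2 ^ 62) c) (j m : Nat)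
    (hm : m < 4) : fd (fold (Nat.mul X c)) (8 * j + m) = cyc X c j m := by
  rw [blk_fd_fold (fun i => by
    rw [blk_fd_mul hX hc]
    have h1 := blk_conv_lt hX hc i
    norm_num at h1 ⊢
    omega), blk_fd_mul hX hc, blk_fd_mul hX hc, blk_conv_cyc hX j m hm]
  by_cases hj : j < 8
  · rw [if_pos (by omega)]
  · rw [if_neg (by omega), blk_cyc_zero hX c j m (by omega)]

private theorem blk_index {i : Nat} (h : i % 8 < 4) : ∃ j m, m < 4 ∧ i = 8 * j + m :=
  ⟨i / 8, i % 8, h, by omega⟩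

theorem clean_fold_mul {X c : Nat} (hX : Clean (2 ^ 62) X) (hc : One (2 ^ 62) c) :
    Clean (2 ^ 126) (fold (Nat.mul X c)) := by
  intro i
  by_cases hi : i < 64 ∧ i % 8 < 4
  · obtain ⟨j, m, hm, rfl⟩ := blk_index hi.2
    rw [fd_fold_mul hX hc j m hm]
    have h1 := blk_cyc_le hX hc j m
    refine ⟨?_, fun h => by omega⟩
    norm_num at h1 ⊢
    omega
  · have h : fd (fold (Nat.mul X c)) i = 0 := by
      rw [blk_fd_fold (fun i => by
        rw [blk_fd_mul hX hc]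
        have h1 := blk_conv_lt hX hc i
        norm_num at h1 ⊢
        omega), if_neg hi]
    rw [h]
    exact ⟨by norm_num, fun _ => rfl⟩

/-- the shift by `40` in all fields -/
private theorem blk_fd_sh {P : Nat} (hP : Clean (2 ^ 128) P) (i : Nat) :
    fd (sh P) i = fd P i / 2 ^ 40 := by
  by_cases hi : i < 64 ∧ i % 8 < 4
  · have h := fd_shr_mask (X := P) (M := mS) (k := 40) (i := i) (by norm_num) (by
      rw [fd_mS, if_pos hi])
    exact h
  · have h : fd (sh P) i = Nat.land (fd (Nat.shiftRight P 40) i) (fd mS i) := fd_land _ _ i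
    rw [h, fd_mS, if_neg hi, land_zero_right, (hP i).2 (by omega), Nat.zero_div]

private theorem blk_clean_sh {P n : Nat} (hn : n * 2 ^ 40 ≤ 2 ^ 128) (hP : Clean (n * 2 ^ 40) P) :
    Clean n (sh P) := by
  intro i
  rw [blk_fd_sh (clean_mono hP hn)]
  refine ⟨?_, fun h => ?_⟩
  · rw [Nat.div_lt_iff_lt_mul (by positivity)]
    exact (hP i).1
  · rw [(hP i).2 h, Nat.zero_div]

/-- rounding of the four fields -/
private theorem blk_round {a b c d : Nat} {z : ℂ}
    (hz : z = (((((a : ℝ) - b) / 2 ^ 80 : ℝ) : ℂ)) + (((((c : ℝ) - d) / 2 ^ 80 : ℝ) : ℂ)) * I) :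
    ‖((((((a / 2 ^ 40 : Nat) : ℝ) - ((b / 2 ^ 40 : Nat) : ℝ)) / 2 ^ 40 : ℝ) : ℂ) +
      (((((c / 2 ^ 40 : Nat) : ℝ) - ((d / 2 ^ 40 : Nat) : ℝ)) / 2 ^ 40 : ℝ) : ℂ) * I) - z‖ ≤
      2 / 2 ^ 40 := by
  have key : ∀ x y : Nat, |((((x / 2 ^ 40 : Nat) : ℝ) - ((y / 2 ^ 40 : Nat) : ℝ)) / 2 ^ 40) -
      (((x : ℝ) - y) / 2 ^ 80)| ≤ 1 / 2 ^ 40 := by
    intro x y
    have hx := Nat.div_add_mod x (2 ^ 40)
    have hy := Nat.div_add_mod y (2 ^ 40)
    have hx2 := Nat.mod_lt x (y := 2 ^ 40) (by norm_num)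
    have hy2 := Nat.mod_lt y (y := 2 ^ 40) (by norm_num)
    set q := x / 2 ^ 40 with hq
    set r := x % 2 ^ 40 with hr
    set s := y / 2 ^ 40 with hs
    set t := y % 2 ^ 40 with ht
    have ex : (x : ℝ) = 2 ^ 40 * q + r := by
      rw [← hx]
      push_cast
      ring
    have ey : (y : ℝ) = 2 ^ 40 * s + t := by
      rw [← hy]
      push_cast
      ring
    have hr2 : (r : ℝ) ≤ 2 ^ 40 := by
      exact_mod_cast hx2.le
    have ht2 : (t : ℝ) ≤ 2 ^ 40 := by
      exact_mod_cast hy2.le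
    have hr0 : (0 : ℝ) ≤ r := Nat.cast_nonneg r
    have ht0 : (0 : ℝ) ≤ t := Nat.cast_nonneg t
    rw [ex, ey]
    have e : (((q : ℝ) - s) / 2 ^ 40) - ((2 ^ 40 * (q : ℝ) + r - (2 ^ 40 * (s : ℝ) + t)) / 2 ^ 80) =
        ((t : ℝ) - r) / 2 ^ 80 := by
      ring
    rw [e, abs_le]
    constructor
    · rw [neg_le_iff_add_nonneg, ← sub_nonneg]
      have : ((t : ℝ) - r) / 2 ^ 80 + 1 / 2 ^ 40 - 0 = ((t : ℝ) + (2 ^ 40 - r)) / 2 ^ 80 := by
        ring
      rw [this]
      apply div_nonneg _ (by positivity)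
      linarith
    · rw [← sub_nonneg]
      have : (1 : ℝ) / 2 ^ 40 - ((t : ℝ) - r) / 2 ^ 80 = ((r : ℝ) + (2 ^ 40 - t)) / 2 ^ 80 := by
        ring
      rw [this]
      apply div_nonneg _ (by positivity)
      linarith
  have h1 := key a b
  have h2 := key c d
  rw [hz]
  set u : ℝ := ((((a / 2 ^ 40 : Nat) : ℝ) - ((b / 2 ^ 40 : Nat) : ℝ)) / 2 ^ 40) with hu
  set v : ℝ := ((((c / 2 ^ 40 : Nat) : ℝ) - ((d / 2 ^ 40 : Nat) : ℝ)) / 2 ^ 40) with hv
  set u' : ℝ := (((a : ℝ) - b) / 2 ^ 80) with hu'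
  set v' : ℝ := (((c : ℝ) - d) / 2 ^ 80) with hv'
  have e : ((u : ℂ) + (v : ℂ) * I) - ((u' : ℂ) + (v' : ℂ) * I) =
      ((u - u' : ℝ) : ℂ) + ((v - v' : ℝ) : ℂ) * I := by
    push_cast
    ring
  rw [e]
  have h3 := norm_add_le (((u - u' : ℝ) : ℂ)) (((v - v' : ℝ) : ℂ) * I)
  rw [norm_mul, norm_I, mul_one, norm_real, norm_real, Real.norm_eq_abs, Real.norm_eq_abs] at h3
  have h4 : (2 : ℝ) / 2 ^ 40 = 1 / 2 ^ 40 + 1 / 2 ^ 40 := by ring
  rw [h4]
  linarith

private theorem blk_sh_err {P : Nat} (hP : Clean (2 ^ 128) P) (j : Nat) :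
    ‖bz (sh P) j - bz P j / 2 ^ 40‖ ≤ 2 / 2 ^ 40 := by
  have h := blk_round (a := fd P (8 * j)) (b := fd P (8 * j + 2)) (c := fd P (8 * j + 1))
    (d := fd P (8 * j + 3)) (z := bz P j / 2 ^ 40) (by
      unfold bz
      push_cast
      ring)
  have e : bz (sh P) j =
      ((((((fd P (8 * j) / 2 ^ 40 : Nat) : ℝ) - ((fd P (8 * j + 2) / 2 ^ 40 : Nat) : ℝ)) / 2 ^ 40 : ℝ) : ℂ) +
      (((((fd P (8 * j + 1) / 2 ^ 40 : Nat) : ℝ) - ((fd P (8 * j + 3) / 2 ^ 40 : Nat) : ℝ)) / 2 ^ 40 : ℝ) : ℂ) * I) := by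
    unfold bz
    rw [blk_fd_sh hP, blk_fd_sh hP, blk_fd_sh hP, blk_fd_sh hP]
  rw [e]
  exact h

private theorem blk_bz_fold {X c : Nat} (hX : Clean (2 ^ 62) X) (hc : One (2 ^ 62) c) (j : Nat) :
    bz (fold (Nat.mul X c)) j / 2 ^ 40 = bz X j * bz c 0 := by
  have h := bz_cyc X c j
  have h0 := fd_fold_mul hX hc j 0 (by norm_num)
  have h1 := fd_fold_mul hX hc j 1 (by norm_num)
  have h2 := fd_fold_mul hX hc j 2 (by norm_num)
  have h3 := fd_fold_mul hX hc j 3 (by norm_num)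
  rw [Nat.add_zero] at h0
  have e : bz X j * bz c 0 = ((((cyc X c j 0 : ℝ) - cyc X c j 2 : ℝ) : ℂ) +
      (((cyc X c j 1 : ℝ) - cyc X c j 3 : ℝ) : ℂ) * I) / 2 ^ 80 := by
    rw [h]
    field_simp
  rw [e]
  unfold bz
  rw [h0, h1, h2, h3]
  push_cast
  ring

/-- all blocks times `c` -/
theorem mulX_spec {X c : Nat} (hX : Clean (2 ^ 62) X) (hc : One (2 ^ 62) c) :
    Clean (2 ^ 87) (mulX X c) ∧ ∀ j, ‖bz (mulX X c) j - bz X j * bz c 0‖ ≤ 2 / 2 ^ 40 := by
  have h1 := clean_fold_mul hX hc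
  have h2 : Clean (2 ^ 87) (sh (fold (Nat.mul X c))) :=
    blk_clean_sh (by norm_num) (clean_mono h1 (by norm_num))
  have h3 := clean_nrm (by norm_num) h2
  refine ⟨h3.1, fun j => ?_⟩
  have h4 : bz (mulX X c) j = bz (sh (fold (Nat.mul X c))) j := h3.2 j
  rw [h4, ← blk_bz_fold hX hc]
  exact blk_sh_err (clean_mono h1 (by norm_num)) j

/-- the blocks of a product of two models -/
def core (X Y : Nat) : Nat :=
  nrm (sh (fold (Nat.add (Nat.mul X (Nat.land Y m512))
    (Nat.mul (Nat.sub Y (Nat.land Y m512)) (Nat.land X m512)))))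

private theorem blk_fold_add {A B : Nat} (hA : ∀ i, fd A i < 2 ^ 126) (hB : ∀ i, fd B i < 2 ^ 126)
    (i : Nat) : fd (fold (Nat.add A B)) i = fd (fold A) i + fd (fold B) i := by
  have hs : ∀ i, fd (Nat.add A B) i = fd A i + fd B i := fun i =>
    fd_add (X := A) (Y := B) (fun i => by
      have h1 := hA i
      have h2 := hB i
      omega) i
  rw [blk_fd_fold (fun i => by
      rw [hs]
      have h1 := hA i
      have h2 := hB i
      omega),
    blk_fd_fold (fun i => lt_trans (hA i) (by norm_num)),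
    blk_fd_fold (fun i => lt_trans (hB i) (by norm_num)), hs, hs]
  split_ifs <;> omega

theorem core_spec {X Y : Nat} (hX : Clean (2 ^ 62) X) (hY : Clean (2 ^ 62) Y) :
    Clean (2 ^ 88) (core X Y) ∧ ‖bz (core X Y) 0 - bz X 0 * bz Y 0‖ ≤ 2 / 2 ^ 40 ∧
      ∀ j, 1 ≤ j → ‖bz (core X Y) j - (bz X j * bz Y 0 + bz Y j * bz X 0)‖ ≤ 2 / 2 ^ 40 := by
  have hcX := clean_head hX
  have hcY := clean_head hY
  have htY := clean_tail hY
  have hA : ∀ i, fd (Nat.mul X (Nat.land Y m512)) i < 2 ^ 126 := fun i => by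
    rw [blk_fd_mul hX hcY]
    have h1 := blk_conv_lt hX hcY i
    norm_num at h1 ⊢
    omega
  have hB : ∀ i, fd (Nat.mul (Nat.sub Y (Nat.land Y m512)) (Nat.land X m512)) i < 2 ^ 126 :=
    fun i => by
      rw [blk_fd_mul htY hcX]
      have h1 := blk_conv_lt htY hcX i
      norm_num at h1 ⊢
      omega
  have hf := blk_fold_add hA hB
  have hcA := clean_fold_mul hX hcY
  have hcB := clean_fold_mul htY hcX
  set P := fold (Nat.add (Nat.mul X (Nat.land Y m512))
    (Nat.mul (Nat.sub Y (Nat.land Y m512)) (Nat.land X m512))) with hP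
  have hPc : Clean (2 ^ 127) P := by
    intro i
    rw [hf]
    have h1 := hcA i
    have h2 := hcB i
    refine ⟨by omega, fun h => ?_⟩
    rw [h1.2 h, h2.2 h]
  have hPb : ∀ j, bz P j / 2 ^ 40 = bz X j * bz Y 0 + (if j = 0 then 0 else bz Y j) * bz X 0 := by
    intro j
    have e : bz P j = bz (fold (Nat.mul X (Nat.land Y m512))) j +
        bz (fold (Nat.mul (Nat.sub Y (Nat.land Y m512)) (Nat.land X m512))) j := by
      unfold bz
      rw [hf, hf, hf, hf]
      push_cast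
      ring
    rw [e, add_div, blk_bz_fold hX hcY, blk_bz_fold htY hcX, bz_head, bz_head, bz_tail hY]
  have h2 : Clean (2 ^ 88) (sh P) := blk_clean_sh (by norm_num) (clean_mono hPc (by norm_num))
  have h3 := clean_nrm (by norm_num) h2
  have h4 : ∀ j, bz (core X Y) j = bz (sh P) j := h3.2
  have h5 := blk_sh_err (clean_mono hPc (by norm_num : 2 ^ 127 ≤ 2 ^ 128))
  refine ⟨h3.1, ?_, fun j hj => ?_⟩
  · have h6 := h5 0
    rw [hPb 0, if_pos rfl, zero_mul, add_zero] at h6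
    rw [h4]
    exact h6
  · have h6 := h5 j
    rw [hPb j, if_neg (by omega)] at h6
    rw [h4]
    exact h6

/-- product of two numbers -/
theorem fd_mz {x y : Nat} (hx : One (2 ^ 62) x) (hy : One (2 ^ 62) y) (m : Nat) (hm : m < 4) :
    fd (mz x y) m = cyc x y 0 m / 2 ^ 40 := by
  have hxc := clean_of_one hx
  have hlt : Nat.mul x y < 2 ^ 1024 := by
    have h1 := lt_of_one hx
    have h2 := lt_of_one hy
    have h3 : x * y < 2 ^ 512 * 2 ^ 512 := Nat.mul_lt_mul'' h1 h2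
    have h4 : (2 : Nat) ^ 512 * 2 ^ 512 = 2 ^ 1024 := by
      rw [← pow_add]
    rw [h4] at h3
    exact h3
  have hb : ∀ i, fd (Nat.mul x y) i < 2 ^ 127 - 1 := fun i => by
    rw [blk_fd_mul hxc hy]
    have h1 := blk_conv_lt hxc hy i
    norm_num at h1 ⊢
    omega
  have h1 := fd_mod_m512 hlt hb m
  rw [if_pos hm, blk_fd_mul hxc hy, blk_fd_mul hxc hy] at h1
  have h2 := blk_conv_cyc (c := y) hxc 0 m hm
  rw [Nat.mul_zero, Nat.zero_add] at h2
  rw [h2] at h1
  have h3 := fd_shr_mask (X := Nat.mod (Nat.mul x y) m512) (M := mZ) (k := 40) (i := m)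
    (by norm_num) (by rw [fd_mZ, if_pos hm])
  rw [h1] at h3
  exact h3

theorem mz_spec {x y : Nat} (hx : One (2 ^ 62) x) (hy : One (2 ^ 62) y) :
    One (2 ^ 86) (mz x y) ∧ ‖bz (mz x y) 0 - bz x 0 * bz y 0‖ ≤ 2 / 2 ^ 40 := by
  have hxc := clean_of_one hx
  constructor
  · intro i
    by_cases hi : i < 4
    · rw [fd_mz hx hy i hi]
      have h1 := blk_cyc_le hxc hy 0 i
      refine ⟨?_, fun h => by omega⟩
      rw [Nat.div_lt_iff_lt_mul (by positivity)]
      norm_num at h1 ⊢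
      omega
    · have h : fd (mz x y) i = Nat.land (fd (Nat.shiftRight (Nat.mod (Nat.mul x y) m512) 40) i)
          (fd mZ i) := fd_land _ _ i
      rw [h, fd_mZ, if_neg hi, land_zero_right]
      exact ⟨by norm_num, fun _ => rfl⟩
  · have h0 := fd_mz hx hy 0 (by norm_num)
    have h1 := fd_mz hx hy 1 (by norm_num)
    have h2 := fd_mz hx hy 2 (by norm_num)
    have h3 := fd_mz hx hy 3 (by norm_num)
    have h := blk_round (a := cyc x y 0 0) (b := cyc x y 0 2) (c := cyc x y 0 1)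
      (d := cyc x y 0 3) (z := bz x 0 * bz y 0) (by
        have h := bz_cyc x y 0
        have e : bz x 0 * bz y 0 = ((((cyc x y 0 0 : ℝ) - cyc x y 0 2 : ℝ) : ℂ) +
            (((cyc x y 0 1 : ℝ) - cyc x y 0 3 : ℝ) : ℂ) * I) / 2 ^ 80 := by
          rw [h]
          field_simp
        rw [e]
        push_cast
        ring)
    have e : bz (mz x y) 0 =
        ((((((cyc x y 0 0 / 2 ^ 40 : Nat) : ℝ) - ((cyc x y 0 2 / 2 ^ 40 : Nat) : ℝ)) / 2 ^ 40 : ℝ) : ℂ) +
        (((((cyc x y 0 1 / 2 ^ 40 : Nat) : ℝ) - ((cyc x y 0 3 / 2 ^ 40 : Nat) : ℝ)) / 2 ^ 40 : ℝ) : ℂ) * I) := by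
      rw [← h0, ← h1, ← h2, ← h3]
      rfl
    rw [e]
    exact h

/-! ### bounds -/

theorem mg_eq {n x : Nat} (hn : n ≤ 2 ^ 125) (h : One n x) :
    mg x = fd x 0 + fd x 1 + fd x 2 + fd x 3 :=
  mod_m128 (lt_of_one h) (fun i => lt_of_lt_of_le (h i).1 hn)

theorem norm_le_mg {n x : Nat} (hn : n ≤ 2 ^ 125) (h : One n x) :
    ‖bz x 0‖ ≤ (mg x : ℝ) / 2 ^ 40 := by
  rw [mg_eq hn h]
  have e : bz x 0 = ((((fd x 0 : ℝ) - fd x 2) / 2 ^ 40 : ℝ) : ℂ) +
    ((((fd x 1 : ℝ) - fd x 3) / 2 ^ 40 : ℝ) : ℂ) * I := rfl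
  rw [e]
  have h3 := norm_add_le (((((fd x 0 : ℝ) - fd x 2) / 2 ^ 40 : ℝ) : ℂ))
    (((((fd x 1 : ℝ) - fd x 3) / 2 ^ 40 : ℝ) : ℂ) * I)
  rw [norm_mul, norm_I, mul_one, norm_real, norm_real, Real.norm_eq_abs, Real.norm_eq_abs] at h3
  refine le_trans h3 ?_
  have key : ∀ a b : Nat, |((a : ℝ) - b) / 2 ^ 40| ≤ ((a : ℝ) + b) / 2 ^ 40 := by
    intro a b
    rw [abs_div, abs_of_pos (by positivity : (0 : ℝ) < 2 ^ 40)]
    apply div_le_div_of_nonneg_right _ (by positivity)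
    have ha : (0 : ℝ) ≤ a := Nat.cast_nonneg a
    have hb : (0 : ℝ) ≤ b := Nat.cast_nonneg b
    rw [abs_le]
    constructor <;> linarith
  have k1 := key (fd x 0) (fd x 2)
  have k2 := key (fd x 1) (fd x 3)
  push_cast
  have e2 : ((fd x 0 : ℝ) + fd x 1 + fd x 2 + fd x 3) / 2 ^ 40 =
      ((fd x 0 : ℝ) + fd x 2) / 2 ^ 40 + ((fd x 1 : ℝ) + fd x 3) / 2 ^ 40 := by ring
  rw [e2]
  linarith

theorem mg_mz {x y : Nat} (hx : One (2 ^ 62) x) (hy : One (2 ^ 62) y) :
    mg (mz x y) * 2 ^ 40 ≤ mg x * mg y := by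
  rw [mg_eq (by norm_num) (mz_spec hx hy).1, mg_eq (by norm_num) hx, mg_eq (by norm_num) hy,
    fd_mz hx hy 0 (by norm_num), fd_mz hx hy 1 (by norm_num), fd_mz hx hy 2 (by norm_num),
    fd_mz hx hy 3 (by norm_num)]
  have e : (fd x 0 + fd x 1 + fd x 2 + fd x 3) * (fd y 0 + fd y 1 + fd y 2 + fd y 3) =
      cyc x y 0 0 + cyc x y 0 1 + cyc x y 0 2 + cyc x y 0 3 := by
    have h0 : cyc x y 0 0 = fd x 0 * fd y 0 + fd x 1 * fd y 3 + fd x 2 * fd y 2 + fd x 3 * fd y 1 :=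
      rfl
    have h1 : cyc x y 0 1 = fd x 0 * fd y 1 + fd x 1 * fd y 0 + fd x 2 * fd y 3 + fd x 3 * fd y 2 :=
      rfl
    have h2 : cyc x y 0 2 = fd x 0 * fd y 2 + fd x 1 * fd y 1 + fd x 2 * fd y 0 + fd x 3 * fd y 3 :=
      rfl
    have h3 : cyc x y 0 3 = fd x 0 * fd y 3 + fd x 1 * fd y 2 + fd x 2 * fd y 1 + fd x 3 * fd y 0 :=
      rfl
    rw [h0, h1, h2, h3]
    ring
  rw [e]
  have k0 := Nat.div_mul_le_self (cyc x y 0 0) (2 ^ 40)
  have k1 := Nat.div_mul_le_self (cyc x y 0 1) (2 ^ 40)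
  have k2 := Nat.div_mul_le_self (cyc x y 0 2) (2 ^ 40)
  have k3 := Nat.div_mul_le_self (cyc x y 0 3) (2 ^ 40)
  rw [Nat.add_mul, Nat.add_mul, Nat.add_mul]
  exact Nat.add_le_add (Nat.add_le_add (Nat.add_le_add k0 k1) k2) k3

private theorem blk_fd_f0m_land (Y i : Nat) :
    fd (Nat.land Y f0m) i = if i < 64 ∧ i % 8 < 1 then fd Y i else 0 := by
  rw [fd_land, fd_f0m]
  split_ifs
  · exact blk_land_full (fd_lt Y i)
  · exact land_zero_right _

private theorem blk_fd_U {X a b : Nat} (hX : Clean (2 ^ 90) X) (i : Nat) :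
    fd (Nat.add (Nat.land (Nat.shiftRight X (128 * a)) f0m)
      (Nat.land (Nat.shiftRight X (128 * b)) f0m)) i =
      if i < 64 ∧ i % 8 < 1 then fd X (i + a) + fd X (i + b) else 0 := by
  have h := fd_add (X := Nat.land (Nat.shiftRight X (128 * a)) f0m)
    (Y := Nat.land (Nat.shiftRight X (128 * b)) f0m) (fun i => by
      rw [blk_fd_f0m_land, blk_fd_f0m_land, fd_shr, fd_shr]
      have h1 := (hX (i + a)).1
      have h2 := (hX (i + b)).1
      split_ifs <;> omega) i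
  have h2 : fd (Nat.add (Nat.land (Nat.shiftRight X (128 * a)) f0m)
      (Nat.land (Nat.shiftRight X (128 * b)) f0m)) i =
      fd (Nat.land (Nat.shiftRight X (128 * a)) f0m) i +
      fd (Nat.land (Nat.shiftRight X (128 * b)) f0m) i := h
  rw [h2, blk_fd_f0m_land, blk_fd_f0m_land, fd_shr, fd_shr]
  split_ifs <;> rfl

private theorem blk_land_bit {a b : Nat} (ha : a < 2 ^ 100) (hb : b < 2 ^ 100) :
    Nat.land (a + 2 ^ 100 - b) (2 ^ 100) = if b ≤ a then 2 ^ 100 else 0 := by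
  have e : Nat.land (a + 2 ^ 100 - b) (2 ^ 100) = (a + 2 ^ 100 - b) &&& 2 ^ 100 := rfl
  rw [e, Nat.and_two_pow]
  have h2 : (a + 2 ^ 100 - b).testBit 100 = decide (b ≤ a) := by
    rw [Nat.testBit_eq_decide_div_mod_eq]
    by_cases h : b ≤ a
    · have h3 : (a + 2 ^ 100 - b) / 2 ^ 100 = 1 := by
        apply Nat.div_eq_of_lt_le <;> omega
      rw [h3]
      simp [h]
    · have h3 : (a + 2 ^ 100 - b) / 2 ^ 100 = 0 := by
        apply Nat.div_eq_of_lt
        omega
      rw [h3]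
      simp [h]
  rw [h2]
  by_cases h : b ≤ a
  · simp [h]
  · simp [h]

/-- truncated difference of two numbers whose fields are at the places `8 j` -/
private theorem blk_diff {U V : Nat} (hU : ∀ i, fd U i < 2 ^ 100) (hV : ∀ i, fd V i < 2 ^ 100)
    (hU0 : ∀ i, ¬ (i < 64 ∧ i % 8 < 1) → fd U i = 0)
    (hV0 : ∀ i, ¬ (i < 64 ∧ i % 8 < 1) → fd V i = 0) (i : Nat) :
    fd (Nat.land (Nat.sub (Nat.add U g0) V)
      (Nat.sub (Nat.land (Nat.sub (Nat.add U g0) V) g0)
        (Nat.shiftRight (Nat.land (Nat.sub (Nat.add U g0) V) g0) 100))) i = fd U i - fd V i := by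
  have hA : ∀ i, fd (Nat.add U g0) i = fd U i + if i < 64 ∧ i % 8 < 1 then 2 ^ 100 else 0 := by
    intro i
    have h1 := fd_add (X := U) (Y := g0) (fun i => by
      rw [fd_g0]
      have := hU i
      split_ifs <;> omega) i
    rw [fd_g0] at h1
    exact h1
  have hT : ∀ i, fd (Nat.sub (Nat.add U g0) V) i =
      if i < 64 ∧ i % 8 < 1 then fd U i + 2 ^ 100 - fd V i else 0 := by
    intro i
    have h1 := fd_sub (X := Nat.add U g0) (Y := V) (fun i => by
      rw [hA]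
      by_cases hi : i < 64 ∧ i % 8 < 1
      · rw [if_pos hi]
        have := hV i
        omega
      · rw [hV0 i hi]
        exact Nat.zero_le _) i
    have h2 : fd (Nat.sub (Nat.add U g0) V) i = fd (Nat.add U g0) i - fd V i := h1
    rw [h2, hA]
    by_cases hi : i < 64 ∧ i % 8 < 1
    · rw [if_pos hi, if_pos hi]
    · rw [if_neg hi, if_neg hi, hU0 i hi, hV0 i hi]
  have hK : ∀ i, fd (Nat.land (Nat.sub (Nat.add U g0) V) g0) i =
      if (i < 64 ∧ i % 8 < 1) ∧ fd V i ≤ fd U i then 2 ^ 100 else 0 := by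
    intro i
    rw [fd_land, fd_g0, hT]
    by_cases hi : i < 64 ∧ i % 8 < 1
    · rw [if_pos hi, if_pos hi, blk_land_bit (hU i) (hV i)]
      by_cases h2 : fd V i ≤ fd U i
      · rw [if_pos h2, if_pos ⟨hi, h2⟩]
      · rw [if_neg h2, if_neg (fun h3 => h2 h3.2)]
    · rw [if_neg hi, if_neg hi, if_neg (fun h3 => hi h3.1)]
      exact land_zero_right _
  have hR : ∀ i, fd (Nat.shiftRight (Nat.land (Nat.sub (Nat.add U g0) V) g0) 100) i =
      if (i < 64 ∧ i % 8 < 1) ∧ fd V i ≤ fd U i then 1 else 0 := by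
    intro i
    rw [fd_shr_gen (by norm_num), hK, hK]
    have e : ((if ((i + 1) < 64 ∧ (i + 1) % 8 < 1) ∧ fd V (i + 1) ≤ fd U (i + 1)
        then 2 ^ 100 else 0) % 2 ^ 100 : Nat) = 0 := by
      split_ifs <;> norm_num
    rw [e, Nat.zero_mul, Nat.add_zero]
    split_ifs <;> norm_num
  have hM : fd (Nat.sub (Nat.land (Nat.sub (Nat.add U g0) V) g0)
      (Nat.shiftRight (Nat.land (Nat.sub (Nat.add U g0) V) g0) 100)) i =
      if (i < 64 ∧ i % 8 < 1) ∧ fd V i ≤ fd U i then 2 ^ 100 - 1 else 0 := by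
    have h1 := fd_sub (X := Nat.land (Nat.sub (Nat.add U g0) V) g0)
      (Y := Nat.shiftRight (Nat.land (Nat.sub (Nat.add U g0) V) g0) 100) (fun i => by
        rw [hK, hR]
        split_ifs <;> norm_num) i
    refine h1.trans ?_
    rw [hK, hR]
    split_ifs <;> norm_num
  rw [fd_land, hM, hT]
  by_cases hi : i < 64 ∧ i % 8 < 1
  · rw [if_pos hi]
    by_cases h2 : fd V i ≤ fd U i
    · rw [if_pos ⟨hi, h2⟩, land_mask]
      have h3 : fd U i + 2 ^ 100 - fd V i = (fd U i - fd V i) + 2 ^ 100 := by omega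
      rw [h3, Nat.add_mod_right]
      apply Nat.mod_eq_of_lt
      have := hU i
      omega
    · have h3 : fd U i - fd V i = 0 := Nat.sub_eq_zero_of_le (by omega)
      rw [if_neg (fun h3 => h2 h3.2), h3]
      exact land_zero_right _
  · rw [if_neg hi, if_neg (fun h3 => hi h3.1), hU0 i hi, Nat.zero_sub]
    exact land_zero_right _

private theorem blk_dmag_eq {X : Nat} (hX : Clean (2 ^ 90) X) :
    dmag X = ∑ j ∈ Finset.range 8, (fd X (8 * j + 1) + fd X (8 * j + 3) +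
        (fd X (8 * j) + fd X (8 * j + 2) - (fd X (8 * j + 1) + fd X (8 * j + 3)))) +
      ((∑ j ∈ Finset.range 8, (fd X (8 * j) + fd X (8 * j + 2) -
        (fd X (8 * j) + fd X (8 * j + 2) - (fd X (8 * j + 1) + fd X (8 * j + 3))))) * 425 / 2 ^ 10 + 1) := by
  have hU : ∀ i, fd (Nat.add (Nat.land X f0m) (Nat.land (Nat.shiftRight X 256) f0m)) i =
      if i < 64 ∧ i % 8 < 1 then fd X i + fd X (i + 2) else 0 := fun i =>
    blk_fd_U (a := 0) (b := 2) hX i
  have hV : ∀ i, fd (Nat.add (Nat.land (Nat.shiftRight X 128) f0m)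
      (Nat.land (Nat.shiftRight X 384) f0m)) i =
      if i < 64 ∧ i % 8 < 1 then fd X (i + 1) + fd X (i + 3) else 0 := fun i =>
    blk_fd_U (a := 1) (b := 3) hX i
  have hb : ∀ i, fd X i < 2 ^ 90 := fun i => (hX i).1
  have hU1 : ∀ i, fd (Nat.add (Nat.land X f0m) (Nat.land (Nat.shiftRight X 256) f0m)) i < 2 ^ 91 :=
    fun i => by
      rw [hU]
      have h1 := hb i
      have h2 := hb (i + 2)
      split_ifs <;> omega
  have hV1 : ∀ i, fd (Nat.add (Nat.land (Nat.shiftRight X 128) f0m)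
      (Nat.land (Nat.shiftRight X 384) f0m)) i < 2 ^ 91 := fun i => by
    rw [hV]
    have h1 := hb (i + 1)
    have h2 := hb (i + 3)
    split_ifs <;> omega
  set U := Nat.add (Nat.land X f0m) (Nat.land (Nat.shiftRight X 256) f0m) with eU
  set V := Nat.add (Nat.land (Nat.shiftRight X 128) f0m)
      (Nat.land (Nat.shiftRight X 384) f0m) with eV
  have hD := blk_diff (U := U) (V := V) (fun i => lt_trans (hU1 i) (by norm_num))
    (fun i => lt_trans (hV1 i) (by norm_num)) (fun i h => by rw [hU, if_neg h])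
    (fun i h => by rw [hV, if_neg h])
  set a := Nat.land (Nat.sub (Nat.add U g0) V)
      (Nat.sub (Nat.land (Nat.sub (Nat.add U g0) V) g0)
        (Nat.shiftRight (Nat.land (Nat.sub (Nat.add U g0) V) g0) 100)) with ea
  have hS : ∀ i, fd (Nat.add V a) i = fd V i + (fd U i - fd V i) := by
    intro i
    have h := fd_add (X := V) (Y := a) (fun i => by
      rw [hD]
      have h1 := hU1 i
      have h2 := hV1 i
      omega) i
    have h2 : fd (Nat.add V a) i = fd V i + fd a i := h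
    rw [h2, hD]
  have hW : ∀ i, fd (Nat.sub U a) i = fd U i - (fd U i - fd V i) := by
    intro i
    have h := fd_sub (X := U) (Y := a) (fun i => by
      rw [hD]
      omega) i
    have h2 : fd (Nat.sub U a) i = fd U i - fd a i := h
    rw [h2, hD]
  have hS2 := mod_m1024 (P := Nat.add V a) (fun i hi => by
    rw [hS, hU, hV, if_neg (by omega), if_neg (by omega)])
  have hW2 := mod_m1024 (P := Nat.sub U a) (fun i hi => by
    rw [hW, hU, hV, if_neg (by omega), if_neg (by omega)])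
  have e : dmag X = Nat.mod (Nat.add V a) m1024 +
      ((Nat.mod (Nat.sub U a) m1024 * 425) >>> 10 + 1) := rfl
  have s1 : ∑ j ∈ Finset.range 8, fd (Nat.add V a) (8 * j) =
      ∑ j ∈ Finset.range 8, (fd X (8 * j + 1) + fd X (8 * j + 3) +
        (fd X (8 * j) + fd X (8 * j + 2) - (fd X (8 * j + 1) + fd X (8 * j + 3)))) :=
    Finset.sum_congr rfl (fun j hj => by
      rw [Finset.mem_range] at hj
      rw [hS, hU, hV, if_pos (by omega), if_pos (by omega)])
  have s2 : ∑ j ∈ Finset.range 8, fd (Nat.sub U a) (8 * j) =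
      ∑ j ∈ Finset.range 8, (fd X (8 * j) + fd X (8 * j + 2) -
        (fd X (8 * j) + fd X (8 * j + 2) - (fd X (8 * j + 1) + fd X (8 * j + 3)))) :=
    Finset.sum_congr rfl (fun j hj => by
      rw [Finset.mem_range] at hj
      rw [hW, hU, hV, if_pos (by omega), if_pos (by omega)])
  rw [e, hS2, hW2, s1, s2, Nat.shiftRight_eq_div_pow]

/-- `hypot p q ≤ max + (425/1024) min` for each block -/
theorem dmag_spec {X : Nat} (hX : Clean (2 ^ 90) X) :
    (∑ j ∈ Finset.range 8, ‖bz X j‖) * 2 ^ 40 ≤ (dmag X : ℝ) := by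
  have key : ∀ j, ‖bz X j‖ * 2 ^ 40 ≤ ((fd X (8 * j + 1) + fd X (8 * j + 3) +
        (fd X (8 * j) + fd X (8 * j + 2) - (fd X (8 * j + 1) + fd X (8 * j + 3))) : Nat) : ℝ) +
      ((fd X (8 * j) + fd X (8 * j + 2) -
        (fd X (8 * j) + fd X (8 * j + 2) - (fd X (8 * j + 1) + fd X (8 * j + 3))) : Nat) : ℝ) *
        (425 / 1024) := by
    intro j
    generalize hM : fd X (8 * j + 1) + fd X (8 * j + 3) +
        (fd X (8 * j) + fd X (8 * j + 2) - (fd X (8 * j + 1) + fd X (8 * j + 3))) = M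
    generalize hm : fd X (8 * j) + fd X (8 * j + 2) -
        (fd X (8 * j) + fd X (8 * j + 2) - (fd X (8 * j + 1) + fd X (8 * j + 3))) = m
    have hmM : m ≤ M := by omega
    have hcase : (fd X (8 * j) + fd X (8 * j + 2) = M ∧ fd X (8 * j + 1) + fd X (8 * j + 3) = m) ∨
        (fd X (8 * j) + fd X (8 * j + 2) = m ∧ fd X (8 * j + 1) + fd X (8 * j + 3) = M) := by
      omega
    have hn : ‖bz X j‖ * 2 ^ 40 = Real.sqrt (((fd X (8 * j) : ℝ) - fd X (8 * j + 2)) ^ 2 +
        ((fd X (8 * j + 1) : ℝ) - fd X (8 * j + 3)) ^ 2) := by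
      have e : bz X j = ((((fd X (8 * j) : ℝ) - fd X (8 * j + 2) : ℝ) : ℂ) +
        (((fd X (8 * j + 1) : ℝ) - fd X (8 * j + 3) : ℝ) : ℂ) * I) / ((2 ^ 40 : ℝ) : ℂ) := by
        unfold bz
        push_cast
        ring
      rw [e, norm_div, norm_real, Real.norm_eq_abs, abs_of_pos (by positivity : (0 : ℝ) < 2 ^ 40),
        div_mul_cancel₀ _ (by positivity : (2 : ℝ) ^ 40 ≠ 0), norm_add_mul_I]
    rw [hn]
    have hm0 : (0 : ℝ) ≤ m := Nat.cast_nonneg m
    have hM0 : (m : ℝ) ≤ M := by exact_mod_cast hmM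
    have hsq : ∀ a b : Nat, ((a : ℝ) - b) ^ 2 ≤ ((a : ℝ) + b) ^ 2 := by
      intro a b
      have ha : (0 : ℝ) ≤ a := Nat.cast_nonneg a
      have hb : (0 : ℝ) ≤ b := Nat.cast_nonneg b
      nlinarith [mul_nonneg ha hb]
    have h1 := hsq (fd X (8 * j)) (fd X (8 * j + 2))
    have h2 := hsq (fd X (8 * j + 1)) (fd X (8 * j + 3))
    have h3 : ((fd X (8 * j) : ℝ) + fd X (8 * j + 2)) ^ 2 +
        ((fd X (8 * j + 1) : ℝ) + fd X (8 * j + 3)) ^ 2 = (M : ℝ) ^ 2 + (m : ℝ) ^ 2 := by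
      rcases hcase with ⟨ha, hb⟩ | ⟨ha, hb⟩
      · rw [← ha, ← hb]
        push_cast
        ring
      · rw [← ha, ← hb]
        push_cast
        ring
    rw [Real.sqrt_le_iff]
    constructor
    · positivity
    · have h4 : (M : ℝ) ^ 2 + (m : ℝ) ^ 2 ≤ ((M : ℝ) + (m : ℝ) * (425 / 1024)) ^ 2 := by
        nlinarith [mul_nonneg hm0 (sub_nonneg.2 hM0), mul_nonneg hm0 hm0]
      linarith
  rw [blk_dmag_eq hX, Finset.sum_mul]
  refine le_trans (Finset.sum_le_sum (fun j _ => key j)) ?_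
  rw [Finset.sum_add_distrib, ← Finset.sum_mul, ← Nat.cast_sum, ← Nat.cast_sum]
  have last : ∀ S s : Nat, (S : ℝ) + (s : ℝ) * (425 / 1024) ≤
      ((S + (s * 425 / 2 ^ 10 + 1) : Nat) : ℝ) := by
    intro S s
    have h1 := Nat.div_add_mod (s * 425) (2 ^ 10)
    have h2 := Nat.mod_lt (s * 425) (y := 2 ^ 10) (by norm_num)
    generalize s * 425 / 2 ^ 10 = q at *
    generalize s * 425 % 2 ^ 10 = r at *
    have h3 : (s : ℝ) * 425 = 1024 * q + r := by
      have h4 : ((2 ^ 10 * q + r : Nat) : ℝ) = ((s * 425 : Nat) : ℝ) := by rw [h1]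
      push_cast at h4
      norm_num at h4
      linarith
    have h5 : (r : ℝ) ≤ 1024 := by
      have h6 : r ≤ 1024 := by omega
      exact_mod_cast h6
    push_cast
    have h7 : (s : ℝ) * (425 / 1024) = (1024 * q + r) / 1024 := by
      rw [← h3]
      ring
    rw [h7]
    have h8 : (1024 * (q : ℝ) + r) / 1024 ≤ q + 1 := by
      rw [div_le_iff₀ (by norm_num)]
      linarith
    linarith
  exact last _ _

theorem reSum_spec {X : Nat} (hX : Clean (2 ^ 90) X) :
    reSum X = ∑ j ∈ Finset.range 8, (fd X (8 * j) + fd X (8 * j + 2)) := by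
  have hU : ∀ i, fd (Nat.add (Nat.land X f0m) (Nat.land (Nat.shiftRight X 256) f0m)) i =
      if i < 64 ∧ i % 8 < 1 then fd X i + fd X (i + 2) else 0 := fun i =>
    blk_fd_U (a := 0) (b := 2) hX i
  have h := mod_m1024 (P := Nat.add (Nat.land X f0m) (Nat.land (Nat.shiftRight X 256) f0m))
    (fun i hi => by rw [hU, if_neg (by omega)])
  refine h.trans ?_
  apply Finset.sum_congr rfl
  intro j hj
  rw [Finset.mem_range] at hj
  rw [hU, if_pos (by omega)]

/-! ### construction -/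

private theorem blk_fd_small {a : Nat} (ha : a < 2 ^ 128) (i : Nat) :
    fd a i = if i = 0 then a else 0 := by
  by_cases hi : i = 0
  · subst hi
    rw [if_pos rfl, fd_zero]
    exact Nat.mod_eq_of_lt ha
  · rw [if_neg hi]
    exact fd_of_lt (n := 1) (by rw [Nat.mul_one]; exact ha) (by omega)

private theorem blk_fd_shl_small {a : Nat} (ha : a < 2 ^ 128) (k i : Nat) :
    fd (Nat.shiftLeft a (128 * k)) i = if i = k then a else 0 := by
  rw [fd_shl]
  by_cases h : i < k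
  · rw [if_pos h, if_neg (by omega)]
  · rw [if_neg h, blk_fd_small ha]
    by_cases h2 : i = k
    · rw [if_pos (by omega), if_pos h2]
    · rw [if_neg (by omega), if_neg h2]

theorem pack_spec {n a b c d : Nat} (hn : n ≤ 2 ^ 128) (ha : a < n) (hb : b < n) (hc : c < n)
    (hd : d < n) : One n (pack a b c d) ∧ bz (pack a b c d) 0 = (Z.mk a b c d).val ∧
      fd (pack a b c d) 0 = a ∧ fd (pack a b c d) 2 = b ∧ fd (pack a b c d) 1 = c ∧
      fd (pack a b c d) 3 = d := by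
  have ha2 := lt_of_lt_of_le ha hn
  have hb2 := lt_of_lt_of_le hb hn
  have hc2 := lt_of_lt_of_le hc hn
  have hd2 := lt_of_lt_of_le hd hn
  have h1 : ∀ i, fd (Nat.add a (Nat.shiftLeft c 128)) i =
      (if i = 0 then a else 0) + (if i = 1 then c else 0) := by
    intro i
    have eC : ∀ i, fd (Nat.shiftLeft c 128) i = if i = 1 then c else 0 :=
      blk_fd_shl_small hc2 1
    have h := fd_add (X := a) (Y := Nat.shiftLeft c 128) (fun i => by
      rw [blk_fd_small ha2, eC]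
      split_ifs <;> omega) i
    have h2 : fd (Nat.add a (Nat.shiftLeft c 128)) i = fd a i + fd (Nat.shiftLeft c 128) i := h
    rw [h2, blk_fd_small ha2, eC]
  have h2 : ∀ i, fd (Nat.add (Nat.shiftLeft b 256) (Nat.shiftLeft d 384)) i =
      (if i = 2 then b else 0) + (if i = 3 then d else 0) := by
    intro i
    have eB : ∀ i, fd (Nat.shiftLeft b 256) i = if i = 2 then b else 0 :=
      blk_fd_shl_small hb2 2
    have eD : ∀ i, fd (Nat.shiftLeft d 384) i = if i = 3 then d else 0 :=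
      blk_fd_shl_small hd2 3
    have h := fd_add (X := Nat.shiftLeft b 256) (Y := Nat.shiftLeft d 384) (fun i => by
      rw [eB, eD]
      split_ifs <;> omega) i
    have h2 : fd (Nat.add (Nat.shiftLeft b 256) (Nat.shiftLeft d 384)) i =
      fd (Nat.shiftLeft b 256) i + fd (Nat.shiftLeft d 384) i := h
    rw [h2, eB, eD]
  have h3 : ∀ i, fd (pack a b c d) i = ((if i = 0 then a else 0) + (if i = 1 then c else 0)) +
      ((if i = 2 then b else 0) + (if i = 3 then d else 0)) := by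
    intro i
    have h := fd_add (X := Nat.add a (Nat.shiftLeft c 128))
      (Y := Nat.add (Nat.shiftLeft b 256) (Nat.shiftLeft d 384)) (fun i => by
      rw [h1, h2]
      split_ifs <;> omega) i
    have h4 : fd (pack a b c d) i = fd (Nat.add a (Nat.shiftLeft c 128)) i +
      fd (Nat.add (Nat.shiftLeft b 256) (Nat.shiftLeft d 384)) i := h
    rw [h4, h1, h2]
  have f0 : fd (pack a b c d) 0 = a := by
    rw [h3]
    simp
  have f1 : fd (pack a b c d) 1 = c := by
    rw [h3]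
    simp
  have f2 : fd (pack a b c d) 2 = b := by
    rw [h3]
    simp
  have f3 : fd (pack a b c d) 3 = d := by
    rw [h3]
    simp
  refine ⟨?_, ?_, f0, f2, f1, f3⟩
  · intro i
    rw [h3]
    constructor
    · split_ifs <;> omega
    · intro hi
      rw [if_neg (by omega), if_neg (by omega), if_neg (by omega), if_neg (by omega)]
  · have e : bz (pack a b c d) 0 =
        ((((fd (pack a b c d) 0 : ℝ) - fd (pack a b c d) 2) / 2 ^ 40 : ℝ) : ℂ) +
        ((((fd (pack a b c d) 1 : ℝ) - fd (pack a b c d) 3) / 2 ^ 40 : ℝ) : ℂ) * I := rfl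
    rw [e, f0, f1, f2, f3]
    unfold Z.val
    push_cast
    ring

/-- division of all fields by `2^k` -/
theorem shrk_spec {x k : Nat} (hk : k ≤ 60) (hx : One (2 ^ 62) x) (i : Nat) :
    fd (Nat.land (Nat.shiftRight x k)
      (Nat.mul rep4 (Nat.sub (Nat.pow 2 (Nat.sub 128 k)) 1))) i = fd x i / 2 ^ k := by
  have hc : 2 ^ (128 - k) - 1 < 2 ^ 128 := by
    have h1 : (2 : Nat) ^ (128 - k) ≤ 2 ^ 128 := Nat.pow_le_pow_right (by norm_num) (by omega)
    have h2 : 0 < (2 : Nat) ^ (128 - k) := by positivity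
    omega
  have hM : ∀ i, fd (Nat.mul rep4 (Nat.sub (Nat.pow 2 (Nat.sub 128 k)) 1)) i =
      if i < 4 then 2 ^ (128 - k) - 1 else 0 := fun i => fd_rep4_mul hc i
  by_cases hi : i < 4
  · exact fd_shr_mask (by omega) (by rw [hM, if_pos hi])
  · rw [fd_land, hM, if_neg hi, land_zero_right, (hx i).2 (by omega), Nat.zero_div]

/-- a real number `c` in the block `0` and `h` in the block `j + 1` -/
theorem var_spec {c h j : Nat} (hc : c < 2 ^ 62) (hh : h < 2 ^ 62) (hj : j < 7) :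
    Clean (2 ^ 62) (Nat.add c (Nat.shiftLeft h (Nat.mul 1024 (Nat.add j 1)))) ∧
      ∀ i, bz (Nat.add c (Nat.shiftLeft h (Nat.mul 1024 (Nat.add j 1)))) i =
        if i = 0 then (((c : ℝ) / 2 ^ 40 : ℝ) : ℂ) else
          if i = j + 1 then (((h : ℝ) / 2 ^ 40 : ℝ) : ℂ) else 0 := by
  have hc2 : c < 2 ^ 128 := lt_trans hc (by norm_num)
  have hh2 : h < 2 ^ 128 := lt_trans hh (by norm_num)
  have eH : ∀ i, fd (Nat.shiftLeft h (Nat.mul 1024 (Nat.add j 1))) i =
      if i = 8 * (j + 1) then h else 0 := by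
    have e : Nat.mul 1024 (Nat.add j 1) = 128 * (8 * (j + 1)) := by
      change 1024 * (j + 1) = 128 * (8 * (j + 1))
      ring
    rw [e]
    exact blk_fd_shl_small hh2 (8 * (j + 1))
  have hf : ∀ i, fd (Nat.add c (Nat.shiftLeft h (Nat.mul 1024 (Nat.add j 1)))) i =
      (if i = 0 then c else 0) + (if i = 8 * (j + 1) then h else 0) := by
    intro i
    have h1 := fd_add (X := c) (Y := Nat.shiftLeft h (Nat.mul 1024 (Nat.add j 1))) (fun i => by
      rw [blk_fd_small hc2, eH]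
      split_ifs <;> omega) i
    have h2 : fd (Nat.add c (Nat.shiftLeft h (Nat.mul 1024 (Nat.add j 1)))) i =
      fd c i + fd (Nat.shiftLeft h (Nat.mul 1024 (Nat.add j 1))) i := h1
    rw [h2, blk_fd_small hc2, eH]
  refine ⟨fun i => ?_, fun i => ?_⟩
  · rw [hf]
    constructor
    · split_ifs <;> omega
    · intro hi
      rw [if_neg (by omega), if_neg (by omega)]
  · have g0 : fd (Nat.add c (Nat.shiftLeft h (Nat.mul 1024 (Nat.add j 1)))) (8 * i) =
        if i = 0 then c else if i = j + 1 then h else 0 := by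
      rw [hf]
      split_ifs <;> omega
    have g1 : ∀ m, 1 ≤ m → m ≤ 3 →
        fd (Nat.add c (Nat.shiftLeft h (Nat.mul 1024 (Nat.add j 1)))) (8 * i + m) = 0 := by
      intro m h1 h2
      rw [hf]
      split_ifs <;> omega
    unfold bz
    rw [g0, g1 1 (by norm_num) (by norm_num), g1 2 (by norm_num) (by norm_num),
      g1 3 (by norm_num) (by norm_num)]
    by_cases h0 : i = 0
    · rw [if_pos h0, if_pos h0]
      simp
    · rw [if_neg h0, if_neg h0]
      by_cases h1 : i = j + 1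
      · rw [if_pos h1, if_pos h1]
        simp
      · rw [if_neg h1, if_neg h1]
        simp

end Pool.Agent.helper31.IB
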