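import Pool.Agent.helper31.IB.Field

/-!
# IB-2: blocks, exchange and cancellation

`bz X j` is the complex number in the block `j` of `X` (fields `8 j, ..., 8 j + 3`).
`Clean n X`: all fields are `< n`, the fields `4..7` of all blocks are `0`, at most eight blocks.
`One n x`: only the fields `0..3`, all `< n`.
The fields of the masks of `IB/Defs.lean` are found by `decide` for `i < 64` (`interval_cases`), they
are `0` for `64 ≤ i` by `fd_of_lt`.  Every function is computed field by field with `IB/Field.lean`.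
-/

namespace Pool.Agent.helper31.IB

open Complex
open Pool.Agent.helper31.IA (Z)

/-! ### masks -/

private theorem blkA_ge64 {X : Nat} (h : X < 2 ^ 8192) {i : Nat} (hi : 64 ≤ i) : fd X i = 0 :=
  fd_of_lt (n := 64) h hi

theorem fd_mB (i : Nat) : fd mB i = if i < 64 ∧ i % 8 < 4 then 2 ^ 128 - 1 else 0 := by
  by_cases hi : i < 64
  · have h : ∀ i < 64, fd mB i = if i < 64 ∧ i % 8 < 4 then 2 ^ 128 - 1 else 0 := by
      decide +kernel
    exact h i hi
  · rw [if_neg (by omega)]
    exact blkA_ge64 (by decide +kernel) (by omega)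

theorem fd_m01 (i : Nat) : fd m01 i = if i < 64 ∧ i % 8 < 2 then 2 ^ 128 - 1 else 0 := by
  by_cases hi : i < 64
  · have h : ∀ i < 64, fd m01 i = if i < 64 ∧ i % 8 < 2 then 2 ^ 128 - 1 else 0 := by
      decide +kernel
    exact h i hi
  · rw [if_neg (by omega)]
    exact blkA_ge64 (by decide +kernel) (by omega)

theorem fd_f0m (i : Nat) : fd f0m i = if i < 64 ∧ i % 8 < 1 then 2 ^ 128 - 1 else 0 := by
  by_cases hi : i < 64
  · have h : ∀ i < 64, fd f0m i = if i < 64 ∧ i % 8 < 1 then 2 ^ 128 - 1 else 0 := by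
      decide +kernel
    exact h i hi
  · rw [if_neg (by omega)]
    exact blkA_ge64 (by decide +kernel) (by omega)

theorem fd_mZ (i : Nat) : fd mZ i = if i < 4 then 2 ^ 88 - 1 else 0 := by
  by_cases hi : i < 64
  · have h : ∀ i < 64, fd mZ i = if i < 4 then 2 ^ 88 - 1 else 0 := by
      decide +kernel
    exact h i hi
  · rw [if_neg (by omega)]
    exact blkA_ge64 (by decide +kernel) (by omega)

theorem fd_mS (i : Nat) : fd mS i = if i < 64 ∧ i % 8 < 4 then 2 ^ 88 - 1 else 0 := by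
  by_cases hi : i < 64
  · have h : ∀ i < 64, fd mS i = if i < 64 ∧ i % 8 < 4 then 2 ^ 88 - 1 else 0 := by
      decide +kernel
    exact h i hi
  · rw [if_neg (by omega)]
    exact blkA_ge64 (by decide +kernel) (by omega)

theorem fd_gG (i : Nat) : fd gG i = if i < 64 ∧ i % 8 < 4 then 2 ^ 100 else 0 := by
  by_cases hi : i < 64
  · have h : ∀ i < 64, fd gG i = if i < 64 ∧ i % 8 < 4 then 2 ^ 100 else 0 := by
      decide +kernel
    exact h i hi
  · rw [if_neg (by omega)]
    exact blkA_ge64 (by decide +kernel) (by omega)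

theorem fd_g0 (i : Nat) : fd g0 i = if i < 64 ∧ i % 8 < 1 then 2 ^ 100 else 0 := by
  by_cases hi : i < 64
  · have h : ∀ i < 64, fd g0 i = if i < 64 ∧ i % 8 < 1 then 2 ^ 100 else 0 := by
      decide +kernel
    exact h i hi
  · rw [if_neg (by omega)]
    exact blkA_ge64 (by decide +kernel) (by omega)

theorem fd_m512 (i : Nat) : fd m512 i = if i < 4 then 2 ^ 128 - 1 else 0 := by
  by_cases hi : i < 64
  · have h : ∀ i < 64, fd m512 i = if i < 4 then 2 ^ 128 - 1 else 0 := by
      decide +kernel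
    exact h i hi
  · rw [if_neg (by omega)]
    exact blkA_ge64 (by decide +kernel) (by omega)

private theorem blkA_rep4 (i : Nat) : fd rep4 i = if i < 4 then 1 else 0 := by
  by_cases hi : i < 64
  · have h : ∀ i < 64, fd rep4 i = if i < 4 then 1 else 0 := by
      decide +kernel
    exact h i hi
  · rw [if_neg (by omega)]
    exact blkA_ge64 (by decide +kernel) (by omega)

theorem fd_rep4_mul {c : Nat} (hc : c < 2 ^ 128) (i : Nat) :
    fd (Nat.mul rep4 c) i = if i < 4 then c else 0 := by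
  have h := fd_mul_one (X := rep4) (c := c) (fun i => by
    rw [blkA_rep4]
    split_ifs
    · simpa using hc
    · simp) i
  have h2 : fd (Nat.mul rep4 c) i = fd rep4 i * c := h
  rw [h2, blkA_rep4]
  split_ifs <;> simp

/-- the complement of the low `62` bits of the good fields -/
theorem fd_hB (i : Nat) : fd hB i =
    if 64 ≤ i then 0 else if i % 8 < 4 then 2 ^ 128 - 2 ^ 62 else 2 ^ 128 - 1 := by
  by_cases hi : i < 64
  · have h : ∀ i < 64, fd hB i =
        if 64 ≤ i then 0 else if i % 8 < 4 then 2 ^ 128 - 2 ^ 62 else 2 ^ 128 - 1 := by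
      decide +kernel
    exact h i hi
  · rw [if_pos (by omega)]
    exact blkA_ge64 (by decide +kernel) (by omega)

/-! ### clean numbers -/

def Clean (n X : Nat) : Prop := ∀ i, fd X i < n ∧ (64 ≤ i ∨ 4 ≤ i % 8 → fd X i = 0)

def One (n x : Nat) : Prop := ∀ i, fd x i < n ∧ (4 ≤ i → fd x i = 0)

/-- the complex number in the block `j` -/
noncomputable def bz (X j : Nat) : ℂ :=
  ((((fd X (8 * j) : ℝ) - fd X (8 * j + 2)) / 2 ^ 40 : ℝ) : ℂ) +
    ((((fd X (8 * j + 1) : ℝ) - fd X (8 * j + 3)) / 2 ^ 40 : ℝ) : ℂ) * I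

private theorem blkA_bz_congr {X Y j k : Nat}
    (h : ∀ m < 4, fd X (8 * j + m) = fd Y (8 * k + m)) : bz X j = bz Y k := by
  have h0 := h 0 (by norm_num)
  have h1 := h 1 (by norm_num)
  have h2 := h 2 (by norm_num)
  have h3 := h 3 (by norm_num)
  simp only [Nat.add_zero] at h0
  unfold bz
  rw [h0, h1, h2, h3]

private theorem blkA_bz_zero {X j : Nat}
    (h : ∀ m < 4, fd X (8 * j + m) = 0) : bz X j = 0 := by
  have h0 := h 0 (by norm_num)
  have h1 := h 1 (by norm_num)
  have h2 := h 2 (by norm_num)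
  have h3 := h 3 (by norm_num)
  simp only [Nat.add_zero] at h0
  unfold bz
  rw [h0, h1, h2, h3]
  simp

private theorem blkA_land_full {a : Nat} (h : a < 2 ^ 128) : Nat.land a (2 ^ 128 - 1) = a := by
  rw [land_mask]
  exact Nat.mod_eq_of_lt h

private theorem blkA_land_high {a : Nat} (h : a < 2 ^ 128) :
    Nat.land a (2 ^ 128 - 2 ^ 62) = 0 ↔ a < 2 ^ 62 := by
  have e : ∀ j, (2 ^ 128 - 2 ^ 62 : Nat).testBit j = (decide (62 ≤ j) && decide (j < 128)) := by
    intro j
    have e1 : (2 ^ 128 - 2 ^ 62 : Nat) = (2 ^ 66 - 1) <<< 62 := by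
      rw [Nat.shiftLeft_eq]
      norm_num
    rw [e1, Nat.testBit_shiftLeft, Nat.testBit_two_pow_sub_one]
    by_cases h1 : 62 ≤ j
    · by_cases h2 : j < 128
      · have h3 : j - 62 < 66 := by omega
        simp [h1, h2, h3]
      · have h3 : ¬ j - 62 < 66 := by omega
        simp [h1, h2, h3]
    · simp [h1]
  change a &&& (2 ^ 128 - 2 ^ 62) = 0 ↔ a < 2 ^ 62
  constructor
  · intro h0
    apply Nat.lt_pow_two_of_testBit
    intro j hj
    by_cases h2 : j < 128
    · have h3 := congrArg (fun t => Nat.testBit t j) h0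
      simp only [Nat.testBit_and, e, Nat.zero_testBit] at h3
      simpa [hj, h2] using h3
    · exact Nat.testBit_lt_two_pow (lt_of_lt_of_le h (Nat.pow_le_pow_right (by norm_num) (by omega)))
  · intro h0
    apply Nat.eq_of_testBit_eq
    intro j
    rw [Nat.testBit_and, e, Nat.zero_testBit]
    by_cases h1 : 62 ≤ j
    · rw [Nat.testBit_lt_two_pow (lt_of_lt_of_le h0 (Nat.pow_le_pow_right (by norm_num) h1))]
      simp
    · simp [h1]

/-- `land (fd X i) (2^128 - 2^62) = 0` iff `fd X i < 2^62` -/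
theorem good_iff (X : Nat) : good X = true ↔ Clean (2 ^ 62) X := by
  have hz : ∀ i, fd 0 i = 0 := fd_zero_left
  have h1 : Nat.land X hB = 0 ↔ ∀ i, Nat.land (fd X i) (fd hB i) = 0 := by
    constructor
    · intro h i
      rw [← fd_land, h, hz]
    · intro h
      apply fd_ext
      intro i
      rw [fd_land, h, hz]
  have h2 : Nat.shiftRight X 8192 = 0 ↔ ∀ i, 64 ≤ i → fd X i = 0 := by
    have e : Nat.shiftRight X 8192 = X / 2 ^ 8192 := Nat.shiftRight_eq_div_pow X 8192
    rw [e]
    constructor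
    · intro h i hi
      have h3 : X < 2 ^ 8192 := by
        by_contra h4
        have h5 := Nat.div_pos (not_lt.1 h4) (Nat.pow_pos (n := 8192) (by norm_num : 0 < 2))
        omega
      exact blkA_ge64 h3 hi
    · intro h
      exact Nat.div_eq_of_lt (lt_of_fd (n := 64) h)
  have hg : good X = true ↔ Nat.land X hB = 0 ∧ Nat.shiftRight X 8192 = 0 := by
    unfold good
    rw [Bool.and_eq_true, Nat.beq_eq, Nat.beq_eq]
  rw [hg, h1, h2]
  constructor
  · rintro ⟨ha, hb⟩ i
    have hai := ha i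
    rw [fd_hB] at hai
    by_cases h64 : 64 ≤ i
    · rw [hb i h64]
      exact ⟨by norm_num, fun _ => rfl⟩
    · rw [if_neg h64] at hai
      by_cases h4 : i % 8 < 4
      · rw [if_pos h4, blkA_land_high (fd_lt X i)] at hai
        exact ⟨hai, fun h => by omega⟩
      · rw [if_neg h4, blkA_land_full (fd_lt X i)] at hai
        rw [hai]
        exact ⟨by norm_num, fun _ => rfl⟩
  · intro h
    refine ⟨fun i => ?_, fun i hi => (h i).2 (Or.inl hi)⟩
    rw [fd_hB]
    by_cases h64 : 64 ≤ i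
    · rw [if_pos h64]
      exact land_zero_right _
    · rw [if_neg h64]
      by_cases h4 : i % 8 < 4
      · rw [if_pos h4, blkA_land_high (fd_lt X i)]
        exact (h i).1
      · rw [if_neg h4, blkA_land_full (fd_lt X i)]
        exact (h i).2 (Or.inr (by omega))

theorem clean_mono {m n X : Nat} (h : Clean m X) (hmn : m ≤ n) : Clean n X :=
  fun i => ⟨lt_of_lt_of_le (h i).1 hmn, (h i).2⟩

theorem one_mono {m n X : Nat} (h : One m X) (hmn : m ≤ n) : One n X :=
  fun i => ⟨lt_of_lt_of_le (h i).1 hmn, (h i).2⟩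

theorem clean_of_one {n x : Nat} (h : One n x) : Clean n x :=
  fun i => ⟨(h i).1, fun hi => (h i).2 (by
    rcases hi with hi | hi
    · omega
    · exact le_trans hi (Nat.mod_le i 8))⟩

theorem lt_of_one {n x : Nat} (h : One n x) : x < 2 ^ 512 :=
  lt_of_fd (n := 4) (fun i hi => (h i).2 hi)

theorem bz_zero_of_one {n x : Nat} (h : One n x) {j : Nat} (hj : 1 ≤ j) : bz x j = 0 :=
  blkA_bz_zero (fun m _ => (h (8 * j + m)).2 (by omega))

private theorem blkA_fd_head (X i : Nat) :
    fd (Nat.land X m512) i = if i < 4 then fd X i else 0 := by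
  rw [fd_land, fd_m512]
  split_ifs
  · exact blkA_land_full (fd_lt X i)
  · exact land_zero_right _

theorem clean_head {n X : Nat} (h : Clean n X) : One n (Nat.land X m512) := by
  intro i
  rw [blkA_fd_head]
  have h0 : 0 < n := lt_of_le_of_lt (Nat.zero_le _) (h 0).1
  split_ifs with hi
  · exact ⟨(h i).1, fun h4 => by omega⟩
  · exact ⟨h0, fun _ => rfl⟩

theorem bz_head (X : Nat) : bz (Nat.land X m512) 0 = bz X 0 := by
  apply blkA_bz_congr
  intro m hm
  rw [blkA_fd_head, if_pos (by omega)]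

private theorem blkA_fd_tail (X i : Nat) :
    fd (Nat.sub X (Nat.land X m512)) i = if i < 4 then 0 else fd X i := by
  have h := fd_sub (X := X) (Y := Nat.land X m512) (fun i => by
    rw [blkA_fd_head]
    split_ifs
    · exact le_refl _
    · exact Nat.zero_le _) i
  have h2 : fd (Nat.sub X (Nat.land X m512)) i = fd X i - fd (Nat.land X m512) i := h
  rw [h2, blkA_fd_head]
  split_ifs
  · exact Nat.sub_self _
  · exact Nat.sub_zero _

theorem clean_tail {n X : Nat} (h : Clean n X) : Clean n (Nat.sub X (Nat.land X m512)) := by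
  intro i
  rw [blkA_fd_tail]
  have h0 : 0 < n := lt_of_le_of_lt (Nat.zero_le _) (h 0).1
  split_ifs with hi
  · exact ⟨h0, fun _ => rfl⟩
  · exact h i

theorem bz_tail {n X : Nat} (h : Clean n X) (j : Nat) :
    bz (Nat.sub X (Nat.land X m512)) j = if j = 0 then 0 else bz X j := by
  split_ifs with hj
  · subst hj
    apply blkA_bz_zero
    intro m hm
    rw [blkA_fd_tail, if_pos (by omega)]
  · apply blkA_bz_congr
    intro m hm
    rw [blkA_fd_tail, if_neg (by omega)]

private theorem blkA_fd_shr (X k i : Nat) :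
    fd (Nat.shiftRight X (1024 * k)) i = fd X (i + 8 * k) := by
  have e : 1024 * k = 128 * (8 * k) := by ring
  rw [e, fd_shr]

theorem clean_shr {n X : Nat} (h : Clean n X) (k : Nat) :
    Clean n (Nat.shiftRight X (1024 * k)) := by
  intro i
  rw [blkA_fd_shr]
  refine ⟨(h _).1, fun hi => (h _).2 ?_⟩
  rcases hi with hi | hi
  · left; omega
  · right; omega

theorem bz_shr (X k j : Nat) : bz (Nat.shiftRight X (1024 * k)) j = bz X (j + k) := by
  apply blkA_bz_congr
  intro m hm
  rw [blkA_fd_shr]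
  congr 1
  ring

theorem bz_zero_of_clean {n X : Nat} (h : Clean n X) {j : Nat} (hj : 8 ≤ j) : bz X j = 0 :=
  blkA_bz_zero (fun m _ => (h (8 * j + m)).2 (Or.inl (by omega)))

private theorem blkA_bz_add {X Y W j : Nat}
    (h : ∀ m < 4, fd W (8 * j + m) = fd X (8 * j + m) + fd Y (8 * j + m)) :
    bz W j = bz X j + bz Y j := by
  have h0 := h 0 (by norm_num)
  have h1 := h 1 (by norm_num)
  have h2 := h 2 (by norm_num)
  have h3 := h 3 (by norm_num)
  simp only [Nat.add_zero] at h0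
  unfold bz
  rw [h0, h1, h2, h3]
  push_cast
  ring

/-- `4 j + ...` fields of a sum -/
theorem clean_add {m n X Y : Nat} (hX : Clean m X) (hY : Clean n Y) (h : m + n ≤ 2 ^ 128) :
    Clean (m + n) (Nat.add X Y) ∧ ∀ j, bz (Nat.add X Y) j = bz X j + bz Y j := by
  have hf : ∀ i, fd (Nat.add X Y) i = fd X i + fd Y i := fun i =>
    fd_add (X := X) (Y := Y) (fun i => by
      have h1 := (hX i).1
      have h2 := (hY i).1
      omega) i
  refine ⟨fun i => ?_, fun j => blkA_bz_add (fun m _ => hf _)⟩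
  rw [hf]
  have h1 := (hX i).1
  have h2 := (hY i).1
  refine ⟨by omega, fun hi => ?_⟩
  rw [(hX i).2 hi, (hY i).2 hi]

theorem one_add {m n X Y : Nat} (hX : One m X) (hY : One n Y) (h : m + n ≤ 2 ^ 128) :
    One (m + n) (Nat.add X Y) ∧ bz (Nat.add X Y) 0 = bz X 0 + bz Y 0 := by
  have hf : ∀ i, fd (Nat.add X Y) i = fd X i + fd Y i := fun i =>
    fd_add (X := X) (Y := Y) (fun i => by
      have h1 := (hX i).1
      have h2 := (hY i).1
      omega) i
  refine ⟨fun i => ?_, blkA_bz_add (fun m _ => hf _)⟩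
  rw [hf]
  have h1 := (hX i).1
  have h2 := (hY i).1
  refine ⟨by omega, fun hi => ?_⟩
  rw [(hX i).2 hi, (hY i).2 hi]

/-! ### exchange and cancellation -/

private theorem blkA_fd_swapA (X i : Nat) :
    fd (Nat.land (Nat.shiftRight X 256) m01) i =
      if i < 64 ∧ i % 8 < 2 then fd X (i + 2) else 0 := by
  have e : fd (Nat.shiftRight X 256) i = fd X (i + 2) := fd_shr X 2 i
  rw [fd_land, fd_m01, e]
  split_ifs
  · exact blkA_land_full (fd_lt X _)
  · exact land_zero_right _

private theorem blkA_fd_swapB (X i : Nat) :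
    fd (Nat.shiftLeft (Nat.land X m01) 256) i =
      if 2 ≤ i ∧ i - 2 < 64 ∧ (i - 2) % 8 < 2 then fd X (i - 2) else 0 := by
  have e : fd (Nat.shiftLeft (Nat.land X m01) 256) i =
      if i < 2 then 0 else fd (Nat.land X m01) (i - 2) := fd_shl (Nat.land X m01) 2 i
  rw [e]
  by_cases hi : i < 2
  · rw [if_pos hi, if_neg (by omega)]
  · rw [if_neg hi, fd_land, fd_m01]
    by_cases h2 : i - 2 < 64 ∧ (i - 2) % 8 < 2
    · rw [if_pos h2, if_pos ⟨by omega, h2⟩]
      exact blkA_land_full (fd_lt X _)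
    · rw [if_neg h2, if_neg (fun h => h2 h.2)]
      exact land_zero_right _

private theorem blkA_fd_swap0 (X i : Nat) :
    fd (swap X) i = (if i < 64 ∧ i % 8 < 2 then fd X (i + 2) else 0) +
      (if 2 ≤ i ∧ i - 2 < 64 ∧ (i - 2) % 8 < 2 then fd X (i - 2) else 0) := by
  have h := fd_add (X := Nat.land (Nat.shiftRight X 256) m01)
    (Y := Nat.shiftLeft (Nat.land X m01) 256) (fun i => by
      rw [blkA_fd_swapA, blkA_fd_swapB]
      have h1 := fd_lt X (i + 2)
      have h2 := fd_lt X (i - 2)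
      split_ifs <;> omega) i
  have h2 : fd (swap X) i = fd (Nat.land (Nat.shiftRight X 256) m01) i +
    fd (Nat.shiftLeft (Nat.land X m01) 256) i := h
  rw [h2, blkA_fd_swapA, blkA_fd_swapB]

theorem fd_swap {n X : Nat} (hn : n ≤ 2 ^ 128) (h : Clean n X) (j m : Nat) (hm : m < 4) :
    fd (swap X) (8 * j + m) = fd X (8 * j + (m + 2) % 4) := by
  rw [blkA_fd_swap0]
  by_cases hj : j < 8
  · by_cases hm2 : m < 2
    · rw [if_pos (by omega), if_neg (by omega), Nat.add_zero]
      congr 1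
      omega
    · rw [if_neg (by omega), if_pos (by omega), Nat.zero_add]
      congr 1
      omega
  · rw [if_neg (by omega), if_neg (by omega), (h _).2 (Or.inl (by omega))]

private theorem blkA_fd_swap_bad (X i : Nat) (hi : 64 ≤ i ∧ i % 8 < 4 ∨ 4 ≤ i % 8) :
    fd (swap X) i = 0 := by
  rw [blkA_fd_swap0, if_neg (by omega), if_neg (by omega)]

private theorem blkA_bz_neg {X W j : Nat}
    (h : ∀ m < 4, fd W (8 * j + m) = fd X (8 * j + (m + 2) % 4)) : bz W j = -bz X j := by
  have h0 := h 0 (by norm_num)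
  have h1 := h 1 (by norm_num)
  have h2 := h 2 (by norm_num)
  have h3 := h 3 (by norm_num)
  norm_num at h0 h1 h2 h3
  unfold bz
  rw [h0, h1, h2, h3]
  push_cast
  ring

private theorem blkA_bz_sub {X W j : Nat}
    (h : ∀ m < 4, fd W (8 * j + m) = fd X (8 * j + m) - fd X (8 * j + (m + 2) % 4)) :
    bz W j = bz X j := by
  have h0 := h 0 (by norm_num)
  have h1 := h 1 (by norm_num)
  have h2 := h 2 (by norm_num)
  have h3 := h 3 (by norm_num)
  norm_num at h0 h1 h2 h3
  have key : ∀ a b : Nat, (((a - b : Nat) : ℝ) - ((b - a : Nat) : ℝ)) = (a : ℝ) - b := by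
    intro a b
    rcases le_total a b with h | h
    · rw [Nat.sub_eq_zero_of_le h, Nat.cast_sub h]
      simp
    · rw [Nat.sub_eq_zero_of_le h, Nat.cast_sub h]
      simp
  unfold bz
  rw [h0, h1, h2, h3, key, key]

private theorem blkA_index {i : Nat} (h : i % 8 < 4) : ∃ j m, m < 4 ∧ i = 8 * j + m :=
  ⟨i / 8, i % 8, h, by omega⟩

private theorem blkA_one {n X Y : Nat} (hX : One n X) (hY : Clean n Y)
    (h : ∀ j m, m < 4 → fd X (8 * j + m) = 0 → fd X (8 * j + (m + 2) % 4) = 0 →
      fd Y (8 * j + m) = 0) : One n Y := by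
  intro i
  refine ⟨(hY i).1, fun hi => ?_⟩
  by_cases h4 : i % 8 < 4
  · obtain ⟨j, m, hm, rfl⟩ := blkA_index h4
    exact h j m hm ((hX _).2 hi) ((hX _).2 (by omega))
  · exact (hY i).2 (Or.inr (by omega))

theorem clean_swap {n X : Nat} (hn : n ≤ 2 ^ 128) (h : Clean n X) :
    Clean n (swap X) ∧ ∀ j, bz (swap X) j = -bz X j := by
  have h0 : 0 < n := lt_of_le_of_lt (Nat.zero_le _) (h 0).1
  refine ⟨fun i => ?_, fun j => blkA_bz_neg (fun m hm => fd_swap hn h j m hm)⟩
  constructor
  · by_cases h4 : i % 8 < 4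
    · obtain ⟨j, m, hm, rfl⟩ := blkA_index h4
      rw [fd_swap hn h j m hm]
      exact (h _).1
    · rw [blkA_fd_swap_bad X i (Or.inr (by omega))]
      exact h0
  · intro hi
    exact blkA_fd_swap_bad X i (by omega)

theorem one_swap {n X : Nat} (hn : n ≤ 2 ^ 128) (h : One n X) :
    One n (swap X) ∧ bz (swap X) 0 = -bz X 0 := by
  have hc := clean_swap hn (clean_of_one h)
  refine ⟨blkA_one h hc.1 (fun j m hm _ h2 => ?_), hc.2 0⟩
  rw [fd_swap hn (clean_of_one h) j m hm, h2]

private theorem blkA_land_bit {a b : Nat} (ha : a < 2 ^ 100) (hb : b < 2 ^ 100) :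
    Nat.land (a + 2 ^ 100 - b) (2 ^ 100) = if b ≤ a then 2 ^ 100 else 0 := by
  have e : Nat.land (a + 2 ^ 100 - b) (2 ^ 100) = (a + 2 ^ 100 - b) &&& 2 ^ 100 := rfl
  rw [e, Nat.and_two_pow]
  have h2 : (a + 2 ^ 100 - b).testBit 100 = decide (b ≤ a) := by
    rw [Nat.testBit_eq_decide_div_mod_eq]
    by_cases h : b ≤ a
    · have h3 : (a + 2 ^ 100 - b) / 2 ^ 100 = 1 := by
        apply Nat.div_eq_of_lt_le <;> omega
      rw [h3]
      simp [h]
    · have h3 : (a + 2 ^ 100 - b) / 2 ^ 100 = 0 := by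
        apply Nat.div_eq_of_lt
        omega
      rw [h3]
      simp [h]
  rw [h2]
  by_cases h : b ≤ a
  · simp [h]
  · simp [h]

private theorem blkA_nrm_all {n X : Nat} (hn : n ≤ 2 ^ 100) (h : Clean n X) (i : Nat) :
    fd (nrm X) i = if i < 64 ∧ i % 8 < 4 then fd X i - fd (swap X) i else 0 := by
  have hn' : n ≤ 2 ^ 128 := le_trans hn (by norm_num)
  have hs := (clean_swap hn' h).1
  have hXl : ∀ i, fd X i < 2 ^ 100 := fun i => lt_of_lt_of_le (h i).1 hn
  have hSl : ∀ i, fd (swap X) i < 2 ^ 100 := fun i => lt_of_lt_of_le (hs i).1 hn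
  have hA : ∀ i, fd (Nat.add X gG) i = fd X i + if i < 64 ∧ i % 8 < 4 then 2 ^ 100 else 0 := by
    intro i
    have h1 := fd_add (X := X) (Y := gG) (fun i => by
      rw [fd_gG]
      have := hXl i
      split_ifs <;> omega) i
    rw [fd_gG] at h1
    exact h1
  have hT : ∀ i, fd (Nat.sub (Nat.add X gG) (swap X)) i =
      if i < 64 ∧ i % 8 < 4 then fd X i + 2 ^ 100 - fd (swap X) i else 0 := by
    intro i
    have h1 := fd_sub (X := Nat.add X gG) (Y := swap X) (fun i => by
      rw [hA]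
      by_cases hi : i < 64 ∧ i % 8 < 4
      · rw [if_pos hi]
        have := hSl i
        omega
      · rw [(hs i).2 (by omega)]
        exact Nat.zero_le _) i
    have h2 : fd (Nat.sub (Nat.add X gG) (swap X)) i = fd (Nat.add X gG) i - fd (swap X) i := h1
    rw [h2, hA]
    by_cases hi : i < 64 ∧ i % 8 < 4
    · rw [if_pos hi, if_pos hi]
    · rw [if_neg hi, if_neg hi, (h i).2 (by omega), (hs i).2 (by omega)]
  have hK : ∀ i, fd (Nat.land (Nat.sub (Nat.add X gG) (swap X)) gG) i =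
      if (i < 64 ∧ i % 8 < 4) ∧ fd (swap X) i ≤ fd X i then 2 ^ 100 else 0 := by
    intro i
    rw [fd_land, fd_gG, hT]
    by_cases hi : i < 64 ∧ i % 8 < 4
    · rw [if_pos hi, if_pos hi, blkA_land_bit (hXl i) (hSl i)]
      by_cases h2 : fd (swap X) i ≤ fd X i
      · rw [if_pos h2, if_pos ⟨hi, h2⟩]
      · rw [if_neg h2, if_neg (fun h3 => h2 h3.2)]
    · rw [if_neg hi, if_neg hi, if_neg (fun h3 => hi h3.1)]
      exact land_zero_right _
  have hR : ∀ i, fd (Nat.shiftRight (Nat.land (Nat.sub (Nat.add X gG) (swap X)) gG) 100) i =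
      if (i < 64 ∧ i % 8 < 4) ∧ fd (swap X) i ≤ fd X i then 1 else 0 := by
    intro i
    rw [fd_shr_gen (by norm_num), hK, hK]
    have e : ((if ((i + 1) < 64 ∧ (i + 1) % 8 < 4) ∧ fd (swap X) (i + 1) ≤ fd X (i + 1)
        then 2 ^ 100 else 0) % 2 ^ 100 : Nat) = 0 := by
      split_ifs <;> norm_num
    rw [e, Nat.zero_mul, Nat.add_zero]
    split_ifs <;> norm_num
  have hM : fd (Nat.sub (Nat.land (Nat.sub (Nat.add X gG) (swap X)) gG)
      (Nat.shiftRight (Nat.land (Nat.sub (Nat.add X gG) (swap X)) gG) 100)) i =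
      if (i < 64 ∧ i % 8 < 4) ∧ fd (swap X) i ≤ fd X i then 2 ^ 100 - 1 else 0 := by
    have h1 := fd_sub (X := Nat.land (Nat.sub (Nat.add X gG) (swap X)) gG)
      (Y := Nat.shiftRight (Nat.land (Nat.sub (Nat.add X gG) (swap X)) gG) 100) (fun i => by
        rw [hK, hR]
        split_ifs <;> norm_num) i
    refine h1.trans ?_
    rw [hK, hR]
    split_ifs <;> norm_num
  have hN : fd (nrm X) i = Nat.land (fd (Nat.sub (Nat.add X gG) (swap X)) i)
      (fd (Nat.sub (Nat.land (Nat.sub (Nat.add X gG) (swap X)) gG)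
      (Nat.shiftRight (Nat.land (Nat.sub (Nat.add X gG) (swap X)) gG) 100)) i) :=
    fd_land _ _ i
  rw [hN, hM, hT]
  by_cases hi : i < 64 ∧ i % 8 < 4
  · rw [if_pos hi, if_pos hi]
    by_cases h2 : fd (swap X) i ≤ fd X i
    · rw [if_pos ⟨hi, h2⟩, land_mask]
      have h3 : fd X i + 2 ^ 100 - fd (swap X) i = (fd X i - fd (swap X) i) + 2 ^ 100 := by omega
      rw [h3, Nat.add_mod_right]
      apply Nat.mod_eq_of_lt
      have := hXl i
      omega
    · have h3 : fd X i - fd (swap X) i = 0 := Nat.sub_eq_zero_of_le (by omega)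
      rw [if_neg (fun h3 => h2 h3.2), h3]
      exact land_zero_right _
  · rw [if_neg hi, if_neg hi, if_neg (fun h3 => hi h3.1)]
    exact land_zero_right _

/-- `t = x + 2^100 - x'` has the bit `100` iff `x' ≤ x`; then the mask is `2^100 - 1` -/
theorem fd_nrm {n X : Nat} (hn : n ≤ 2 ^ 100) (h : Clean n X) (j m : Nat) (hm : m < 4) :
    fd (nrm X) (8 * j + m) = fd X (8 * j + m) - fd X (8 * j + (m + 2) % 4) := by
  rw [blkA_nrm_all hn h, fd_swap (le_trans hn (by norm_num)) h j m hm]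
  split_ifs with hi
  · rfl
  · rw [(h (8 * j + m)).2 (Or.inl (by omega)), Nat.zero_sub]

theorem clean_nrm {n X : Nat} (hn : n ≤ 2 ^ 100) (h : Clean n X) :
    Clean n (nrm X) ∧ ∀ j, bz (nrm X) j = bz X j := by
  have h0 : 0 < n := lt_of_le_of_lt (Nat.zero_le _) (h 0).1
  refine ⟨fun i => ?_, fun j => blkA_bz_sub (fun m hm => fd_nrm hn h j m hm)⟩
  rw [blkA_nrm_all hn h]
  split_ifs with hi
  · refine ⟨lt_of_le_of_lt (Nat.sub_le _ _) (h i).1, fun h2 => ?_⟩
    omega
  · exact ⟨h0, fun _ => rfl⟩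

theorem one_nrm {n X : Nat} (hn : n ≤ 2 ^ 100) (h : One n X) :
    One n (nrm X) ∧ bz (nrm X) 0 = bz X 0 := by
  have hc := clean_nrm hn (clean_of_one h)
  refine ⟨blkA_one h hc.1 (fun j m hm h1 _ => ?_), hc.2 0⟩
  rw [fd_nrm hn (clean_of_one h) j m hm, h1, Nat.zero_sub]

end Pool.Agent.helper31.IB
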