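import Pool.Agent.helper31.IA.Defs

/-!
# IB: packed kernel affine arithmetic, definitions

Same programs as in `IA`, faster arithmetic.  A natural number is read in fields of `128` bits; eight
fields form a block; a block is the complex number `((f0 - f2) + (f1 - f3) i)/2^40` (the fields
`4..7` are `0`).  Block `0` of `A.X` is the centre, block `j + 1` the coefficient of the noise symbol
`j` (at most seven).
-/

namespace Pool.Agent.helper31.IB

open Pool.Agent.helper31.IA (Z Op)

/-- `Σ_{j < 8} 2^(1024 j)` -/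
def rep : Nat := Nat.div (Nat.sub (Nat.pow 2 8192) 1) (Nat.sub (Nat.pow 2 1024) 1)

/-- `1 + 2^128 + 2^256 + 2^384` -/
def rep4 : Nat := Nat.div (Nat.sub (Nat.pow 2 512) 1) (Nat.sub (Nat.pow 2 128) 1)

/-- `2^512 - 1` -/
def m512 : Nat := Nat.sub (Nat.pow 2 512) 1

def m1024 : Nat := Nat.sub (Nat.pow 2 1024) 1

def m128 : Nat := Nat.sub (Nat.pow 2 128) 1

/-- fields `0..3` of all blocks -/
def mB : Nat := Nat.mul rep m512

/-- fields `0, 1` of all blocks -/
def m01 : Nat := Nat.mul rep (Nat.sub (Nat.pow 2 256) 1)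

/-- field `0` of all blocks -/
def f0m : Nat := Nat.mul rep m128

/-- low `88` bits of the fields `0..3` of one block -/
def mZ : Nat := Nat.mul rep4 (Nat.sub (Nat.pow 2 88) 1)

/-- low `88` bits of the fields `0..3` of all blocks -/
def mS : Nat := Nat.mul rep mZ

/-- guard bits `100` of the fields `0..3` of all blocks -/
def gG : Nat := Nat.mul rep (Nat.mul rep4 (Nat.pow 2 100))

/-- guard bits `100` of the field `0` of all blocks -/
def g0 : Nat := Nat.mul rep (Nat.pow 2 100)

/-- bits `62..127` of the fields `0..3` and all bits of the fields `4..7` of all blocks -/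
def hB : Nat := Nat.sub (Nat.sub (Nat.pow 2 8192) 1)
  (Nat.mul rep (Nat.mul rep4 (Nat.sub (Nat.pow 2 62) 1)))

/-- all fields are `< 2^62`, the fields `4..7` are `0`, at most `8` blocks -/
def good (X : Nat) : Bool := Nat.beq (Nat.land X hB) 0 && Nat.beq (Nat.shiftRight X 8192) 0

def fold (P : Nat) : Nat := Nat.add (Nat.land P mB) (Nat.land (Nat.shiftRight P 512) mB)

def sh (P : Nat) : Nat := Nat.land (Nat.shiftRight P 40) mS

/-- multiplication of all blocks by `-1` -/
def swap (X : Nat) : Nat :=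
  Nat.add (Nat.land (Nat.shiftRight X 256) m01) (Nat.shiftLeft (Nat.land X m01) 256)

/-- cancellation of `f0` against `f2` and `f1` against `f3` -/
def nrm (X : Nat) : Nat :=
  let t := Nat.sub (Nat.add X gG) (swap X)
  let k := Nat.land t gG
  Nat.land t (Nat.sub k (Nat.shiftRight k 100))

/-- all blocks times one complex number `c` (one block), error at most `2` units per block -/
def mulX (X c : Nat) : Nat := nrm (sh (fold (Nat.mul X c)))

/-- product of two complex numbers, not cancelled, error at most `2` units -/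
def mz (x y : Nat) : Nat := Nat.land (Nat.shiftRight (Nat.mod (Nat.mul x y) m512) 40) mZ

/-- upper bound of the sum over all blocks of `2^40 ‖ ‖` -/
def dmag (X : Nat) : Nat :=
  let U := Nat.add (Nat.land X f0m) (Nat.land (Nat.shiftRight X 256) f0m)
  let V := Nat.add (Nat.land (Nat.shiftRight X 128) f0m) (Nat.land (Nat.shiftRight X 384) f0m)
  let t := Nat.sub (Nat.add U g0) V
  let k := Nat.land t g0
  let a := Nat.land t (Nat.sub k (Nat.shiftRight k 100))
  Nat.add (Nat.mod (Nat.add V a) m1024)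
    (Nat.add (Nat.shiftRight (Nat.mul (Nat.mod (Nat.sub U a) m1024) 425) 10) 1)

/-- cheap upper bound for one block: sum of the fields -/
def mg (c : Nat) : Nat := Nat.mod c m128

/-- field `i` -/
def fd (X i : Nat) : Nat := Nat.land (Nat.shiftRight X (Nat.mul 128 i)) m128

def pack (a b c d : Nat) : Nat :=
  Nat.add (Nat.add a (Nat.shiftLeft c 128)) (Nat.add (Nat.shiftLeft b 256) (Nat.shiftLeft d 384))

/-- `1/x`, error at most `2` units if `|x|^2 2^80 ≥ 2^40`; also `|x|^2 2^80` -/
def zinv (x : Nat) : Nat × Nat :=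
  let p := Nat.sub (fd x 0) (fd x 2)
  let q := Nat.sub (fd x 2) (fd x 0)
  let s := Nat.sub (fd x 1) (fd x 3)
  let t := Nat.sub (fd x 3) (fd x 1)
  let n := Nat.add (Nat.mul (Nat.add p q) (Nat.add p q)) (Nat.mul (Nat.add s t) (Nat.add s t))
  (pack (Nat.div (Nat.shiftLeft p 80) n) (Nat.div (Nat.shiftLeft q 80) n)
    (Nat.div (Nat.shiftLeft t 80) n) (Nat.div (Nat.shiftLeft s 80) n), n)

/-- Horner with the coefficients `ks` -/
def hor (x : Nat) : List Nat → Nat → Nat
  | [], acc => acc
  | k :: ks, acc => hor x ks (Nat.add (mz acc x) k)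

/-- `round (2^40/j!)`, `j = 10, ..., 0` -/
def horc : List Nat :=
  [302996, 3029959, 27269634, 218157069, 1527099483, 9162596898, 45812984491, 183251937963,
   549755813888, 1099511627776, 1099511627776]

/-- repeated squaring with error tracking and overflow check -/
def sqr : Nat → Nat → Nat → Nat × Nat × Bool
  | 0, z, e => (z, e, true)
  | k + 1, z, e =>
      let y := nrm (mz z z)
      bif good y then
        sqr k y (Nat.add (Nat.shiftRight (Nat.mul (Nat.add (Nat.mul 2 (Nat.add (mg z) e)) e) e) 40) 3)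
      else (0, 0, false)

/-- `exp x`, error bound, validity -/
def zexp (x : Nat) : Nat × Nat × Bool :=
  let k := Nat.sub (Nat.log2 (mg x)) 38
  let y := Nat.land (Nat.shiftRight x k)
    (Nat.mul rep4 (Nat.sub (Nat.pow 2 (Nat.sub 128 k)) 1))
  bif Nat.ble k 60 then sqr k (nrm (hor y horc 27545)) 20 else (0, 0, false)

/-- first guess of `log x` (no claim) -/
def zlog0 (x : Nat) : Nat :=
  let a := fd x 0
  let b := fd x 2
  let c := fd x 1
  let d := fd x 3
  let p := Nat.add (Nat.sub a b) (Nat.sub b a)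
  let q := Nat.add (Nat.sub c d) (Nat.sub d c)
  let mx := Nat.add p (Nat.sub q p)
  let mn := Nat.sub q (Nat.sub q p)
  let l := Nat.add (Nat.log2 mx) 1
  let n := Nat.shiftRight (Nat.shiftLeft (Nat.add (Nat.mul mx mx) (Nat.mul mn mn)) 20) (Nat.mul 2 l)
  let f := 1048576
  let t := Nat.div (Nat.shiftLeft mn 20) (Nat.add mx 1)
  let at0 := Nat.sub t (Nat.shiftRight (Nat.mul (Nat.mul t t) 225) 30)
  let an := bif Nat.ble q p then at0 else Nat.sub 1647099 at0
  let an2 := bif Nat.ble b a then an else Nat.sub 3294199 an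
  Nat.land (nrm (pack
   (Nat.add (Nat.mul l 762123384786)
     (Nat.shiftLeft (Nat.div (Nat.shiftLeft (Nat.sub n f) 20) (Nat.add n f)) 20))
   (Nat.add 30484935391440
     (Nat.shiftLeft (Nat.div (Nat.shiftLeft (Nat.sub f n) 20) (Nat.add n f)) 20))
   (bif Nat.ble d c then Nat.shiftLeft an2 20 else 0)
   (bif Nat.ble d c then 0 else Nat.shiftLeft an2 20))) m512

/-- the number `1` -/
def one : Nat := 1099511627776

/-- `x * exp (-l) - 1` with error bound and validity -/
def logu (x l : Nat) : Nat × Nat × Bool :=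
  let e := zexp (swap l)
  (nrm (Nat.add (mz x e.1) (Nat.shiftLeft 1099511627776 256)),
    Nat.add (Nat.shiftRight (Nat.mul (mg x) e.2.1) 40) 3, e.2.2)

/-- `u - u²/2 + u³/3` -/
def log3 (u : Nat) : Nat :=
  let u2 := nrm (mz u u)
  let u3 := nrm (mz u2 u)
  nrm (Nat.add (Nat.add u (swap (mz u2 549755813888))) (mz u3 366503875925))

/-- `log x`, error bound, validity -/
def zlog (x : Nat) : Nat × Nat × Bool :=
  let l0 := zlog0 x
  let u0 := logu x l0
  let uu := nrm (mz u0.1 u0.1)
  let l1 := Nat.land (nrm (Nat.add (Nat.add l0 (log3 u0.1)) (swap (mz (mz uu uu) 274877906944)))) m512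
  let u1 := logu x l1
  let m := Nat.add (mg u1.1) u1.2.1
  let e := Nat.add (Nat.add (Nat.mul 2 u1.2.1) (Nat.shiftRight (Nat.mul (Nat.mul m m) (Nat.mul m m)) 120)) 16
  bif good l0 && good u0.1 && good l1 && u1.2.2 && good u1.1 && Nat.ble m 274877906944 then
    (nrm (Nat.add l1 (log3 u1.1)), e, true)
  else (0, 0, false)

/-- affine model: blocks, bound of `‖value - centre‖` (in units), error, validity -/
structure A where
  X : Nat
  D : Nat
  r : Nat
  ok : Bool
deriving Repr, Inhabited

/-- model with blocks `X` and error `r`, if it is in the admissible range -/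
def mdl (X r : Nat) (b : Bool) : A :=
  ⟨X, Nat.add (dmag (Nat.shiftRight X 1024)) r, r,
    b && good X && Nat.ble r 4611686018427387904⟩

def A.const (z : Z) : A := mdl (nrm (pack z.a z.b z.c z.d)) 0
  (Nat.ble (Nat.add (Nat.add z.a z.b) (Nat.add z.c z.d)) 4611686018427387903)

def A.add (x y : A) : A := mdl (nrm (Nat.add x.X y.X)) (Nat.add x.r y.r) (x.ok && y.ok)

def A.neg (x : A) : A := mdl (swap x.X) x.r x.ok

def A.sub (x y : A) : A := mdl (nrm (Nat.add x.X (swap y.X))) (Nat.add x.r y.r) (x.ok && y.ok)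

def A.mul (x y : A) : A :=
  let c1 := Nat.land x.X m512
  let c2 := Nat.land y.X m512
  mdl (nrm (sh (fold (Nat.add (Nat.mul x.X c2) (Nat.mul (Nat.sub y.X c2) c1)))))
    (Nat.add (Nat.shiftRight
       (Nat.add (Nat.add (Nat.mul (mg c1) y.r) (Nat.mul (mg c2) x.r)) (Nat.mul x.D y.D)) 40) 20)
    (x.ok && y.ok)

/-- conversion of a constant -/
def ofZ (z : Z) : Nat := nrm (pack z.a z.b z.c z.d)

def A.scale (z : Z) (x : A) : A :=
  let c := ofZ z
  mdl (mulX x.X c) (Nat.add (Nat.shiftRight (Nat.mul (mg c) x.r) 40) 20)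
    (x.ok && Nat.ble (Nat.add (Nat.add z.a z.b) (Nat.add z.c z.d)) 4611686018427387903)

def A.inv (x : A) : A :=
  let c := Nat.land x.X m512
  let u := zinv c
  let U := Nat.add (dmag u.1) 2
  let h := Nat.add (Nat.shiftRight (Nat.mul U x.D) 40) 1
  let u2 := nrm (mz u.1 u.1)
  let e2 := Nat.add (Nat.shiftRight (Nat.mul 4 U) 40) 3
  bif x.ok && Nat.ble 1099511627776 u.2 && Nat.ble h 549755813888 && good u.1 && good u2 then
    mdl (Nat.add u.1 (swap (mulX (Nat.sub x.X c) u2)))
      (Nat.add
        (Nat.add (Nat.shiftRight (Nat.mul e2 x.D) 40)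
          (Nat.shiftRight (Nat.mul (Nat.mul U U) x.r) 80))
        (Nat.add (Nat.div (Nat.mul U (Nat.mul h h)) (Nat.shiftLeft (Nat.sub 1099511627776 h) 40)) 24))
      true
  else ⟨0, 0, 0, false⟩

def A.exp (x : A) : A :=
  let c := Nat.land x.X m512
  let E := zexp c
  let M := Nat.add (dmag E.1) E.2.1
  let q := Nat.add (Nat.shiftRight (Nat.mul (Nat.mul x.D x.D)
    (Nat.add 2199023255552 x.D)) 82) 1
  bif x.ok && E.2.2 && Nat.ble x.D 1099511627776 && good E.1 then
    mdl (Nat.add E.1 (mulX (Nat.sub x.X c) E.1))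
      (Nat.add
        (Nat.add E.2.1 (Nat.shiftRight (Nat.mul E.2.1 x.D) 40))
        (Nat.add (Nat.shiftRight (Nat.mul M (Nat.add x.r q)) 40) 24))
      true
  else ⟨0, 0, 0, false⟩

def A.log (x : A) : A :=
  let c := Nat.land x.X m512
  let l := zlog c
  let u := zinv c
  let U := Nat.add (dmag u.1) 2
  let h := Nat.add (Nat.shiftRight (Nat.mul U x.D) 40) 1
  let im := Nat.add (Nat.sub (fd l.1 1) (fd l.1 3)) (Nat.sub (fd l.1 3) (fd l.1 1))
  let q := Nat.add (Nat.div (Nat.mul (Nat.mul h h)
    (Nat.add 3298534883328 (Nat.mul 4 h))) 7253554917687775048237056) 1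
  bif x.ok && l.2.2 && Nat.ble 1099511627776 u.2 && Nat.ble h 549755813888 && good u.1 && good l.1 &&
     Nat.ble (Nat.add im (Nat.add l.2.1 (Nat.mul 2 h))) 3452466511216 then
    mdl (Nat.add l.1 (mulX (Nat.sub x.X c) u.1))
      (Nat.add
        (Nat.add l.2.1 (Nat.shiftRight (Nat.mul 2 x.D) 40))
        (Nat.add (Nat.shiftRight (Nat.mul U x.r) 40) (Nat.add q 24)))
      true
  else ⟨0, 0, 0, false⟩

def nth : List A → Nat → A
  | [], _ => ⟨0, 0, 0, false⟩
  | x :: _, 0 => x
  | _ :: t, n + 1 => nth t n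

/-- sum of `|Re|` over all blocks -/
def reSum (X : Nat) : Nat :=
  Nat.mod (Nat.add (Nat.land X f0m) (Nat.land (Nat.shiftRight X 256) f0m)) m1024

/-- `0 < Re`; the first `nr` noise symbols are real -/
def A.isPos (nr : Nat) (x : A) : Bool :=
  let s := Nat.shiftLeft (Nat.add nr 1) 10
  x.ok && Nat.ble (Nat.add (Nat.add (fd x.X 2)
    (Nat.add (reSum (Nat.shiftRight (Nat.mod x.X (Nat.pow 2 s)) 1024)) (dmag (Nat.shiftRight x.X s))))
      (Nat.add x.r 1)) (fd x.X 0)

/-- `‖ ‖ < B / 2^40` -/
def A.isLt (x : A) (B : Nat) : Bool :=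
  let p := Nat.add (Nat.sub (fd x.X 0) (fd x.X 2)) (Nat.sub (fd x.X 2) (fd x.X 0))
  let q := Nat.add (Nat.sub (fd x.X 1) (fd x.X 3)) (Nat.sub (fd x.X 3) (fd x.X 1))
  x.ok && Nat.ble (Nat.add x.D 1) B &&
    Nat.ble (Nat.add (Nat.add (Nat.mul p p) (Nat.mul q q)) 1)
      (Nat.mul (Nat.sub B x.D) (Nat.sub B x.D))

/-- run a program; `nr` is the number of real noise symbols -/
def run (nr : Nat) : List Op → List A → Bool
  | [], _ => true
  | Op.const z :: t, m => run nr t (A.const z :: m)
  | Op.add i j :: t, m => let v := (nth m i).add (nth m j); v.ok && run nr t (v :: m)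
  | Op.sub i j :: t, m => let v := (nth m i).sub (nth m j); v.ok && run nr t (v :: m)
  | Op.mul i j :: t, m => let v := (nth m i).mul (nth m j); v.ok && run nr t (v :: m)
  | Op.scale z i :: t, m => let v := (nth m i).scale z; v.ok && run nr t (v :: m)
  | Op.neg i :: t, m => let v := (nth m i).neg; v.ok && run nr t (v :: m)
  | Op.inv i :: t, m => let v := (nth m i).inv; v.ok && run nr t (v :: m)
  | Op.exp i :: t, m => let v := (nth m i).exp; v.ok && run nr t (v :: m)
  | Op.log i :: t, m => let v := (nth m i).log; v.ok && run nr t (v :: m)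
  | Op.pos i :: t, m => (nth m i).isPos nr && run nr t m
  | Op.lt i B :: t, m => (nth m i).isLt B && run nr t m

/-- models of complex unit discs, `j` is the number of the first one -/
def discs : Nat → Nat → List A
  | 0, _ => []
  | nd + 1, j => mdl (Nat.shiftLeft 1099511627776 (Nat.mul 1024 (Nat.add j 1))) 0 true ::
      discs nd (j + 1)

/-- models of the real variables -/
def models : List (Nat × Nat) → Nat → Nat → List A
  | [], j, nd => discs nd j
  | (c, h) :: b, j, nd => mdl (Nat.add c (Nat.shiftLeft h (Nat.mul 1024 (Nat.add j 1)))) 0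
      (Nat.ble c 4611686018427387903 && Nat.ble h 4611686018427387903) :: models b (j + 1) nd

/-- verification of a program on a box along a subdivision tree -/
def verify (nd : Nat) (ops : List Op) : IA.T → List (Nat × Nat) → Bool
  | IA.T.l, box => Nat.ble (Nat.add box.length nd) 7 && run box.length ops (models box 0 nd)
  | IA.T.n i a b, box => IA.canSplit i box && verify nd ops a (IA.lo i box) &&
      verify nd ops b (IA.hi i box)

end Pool.Agent.helper31.IB
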