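import Pool.Agent.helper31.IB.Defs

/-!
# IB-1: fields of natural numbers

`fd X i` is the digit number `i` of `X` in base `2^128`.  The proofs of `fd_add`, `fd_sub`,
`fd_mul_one` are inductions on `i` with `fd_succ` (`fd X 0 = X % 2^128`).
-/

namespace Pool.Agent.helper31.IB

set_option exponentiation.threshold 2000

theorem fd_eq (X i : Nat) : fd X i = X / 2 ^ (128 * i) % 2 ^ 128 := by
  have h : fd X i = (X >>> (128 * i)) &&& (2 ^ 128 - 1) := rfl
  rw [h, Nat.and_two_pow_sub_one_eq_mod, Nat.shiftRight_eq_div_pow]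

theorem fd_lt (X i : Nat) : fd X i < 2 ^ 128 := by
  rw [fd_eq]
  exact Nat.mod_lt _ (by positivity)

theorem fd_zero_left (i : Nat) : fd 0 i = 0 := by
  rw [fd_eq, Nat.zero_div, Nat.zero_mod]

theorem fd_zero (X : Nat) : fd X 0 = X % 2 ^ 128 := by
  rw [fd_eq]
  norm_num

theorem fd_succ (X i : Nat) : fd X (i + 1) = fd (X / 2 ^ 128) i := by
  rw [fd_eq, fd_eq, Nat.div_div_eq_div_mul, ← pow_add]
  have h : 128 * (i + 1) = 128 + 128 * i := by ring
  rw [h]

theorem fd_ext {X Y : Nat} (h : ∀ i, fd X i = fd Y i) : X = Y := by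
  have key : ∀ n : Nat, ∀ X Y : Nat, X ≤ n → (∀ i, fd X i = fd Y i) → X = Y := by
    intro n
    induction n using Nat.strong_induction_on with
    | _ n ih =>
      intro X Y hX hXY
      have h0 := hXY 0
      rw [fd_zero, fd_zero] at h0
      rcases Nat.eq_zero_or_pos X with h | h
      · subst h
        have key0 : ∀ m : Nat, ∀ Y : Nat, Y ≤ m → (∀ i, fd Y i = 0) → Y = 0 := by
          intro m
          induction m using Nat.strong_induction_on with
          | _ m ih2 =>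
            intro Y hY hY0
            by_contra hne
            have h1 := hY0 0
            rw [fd_zero] at h1
            have h2 : Y / 2 ^ 128 < Y := Nat.div_lt_self (Nat.pos_of_ne_zero hne) (by norm_num)
            have h3 := ih2 (Y / 2 ^ 128) (lt_of_lt_of_le h2 hY) (Y / 2 ^ 128) le_rfl (by
              intro i
              rw [← fd_succ]
              exact hY0 (i + 1))
            have h4 := Nat.div_add_mod Y (2 ^ 128)
            rw [h3, h1] at h4
            apply hne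
            rw [← h4]
            norm_num
        exact (key0 Y Y le_rfl (fun i => by rw [← hXY i, fd_zero_left])).symm
      · have h2 : X / 2 ^ 128 < X := Nat.div_lt_self h (by norm_num)
        have h3 := ih (X / 2 ^ 128) (lt_of_lt_of_le h2 hX) (X / 2 ^ 128) (Y / 2 ^ 128) le_rfl (by
          intro i
          rw [← fd_succ, ← fd_succ]
          exact hXY (i + 1))
        have h4 := Nat.div_add_mod X (2 ^ 128)
        have h5 := Nat.div_add_mod Y (2 ^ 128)
        rw [← h4, ← h5, h3, h0]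
  exact key X X Y le_rfl h

theorem fd_of_lt {X n : Nat} (h : X < 2 ^ (128 * n)) {i : Nat} (hi : n ≤ i) : fd X i = 0 := by
  rw [fd_eq]
  have h1 : X < 2 ^ (128 * i) :=
    lt_of_lt_of_le h (Nat.pow_le_pow_right (by norm_num) (by omega))
  rw [Nat.div_eq_of_lt h1, Nat.zero_mod]

theorem lt_of_fd {X n : Nat} (h : ∀ i, n ≤ i → fd X i = 0) : X < 2 ^ (128 * n) := by
  have h1 : X / 2 ^ (128 * n) = 0 := by
    apply fd_ext
    intro i
    rw [fd_zero_left, ← h (n + i) (by omega), fd_eq, fd_eq, Nat.div_div_eq_div_mul, ← pow_add,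
      ← Nat.mul_add]
  exact (Nat.div_eq_zero_iff_lt (by positivity)).mp h1

theorem le_of_fd {X Y : Nat} (h : ∀ i, fd X i ≤ fd Y i) : X ≤ Y := by
  have key : ∀ n : Nat, ∀ X Y : Nat, X ≤ n → (∀ i, fd X i ≤ fd Y i) → X ≤ Y := by
    intro n
    induction n using Nat.strong_induction_on with
    | _ n ih =>
      intro X Y hX hXY
      rcases Nat.eq_zero_or_pos X with h | h
      · subst h
        exact Nat.zero_le _
      · have h0 := hXY 0
        rw [fd_zero, fd_zero] at h0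
        have h2 : X / 2 ^ 128 < X := Nat.div_lt_self h (by norm_num)
        have h3 := ih (X / 2 ^ 128) (lt_of_lt_of_le h2 hX) (X / 2 ^ 128) (Y / 2 ^ 128) le_rfl (by
          intro i
          rw [← fd_succ, ← fd_succ]
          exact hXY (i + 1))
        have h4 := Nat.div_add_mod X (2 ^ 128)
        have h5 := Nat.div_add_mod Y (2 ^ 128)
        rw [← h4, ← h5]
        exact Nat.add_le_add (Nat.mul_le_mul_left _ h3) h0
  exact key X X Y le_rfl h

theorem fd_land (X Y i : Nat) : fd (Nat.land X Y) i = Nat.land (fd X i) (fd Y i) := by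
  have e1 : Nat.land X Y = X &&& Y := rfl
  have e2 : Nat.land (fd X i) (fd Y i) = fd X i &&& fd Y i := rfl
  rw [e1, e2]
  have h : ∀ Z : Nat, fd Z i = (Z >>> (128 * i)) &&& (2 ^ 128 - 1) := fun Z => rfl
  rw [h, h, h, Nat.shiftRight_and_distrib]
  apply Nat.eq_of_testBit_eq
  intro j
  simp only [Nat.testBit_and]
  cases Nat.testBit (X >>> (128 * i)) j <;> cases Nat.testBit (Y >>> (128 * i)) j <;>
    cases Nat.testBit (2 ^ 128 - 1) j <;> rfl

theorem land_zero_right (a : Nat) : Nat.land a 0 = 0 := by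
  exact Nat.and_zero a

theorem land_mask (a k : Nat) : Nat.land a (2 ^ k - 1) = a % 2 ^ k := by
  exact Nat.and_two_pow_sub_one_eq_mod a k

theorem fd_shr (X k i : Nat) : fd (Nat.shiftRight X (128 * k)) i = fd X (i + k) := by
  have e1 : Nat.shiftRight X (128 * k) = X >>> (128 * k) := rfl
  rw [e1, fd_eq, fd_eq, Nat.shiftRight_eq_div_pow, Nat.div_div_eq_div_mul, ← pow_add,
    ← Nat.mul_add, Nat.add_comm k i]

theorem fd_shl (X k i : Nat) :
    fd (Nat.shiftLeft X (128 * k)) i = if i < k then 0 else fd X (i - k) := by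
  have e1 : Nat.shiftLeft X (128 * k) = X * 2 ^ (128 * k) := Nat.shiftLeft_eq X (128 * k)
  rw [e1]
  split_ifs with h
  · obtain ⟨d, rfl⟩ : ∃ d, k = i + (d + 1) := ⟨k - i - 1, by omega⟩
    rw [fd_eq]
    have h1 : X * 2 ^ (128 * (i + (d + 1))) = (X * 2 ^ (128 * d) * 2 ^ 128) * 2 ^ (128 * i) := by
      have h2 : 128 * (i + (d + 1)) = 128 * d + 128 + 128 * i := by ring
      rw [h2, pow_add, pow_add]
      ring
    rw [h1, Nat.mul_div_cancel _ (by positivity), Nat.mul_mod_left]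
  · obtain ⟨d, rfl⟩ : ∃ d, i = d + k := ⟨i - k, by omega⟩
    have h3 : d + k - k = d := by omega
    rw [h3, fd_eq, fd_eq]
    have h1 : 128 * (d + k) = 128 * k + 128 * d := by ring
    rw [h1, pow_add, ← Nat.div_div_eq_div_mul, Nat.mul_div_cancel _ (by positivity)]

/-- general shift -/
theorem fd_shr_gen {X s i : Nat} (hs : s ≤ 128) :
    fd (Nat.shiftRight X s) i = fd X i / 2 ^ s + (fd X (i + 1) % 2 ^ s) * 2 ^ (128 - s) := by
  have e1 : Nat.shiftRight X s = X / 2 ^ s := Nat.shiftRight_eq_div_pow X s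
  rw [e1, fd_eq, fd_eq, fd_eq, Nat.div_div_eq_div_mul, ← pow_add]
  have h1 : 128 * (i + 1) = 128 * i + 128 := by ring
  rw [h1, pow_add 2 (128 * i) 128, ← Nat.div_div_eq_div_mul X (2 ^ (128 * i)) (2 ^ 128), Nat.add_comm s,
    pow_add 2 (128 * i) s, ← Nat.div_div_eq_div_mul X (2 ^ (128 * i)) (2 ^ s)]
  set W := X / 2 ^ (128 * i) with hW
  obtain ⟨t, ht⟩ : ∃ t, 128 = s + t := ⟨128 - s, by omega⟩
  have ht2 : 128 - s = t := by omega
  rw [ht2]
  have hp : (2 : Nat) ^ 128 = 2 ^ s * 2 ^ t := by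
    rw [← pow_add, ← ht]
  have hs0 : 0 < (2 : Nat) ^ s := by positivity
  have ht0 : 0 < (2 : Nat) ^ t := by positivity
  have hpr : (2 : Nat) ^ s * 2 ^ t = 2 ^ t * 2 ^ s := Nat.mul_comm _ _
  have hq1 : W / 2 ^ s / 2 ^ t = W / 2 ^ 128 := by
    rw [Nat.div_div_eq_div_mul, ← hp]
  have hq2 : W / 2 ^ s % 2 ^ t = W % 2 ^ 128 / 2 ^ s := by
    rw [hp, Nat.mod_mul_right_div_self]
  have hq3 : W / 2 ^ s % 2 ^ 128 = W / 2 ^ s % 2 ^ t + 2 ^ t * (W / 2 ^ s / 2 ^ t % 2 ^ s) := by
    rw [hp, hpr]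
    exact Nat.mod_mul
  have hq4 : W / 2 ^ 128 % 2 ^ 128 % 2 ^ s = W / 2 ^ 128 % 2 ^ s := by
    apply Nat.mod_mod_of_dvd
    exact ⟨2 ^ t, hp⟩
  rw [hq3, hq2, hq1, hq4, Nat.mul_comm (2 ^ t)]

/-- shift inside the fields: the mask has `128 - k` ones in the field `i` -/
theorem fd_shr_mask {X M k i : Nat} (hk : k ≤ 128) (hM : fd M i = 2 ^ (128 - k) - 1) :
    fd (Nat.land (Nat.shiftRight X k) M) i = fd X i / 2 ^ k := by
  rw [fd_land, hM, fd_shr_gen hk, land_mask]
  have ht0 : 0 < (2 : Nat) ^ (128 - k) := by positivity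
  rw [Nat.add_mul_mod_self_right]
  apply Nat.mod_eq_of_lt
  rw [Nat.div_lt_iff_lt_mul (by positivity), ← pow_add]
  have h1 : 128 - k + k = 128 := by omega
  rw [h1]
  exact fd_lt X i

/-- no overflow in any field -/
theorem fd_add {X Y : Nat} (h : ∀ i, fd X i + fd Y i < 2 ^ 128) (i : Nat) :
    fd (X + Y) i = fd X i + fd Y i := by
  induction i generalizing X Y with
  | zero =>
    have h0 := h 0
    rw [fd_zero, fd_zero] at h0
    rw [fd_zero, fd_zero, fd_zero, Nat.add_mod, Nat.mod_eq_of_lt h0]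
  | succ n ih =>
    have h0 := h 0
    rw [fd_zero, fd_zero] at h0
    rw [fd_succ, fd_succ, fd_succ]
    have h1 : (X + Y) / 2 ^ 128 = X / 2 ^ 128 + Y / 2 ^ 128 := by
      rw [Nat.add_div (by positivity), if_neg (by omega), Nat.add_zero]
    rw [h1]
    apply ih
    intro i
    rw [← fd_succ, ← fd_succ]
    exact h (i + 1)

/-- no borrow in any field -/
theorem fd_sub {X Y : Nat} (h : ∀ i, fd Y i ≤ fd X i) (i : Nat) :
    fd (X - Y) i = fd X i - fd Y i := by
  have hle : Y ≤ X := le_of_fd h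
  induction i generalizing X Y with
  | zero =>
    have h0 := h 0
    rw [fd_zero, fd_zero] at h0
    rw [fd_zero, fd_zero, fd_zero]
    omega
  | succ n ih =>
    have h0 := h 0
    rw [fd_zero, fd_zero] at h0
    rw [fd_succ, fd_succ, fd_succ]
    have h1 : (X - Y) / 2 ^ 128 = X / 2 ^ 128 - Y / 2 ^ 128 := by
      omega
    have h2 : ∀ i, fd (Y / 2 ^ 128) i ≤ fd (X / 2 ^ 128) i := by
      intro i
      rw [← fd_succ, ← fd_succ]
      exact h (i + 1)
    rw [h1]
    exact ih h2 (le_of_fd h2)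

theorem fd_mul_one {X c : Nat} (h : ∀ i, fd X i * c < 2 ^ 128) (i : Nat) :
    fd (X * c) i = fd X i * c := by
  induction i generalizing X with
  | zero =>
    have h0 := h 0
    rw [fd_zero] at h0
    rw [fd_zero, fd_zero, Nat.mul_mod, Nat.mod_eq_of_lt (a := X % 2 ^ 128 * (c % 2 ^ 128))]
    · rcases Nat.eq_zero_or_pos (X % 2 ^ 128) with h1 | h1
      · rw [h1, Nat.zero_mul, Nat.zero_mul]
      · have h2 : c < 2 ^ 128 := lt_of_le_of_lt (Nat.le_mul_of_pos_left c h1) h0
        rw [Nat.mod_eq_of_lt h2]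
    · exact lt_of_le_of_lt (Nat.mul_le_mul_left _ (Nat.mod_le _ _)) h0
  | succ n ih =>
    have h0 := h 0
    rw [fd_zero] at h0
    rw [fd_succ, fd_succ]
    have h1 : X * c / 2 ^ 128 = X / 2 ^ 128 * c := by
      have h4 := Nat.div_add_mod X (2 ^ 128)
      have h5 : X * c = X % 2 ^ 128 * c + 2 ^ 128 * (X / 2 ^ 128 * c) := by
        calc X * c = (2 ^ 128 * (X / 2 ^ 128) + X % 2 ^ 128) * c := by rw [h4]
          _ = _ := by ring
      rw [h5, Nat.add_mul_div_left _ _ (by positivity), Nat.div_eq_of_lt h0, Nat.zero_add]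
    rw [h1]
    apply ih
    intro i
    rw [← fd_succ]
    exact h (i + 1)

/-- convolution with the fields `0..3` of `c` -/
def conv (X c i : Nat) : Nat :=
  fd X i * fd c 0 + (if 1 ≤ i then fd X (i - 1) * fd c 1 else 0) +
    (if 2 ≤ i then fd X (i - 2) * fd c 2 else 0) + (if 3 ≤ i then fd X (i - 3) * fd c 3 else 0)

private theorem fd_mul_pow (X k i : Nat) :
    fd (X * 2 ^ (128 * k)) i = if i < k then 0 else fd X (i - k) := by
  have e1 : Nat.shiftLeft X (128 * k) = X * 2 ^ (128 * k) := Nat.shiftLeft_eq X (128 * k)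
  rw [← e1]
  exact fd_shl X k i

private theorem eq_of_four_aux {c : Nat} (hc : c < 2 ^ 512) :
    c = fd c 0 + fd c 1 * 2 ^ 128 + fd c 2 * 2 ^ 256 + fd c 3 * 2 ^ 384 := by
  have e0 : fd c 0 = c % 2 ^ 128 := fd_zero c
  have e1 : fd c 1 = c / 2 ^ 128 % 2 ^ 128 := by
    rw [show (1 : Nat) = 0 + 1 from rfl, fd_succ, fd_zero]
  have e2 : fd c 2 = c / 2 ^ 128 / 2 ^ 128 % 2 ^ 128 := by
    rw [show (2 : Nat) = 0 + 1 + 1 from rfl, fd_succ, fd_succ, fd_zero]
  have e3 : fd c 3 = c / 2 ^ 128 / 2 ^ 128 / 2 ^ 128 % 2 ^ 128 := by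
    rw [show (3 : Nat) = 0 + 1 + 1 + 1 from rfl, fd_succ, fd_succ, fd_succ, fd_zero]
  rw [e0, e1, e2, e3]
  omega

/-- `c = fd c 0 + fd c 1 * 2^128 + fd c 2 * 2^256 + fd c 3 * 2^384`, `fd_mul_one`, `fd_shl`,
`fd_add` -/
theorem fd_mul {X c : Nat} (hc : c < 2 ^ 512) (h : ∀ i, conv X c i < 2 ^ 128) (i : Nat) :
    fd (X * c) i = conv X c i := by
  have hle : ∀ i, fd X i * fd c 0 + (if 1 ≤ i then fd X (i - 1) * fd c 1 else 0) +
    (if 2 ≤ i then fd X (i - 2) * fd c 2 else 0) +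
    (if 3 ≤ i then fd X (i - 3) * fd c 3 else 0) < 2 ^ 128 := h
  have b0 : ∀ i, fd X i * fd c 0 < 2 ^ 128 := fun i => by
    have := hle i
    omega
  have b1 : ∀ i, fd X i * fd c 1 < 2 ^ 128 := fun i => by
    have := hle (i + 1)
    rw [if_pos (by omega : 1 ≤ i + 1), Nat.add_sub_cancel] at this
    omega
  have b2 : ∀ i, fd X i * fd c 2 < 2 ^ 128 := fun i => by
    have := hle (i + 2)
    rw [if_pos (by omega : 2 ≤ i + 2), Nat.add_sub_cancel] at this
    omega
  have b3 : ∀ i, fd X i * fd c 3 < 2 ^ 128 := fun i => by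
    have := hle (i + 3)
    rw [if_pos (by omega : 3 ≤ i + 3), Nat.add_sub_cancel] at this
    omega
  have e0 : ∀ i, fd (X * fd c 0) i = fd X i * fd c 0 := fd_mul_one b0
  have e1 : ∀ i, fd (X * fd c 1 * 2 ^ (128 * 1)) i = if 1 ≤ i then fd X (i - 1) * fd c 1 else 0 := by
    intro i
    rw [fd_mul_pow, fd_mul_one b1]
    by_cases hi : 1 ≤ i
    · rw [if_pos hi, if_neg (by omega)]
    · rw [if_neg hi, if_pos (by omega)]
  have e2 : ∀ i, fd (X * fd c 2 * 2 ^ (128 * 2)) i = if 2 ≤ i then fd X (i - 2) * fd c 2 else 0 := by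
    intro i
    rw [fd_mul_pow, fd_mul_one b2]
    by_cases hi : 2 ≤ i
    · rw [if_pos hi, if_neg (by omega)]
    · rw [if_neg hi, if_pos (by omega)]
  have e3 : ∀ i, fd (X * fd c 3 * 2 ^ (128 * 3)) i = if 3 ≤ i then fd X (i - 3) * fd c 3 else 0 := by
    intro i
    rw [fd_mul_pow, fd_mul_one b3]
    by_cases hi : 3 ≤ i
    · rw [if_pos hi, if_neg (by omega)]
    · rw [if_neg hi, if_pos (by omega)]
  have hX : X * c = X * fd c 0 + X * fd c 1 * 2 ^ (128 * 1) + X * fd c 2 * 2 ^ (128 * 2) +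
      X * fd c 3 * 2 ^ (128 * 3) := by
    conv_lhs => rw [eq_of_four_aux hc]
    ring
  have s1 : ∀ i, fd (X * fd c 0 + X * fd c 1 * 2 ^ (128 * 1)) i =
      fd X i * fd c 0 + (if 1 ≤ i then fd X (i - 1) * fd c 1 else 0) := by
    intro i
    rw [fd_add, e0, e1]
    intro j
    have := hle j
    rw [e0, e1]
    omega
  have s2 : ∀ i, fd (X * fd c 0 + X * fd c 1 * 2 ^ (128 * 1) + X * fd c 2 * 2 ^ (128 * 2)) i =
      fd X i * fd c 0 + (if 1 ≤ i then fd X (i - 1) * fd c 1 else 0) +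
      (if 2 ≤ i then fd X (i - 2) * fd c 2 else 0) := by
    intro i
    rw [fd_add, s1, e2]
    intro j
    have := hle j
    rw [s1, e2]
    omega
  rw [hX, fd_add, s2, e3]
  · rfl
  · intro j
    have := hle j
    rw [s2, e3]
    omega

/-- a number with four fields -/
theorem eq_of_four {c : Nat} (hc : c < 2 ^ 512) :
    c = fd c 0 + fd c 1 * 2 ^ 128 + fd c 2 * 2 ^ 256 + fd c 3 * 2 ^ 384 := by
  exact eq_of_four_aux hc

/-- `2^128 = 1` modulo `2^128 - 1` -/
theorem mod_m128 {c : Nat} (hc : c < 2 ^ 512) (h : ∀ i, fd c i < 2 ^ 125) :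
    Nat.mod c m128 = fd c 0 + fd c 1 + fd c 2 + fd c 3 := by
  have hm : m128 = 2 ^ 128 - 1 := rfl
  have h4 := eq_of_four hc
  have h0 := h 0
  have h1 := h 1
  have h2 := h 2
  have h3 := h 3
  have e : Nat.mod c m128 = c % (2 ^ 128 - 1) := rfl
  rw [e]
  generalize fd c 0 = a at *
  generalize fd c 1 = b at *
  generalize fd c 2 = d at *
  generalize fd c 3 = f at *
  have h5 : c = a + b + d + f + (2 ^ 128 - 1) * (b + d * (2 ^ 128 + 1) + f * (2 ^ 256 + 2 ^ 128 + 1)) := by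
    rw [h4]
    omega
  rw [h5, Nat.add_mul_mod_self_left]
  apply Nat.mod_eq_of_lt
  omega

private theorem m512_eq : m512 = Nat.sub (Nat.pow 2 512) 1 := by
  delta m512
  exact Eq.refl _

private theorem m1024_eq : m1024 = Nat.sub (Nat.pow 2 1024) 1 := by
  delta m1024
  exact Eq.refl _

private theorem mod_mk {P M k l : Nat} (hM : M = Nat.sub (Nat.pow 2 k) 1) (hk : k = l) :
    Nat.mod P M = P % (2 ^ l - 1) := by
  subst hM
  subst hk
  exact rfl

private theorem dec_aux {P C Q R : Nat} (hC : 0 < C) (h : P = C * Q + R) :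
    P = R + Q + (C - 1) * Q := by
  obtain ⟨c, rfl⟩ : ∃ c, C = c + 1 := ⟨C - 1, by omega⟩
  rw [h, Nat.add_sub_cancel, Nat.add_mul, Nat.one_mul]
  omega

private theorem fd_split (P n : Nat) :
    (∀ i, fd (P % 2 ^ (128 * n)) i = if i < n then fd P i else 0) ∧
    (∀ i, fd (P / 2 ^ (128 * n)) i = fd P (i + n)) ∧
    P = 2 ^ (128 * n) * (P / 2 ^ (128 * n)) + P % 2 ^ (128 * n) := by
  refine ⟨?_, ?_, (Nat.div_add_mod P (2 ^ (128 * n))).symm⟩
  · intro i
    have hlt : P % 2 ^ (128 * n) < 2 ^ (128 * n) := Nat.mod_lt _ (by positivity)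
    by_cases hi : i < n
    · rw [if_pos hi]
      have hP : P = P % 2 ^ (128 * n) + P / 2 ^ (128 * n) * 2 ^ (128 * n) :=
        (Nat.mod_add_div' P (2 ^ (128 * n))).symm
      have h1 : fd (P % 2 ^ (128 * n) + P / 2 ^ (128 * n) * 2 ^ (128 * n)) i =
          fd (P % 2 ^ (128 * n)) i + fd (P / 2 ^ (128 * n) * 2 ^ (128 * n)) i := by
        apply fd_add
        intro j
        by_cases hj : j < n
        · rw [fd_mul_pow, if_pos hj, Nat.add_zero]
          exact fd_lt _ _
        · rw [fd_of_lt hlt (by omega : n ≤ j), Nat.zero_add]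
          exact fd_lt _ _
      rw [← hP, fd_mul_pow, if_pos hi, Nat.add_zero] at h1
      exact h1.symm
    · rw [if_neg hi]
      exact fd_of_lt hlt (by omega)
  · intro i
    rw [fd_eq, fd_eq, Nat.div_div_eq_div_mul, ← pow_add, ← Nat.mul_add, Nat.add_comm n i]

/-- `2^512 = 1` modulo `2^512 - 1` -/
theorem fd_mod_m512 {P : Nat} (hP : P < 2 ^ 1024) (h : ∀ i, fd P i < 2 ^ 127 - 1) (i : Nat) :
    fd (Nat.mod P m512) i = if i < 4 then fd P i + fd P (i + 4) else 0 := by
  obtain ⟨hlo, hhi, hdec⟩ := fd_split P 4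
  have e : Nat.mod P m512 = P % (2 ^ (128 * 4) - 1) :=
    @mod_mk P m512 512 (128 * 4) m512_eq (by norm_num)
  have hP8 : P < 2 ^ (128 * 8) := hP
  have hf : ∀ i, fd (P % 2 ^ (128 * 4) + P / 2 ^ (128 * 4)) i =
      if i < 4 then fd P i + fd P (i + 4) else 0 := by
    intro i
    have hz : ∀ j, 4 ≤ j → fd P (j + 4) = 0 := fun j hj =>
      fd_of_lt (n := 8) hP8 (by omega)
    rw [fd_add, hlo, hhi]
    · by_cases hi : i < 4
      · rw [if_pos hi, if_pos hi]
      · rw [if_neg hi, if_neg hi, hz i (by omega)]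
    · intro j
      rw [hlo, hhi]
      have a1 := h j
      have a2 := h (j + 4)
      by_cases hj : j < 4
      · rw [if_pos hj]
        omega
      · rw [if_neg hj]
        omega
  have hmod : (2 ^ (128 * 4) - 1) % 2 ^ 128 = 2 ^ 128 - 1 := by
    have h1 : (2 : Nat) ^ (128 * 4) = 2 ^ 128 * 2 ^ (128 * 3) := by
      rw [← pow_add]
    have h2 : 0 < (2 : Nat) ^ (128 * 3) := by positivity
    rw [h1]
    generalize (2 : Nat) ^ (128 * 3) = C at *
    obtain ⟨c, rfl⟩ : ∃ c, C = c + 1 := ⟨C - 1, by omega⟩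
    omega
  have hlt : P % 2 ^ (128 * 4) + P / 2 ^ (128 * 4) < 2 ^ (128 * 4) - 1 := by
    have h1 : P % 2 ^ (128 * 4) + P / 2 ^ (128 * 4) < 2 ^ (128 * 4) := by
      apply lt_of_fd
      intro i hi
      rw [hf, if_neg (by omega)]
    have h2 : P % 2 ^ (128 * 4) + P / 2 ^ (128 * 4) ≠ 2 ^ (128 * 4) - 1 := by
      intro h3
      have h4 := hf 0
      rw [h3, fd_zero, if_pos (by norm_num), Nat.zero_add] at h4
      have a1 := h 0
      have a2 := h 4
      rw [hmod] at h4
      omega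
    generalize P % 2 ^ (128 * 4) + P / 2 ^ (128 * 4) = s at *
    generalize (2 : Nat) ^ (128 * 4) = C at *
    omega
  have hpos : 0 < (2 : Nat) ^ (128 * 4) := by positivity
  have hP2 : P = P % 2 ^ (128 * 4) + P / 2 ^ (128 * 4) +
      (2 ^ (128 * 4) - 1) * (P / 2 ^ (128 * 4)) := dec_aux hpos hdec
  rw [e]
  have h6 : P % (2 ^ (128 * 4) - 1) = P % 2 ^ (128 * 4) + P / 2 ^ (128 * 4) := by
    conv_lhs => rw [hP2]
    rw [Nat.add_mul_mod_self_left]
    exact Nat.mod_eq_of_lt hlt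
  rw [h6]
  exact hf i

private theorem mod_m1024_aux (n : Nat) : ∀ P : Nat,
    (∀ i, i % 8 ≠ 0 ∨ 8 * n ≤ i → fd P i = 0) →
    ∃ q, P = ∑ j ∈ Finset.range n, fd P (8 * j) + (2 ^ (128 * 8) - 1) * q := by
  induction n with
  | zero =>
    intro P h
    refine ⟨0, ?_⟩
    have : P = 0 := by
      apply fd_ext
      intro i
      rw [fd_zero_left]
      exact h i (Or.inr (by omega))
    rw [this]
    simp
  | succ n ih =>
    intro P h
    obtain ⟨hlo, hhi, hdec⟩ := fd_split P 8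
    obtain ⟨q, hq⟩ := ih (P / 2 ^ (128 * 8)) (by
      intro i hi
      rw [hhi]
      apply h
      rcases hi with hi | hi
      · left
        omega
      · right
        omega)
    have ha : P % 2 ^ (128 * 8) = fd P 0 := by
      apply fd_ext
      intro i
      rw [hlo]
      rcases Nat.eq_zero_or_pos i with hi | hi
      · subst hi
        rw [if_pos (by norm_num), fd_zero (fd P 0)]
        exact (Nat.mod_eq_of_lt (fd_lt P 0)).symm
      · have h1 : fd P 0 < 2 ^ (128 * 1) := by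
          rw [Nat.mul_one]
          exact fd_lt P 0
        rw [fd_of_lt h1 (by omega : 1 ≤ i)]
        split_ifs with h2
        · exact h i (Or.inl (by omega))
        · rfl
    refine ⟨q + P / 2 ^ (128 * 8), ?_⟩
    rw [Finset.sum_range_succ']
    have hs : ∑ j ∈ Finset.range n, fd (P / 2 ^ (128 * 8)) (8 * j) =
        ∑ j ∈ Finset.range n, fd P (8 * (j + 1)) := by
      apply Finset.sum_congr rfl
      intro j _
      rw [hhi, show 8 * j + 8 = 8 * (j + 1) by ring]
    rw [hs] at hq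
    rw [ha] at hdec
    rw [Nat.mul_zero]
    have hpos : 0 < (2 : Nat) ^ (128 * 8) := by positivity
    have h9 := dec_aux hpos hdec
    generalize ∑ j ∈ Finset.range n, fd P (8 * (j + 1)) = s at *
    generalize fd P 0 = a at *
    generalize P / 2 ^ (128 * 8) = Q at *
    rw [h9, hq]
    ring

/-- only the fields `8 j`, `j < 8` are nonzero; `2^1024 = 1` modulo `2^1024 - 1` -/
theorem mod_m1024 {P : Nat} (h : ∀ i, i % 8 ≠ 0 ∨ 64 ≤ i → fd P i = 0) :
    Nat.mod P m1024 = ∑ j ∈ Finset.range 8, fd P (8 * j) := by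
  obtain ⟨q, hq⟩ := mod_m1024_aux 8 P (by
    intro i hi
    apply h
    rcases hi with hi | hi
    · exact Or.inl hi
    · exact Or.inr (by omega))
  have e : Nat.mod P m1024 = P % (2 ^ (128 * 8) - 1) :=
    @mod_mk P m1024 1024 (128 * 8) m1024_eq (by norm_num)
  rw [e]
  conv_lhs => rw [hq]
  rw [Nat.add_mul_mod_self_left]
  apply Nat.mod_eq_of_lt
  have h1 : ∑ j ∈ Finset.range 8, fd P (8 * j) ≤ ∑ _j ∈ Finset.range 8, 2 ^ 128 :=
    Finset.sum_le_sum (fun j _ => (fd_lt P (8 * j)).le)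
  refine lt_of_le_of_lt h1 ?_
  rw [Finset.sum_const, Finset.card_range]
  have h2 : (2 : Nat) ^ 200 ≤ 2 ^ (128 * 8) := Nat.pow_le_pow_right (by norm_num) (by norm_num)
  generalize (2 : Nat) ^ (128 * 8) = C at *
  norm_num at h2 ⊢
  omega

end Pool.Agent.helper31.IB
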