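import Pool.Agent.helper31.IB.Fun
import Pool.Agent.helper31.IC.EngD

/-!
# IB-7: the packed engine as an instance of the abstract engine
-/

namespace Pool.Agent.helper31.IB

open Complex
open Pool.Agent.helper31.IA (Z Op Small get RealL InBox)
open Pool.Agent.helper31.IC (Ops Laws)

def opsB : Ops where
  α := A
  cst := A.const
  add := A.add
  sub := A.sub
  mul := A.mul
  scale := fun z x => A.scale z x
  neg := A.neg
  inv := A.inv
  exp := A.exp
  log := A.log
  ok := fun x => x.ok
  isPos := fun n x => A.isPos n x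
  isLt := A.isLt
  bad := ⟨0, 0, 0, false⟩
  models := fun b n => models b 0 n

def okB (box : List (Nat × Nat)) (nd : Nat) : Bool := Nat.ble (Nat.add box.length nd) 7

/-- the noise symbols of a point of a box -/
private noncomputable def noise : List (Nat × Nat) → List ℝ → List ℂ
  | [], _ => []
  | _ :: _, [] => []
  | b :: bs, t :: ts =>
      (((t - (b.1 : ℝ) / 2 ^ 40) / ((b.2 : ℝ) / 2 ^ 40) : ℝ) : ℂ) :: noise bs ts

private theorem n_noise_eq {b : Nat × Nat} {t : ℝ}
    (h : |t - (b.1 : ℝ) / 2 ^ 40| ≤ (b.2 : ℝ) / 2 ^ 40) :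
    t = (b.1 : ℝ) / 2 ^ 40 + (b.2 : ℝ) / 2 ^ 40 *
      ((t - (b.1 : ℝ) / 2 ^ 40) / ((b.2 : ℝ) / 2 ^ 40)) := by
  rcases eq_or_ne ((b.2 : ℝ) / 2 ^ 40) 0 with h0 | h0
  · rw [h0] at h ⊢
    have := abs_nonpos_iff.1 h
    rw [zero_mul, add_zero]
    linarith
  · rw [mul_div_cancel₀ _ h0]
    ring

private theorem n_noise_le {b : Nat × Nat} {t : ℝ}
    (h : |t - (b.1 : ℝ) / 2 ^ 40| ≤ (b.2 : ℝ) / 2 ^ 40) :
    ‖(((t - (b.1 : ℝ) / 2 ^ 40) / ((b.2 : ℝ) / 2 ^ 40) : ℝ) : ℂ)‖ ≤ 1 := by
  rw [Complex.norm_real, Real.norm_eq_abs, abs_div,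
    abs_of_nonneg (by positivity : (0 : ℝ) ≤ (b.2 : ℝ) / 2 ^ 40)]
  exact div_le_one_of_le₀ h (by positivity)

private theorem n_noise_small {box : List (Nat × Nat)} {u : List ℝ} (h : InBox box u) :
    Small (noise box u) := by
  unfold InBox at h
  induction h with
  | nil =>
    intro z hz
    simp [noise] at hz
  | cons hbt _ ih =>
    intro z hz
    simp only [noise, List.mem_cons] at hz
    rcases hz with rfl | hz
    · exact n_noise_le hbt
    · exact ih z hz

private theorem n_noise_real {box : List (Nat × Nat)} {u : List ℝ} (h : InBox box u)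
    (x : List ℂ) : RealL box.length (noise box u ++ x) := by
  unfold InBox at h
  induction h with
  | nil =>
    intro i hi
    exact absurd hi (Nat.not_lt_zero i)
  | cons hbt _ ih =>
    intro i hi
    cases i with
    | zero =>
      simp only [noise, List.cons_append, IA.get]
      exact ofReal_im _
    | succ n =>
      simp only [noise, List.cons_append, IA.get]
      exact ih n (by simpa using hi)

private theorem n_get_append (pre : List ℂ) (e : ℂ) (rest : List ℂ) :
    get (pre ++ e :: rest) pre.length = e := by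
  induction pre with
  | nil => rfl
  | cons a l ih => exact ih

private theorem n_models_disc : ∀ (x pre : List ℂ), pre.length + x.length ≤ 7 →
    List.Forall₂ (Mem (pre ++ x)) (discs x.length pre.length) x
  | [], _, _ => List.Forall₂.nil
  | e :: es, pre, hl => by
    have hl' : pre.length + (es.length + 1) ≤ 7 := hl
    have ih := n_models_disc es (pre ++ [e]) (by
      rw [List.length_append, List.length_singleton]
      omega)
    rw [List.append_assoc, List.singleton_append, List.length_append, List.length_singleton] at ih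
    refine List.Forall₂.cons ?_ ih
    have h1 := mem_disc (j := pre.length) (by omega) (pre ++ e :: es)
    rw [n_get_append] at h1
    exact h1

private theorem n_models (x : List ℂ) {box : List (Nat × Nat)} {u : List ℝ} (h : InBox box u) :
    ∀ pre : List ℂ, pre.length + (box.length + x.length) ≤ 7 →
      List.Forall₂ (Mem (pre ++ (noise box u ++ x))) (models box pre.length x.length)
      (u.map (fun t : ℝ => (t : ℂ)) ++ x) := by
  unfold InBox at h
  induction h with
  | nil =>
    intro pre hl
    exact n_models_disc x pre (by simpa using hl)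
  | @cons b t bs ts hbt _ ih =>
    intro pre hl
    have hl' : pre.length + ((bs.length + 1) + x.length) ≤ 7 := hl
    have ih' := ih (pre ++ [(((t - (b.1 : ℝ) / 2 ^ 40) / ((b.2 : ℝ) / 2 ^ 40) : ℝ) : ℂ)]) (by
      rw [List.length_append, List.length_singleton]
      omega)
    rw [List.append_assoc, List.singleton_append, List.length_append, List.length_singleton] at ih'
    refine List.Forall₂.cons ?_ ih'
    refine mem_var (j := pre.length) (by omega) ?_
    simp only [noise, List.cons_append]
    rw [n_get_append, ← ofReal_mul, ← ofReal_add, ← n_noise_eq hbt]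

/-- `ε = (u - c)/h` (`0` if `h = 0`) for the reals, then `x` (see `IA/Run.lean`, `cov_of_run`) -/
theorem models_sound (box : List (Nat × Nat)) (nd : Nat) (u : List ℝ) (x : List ℂ)
    (h : okB box nd = true) (hu : InBox box u) (hx : x.length = nd) (h1 : ∀ z ∈ x, ‖z‖ ≤ 1) :
    ∃ ε : List ℂ, Small ε ∧ RealL box.length ε ∧
      List.Forall₂ (Mem ε) (models box 0 nd) (u.map (fun t : ℝ => (t : ℂ)) ++ x) := by
  subst hx
  have hl : box.length + x.length ≤ 7 := Nat.le_of_ble_eq_true h
  refine ⟨noise box u ++ x, ?_, n_noise_real hu x, ?_⟩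
  · intro z hz
    rcases List.mem_append.1 hz with hz | hz
    · exact n_noise_small hu z hz
    · exact h1 z hz
  · have h2 := n_models x hu [] (by simpa using hl)
    rw [List.nil_append, List.length_nil] at h2
    exact h2

/-- the laws; every field is one of the theorems of `IB/Model.lean`, `IB/Fun.lean` -/
theorem lawsB_mem : ∃ L : Laws opsB, L.Mem = Mem ∧ L.okBox = okB := by
  refine ⟨{
    Mem := Mem
    cst := fun {ε} _ z _ => Mem.const ε z
    add := fun {ε} _ {x y u v} hx hy _ => Mem.add hx hy
    sub := fun {ε} _ {x y u v} hx hy _ => Mem.sub hx hy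
    mul := fun {ε} hε {x y u v} hx hy _ => Mem.mul hε hx hy
    scale := fun {ε} hε z {x u} hx _ => Mem.scale hε z hx
    neg := fun {ε} _ {x u} hx _ => Mem.neg hx
    inv := fun {ε} hε {x u} hx h => Mem.inv hε hx h
    exp := fun {ε} hε {x u} hx _ => Mem.exp hε hx
    log := fun {ε} hε {x u} hx h => Mem.log hε hx h
    isPos := fun {nr ε} hε hr {x u} hx h => isPos_sound hε hr hx h
    isLt := fun {ε} hε {x u B} hx h => isLt_sound hε hx h
    bad := fun ε z hok => by simp [opsB] at hok
    okBox := okB
    models := ?_ }, rfl, rfl⟩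
  intro box nd u x hb hu hx h1
  exact models_sound box nd u x hb hu hx h1

theorem cov_B {nr nd : Nat} {ops : List Op} {chk : List A → Bool}
    (hchk : ∀ m, chk m = true → IC.runG opsB nr ops m = true) (t : IA.T)
    (box : List (Nat × Nat)) (hb : box.length = nr)
    (h : IC.verifyG opsB okB nd chk t box = true) : IA.Cov nd ops box := by
  obtain ⟨L, -, hok⟩ := lawsB_mem
  refine IC.cov_of_verifyG L hchk t box hb ?_
  rw [hok]
  exact h

theorem covD_B {nr nd : Nat} {progs : List (List Op)} {chks : List (List A → Bool)}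
    (hchk : List.Forall₂ (fun (ops : List Op) (chk : List A → Bool) =>
      ∀ m, chk m = true → IC.runG opsB nr ops m = true) progs chks) (t : IC.TD)
    (box : List (Nat × Nat)) (hb : box.length = nr)
    (h : IC.verifyD opsB okB nd chks t box = true) : IC.CovD nd progs box := by
  obtain ⟨L, -, hok⟩ := lawsB_mem
  refine IC.covD_of_verifyD L hchk t box hb ?_
  rw [hok]
  exact h

end Pool.Agent.helper31.IB
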