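import Pool.Agent.helper31.IB.Blk
import Pool.Agent.helper31.IA.Run

/-!
# IB-5: packed affine models, ring operations

The model `x` has the centre `bz x.X 0` and the coefficients `bz x.X (j+1)`, `j < 7`, of the noise
symbols.  All bounds: each product loses at most `2` units per block, eight blocks, floors cost one
unit each.
-/

namespace Pool.Agent.helper31.IB

open Complex
open Pool.Agent.helper31.IA (Z Small get RealL)

/-- `Σ_{j<7} (coefficient j) * ε j` -/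
noncomputable def lin (X : Nat) (ε : List ℂ) : ℂ := ∑ j ∈ Finset.range 7, bz X (j + 1) * get ε j

structure MemC (ε : List ℂ) (x : A) (z : ℂ) : Prop where
  clean : Clean (2 ^ 62) x.X
  dev : (∑ j ∈ Finset.range 7, ‖bz x.X (j + 1)‖) * 2 ^ 40 + x.r ≤ (x.D : ℝ)
  mem : ‖z - (bz x.X 0 + lin x.X ε)‖ ≤ (x.r : ℝ) / 2 ^ 40

def Mem (ε : List ℂ) (x : A) (z : ℂ) : Prop := x.ok = true → MemC ε x z

theorem get_small {ε : List ℂ} (hε : Small ε) (i : Nat) : ‖get ε i‖ ≤ 1 := by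
  induction ε generalizing i with
  | nil => simp [IA.get]
  | cons e es ih =>
    cases i with
    | zero => exact hε e List.mem_cons_self
    | succ n => exact ih (fun z hz => hε z (List.mem_cons_of_mem _ hz)) n

private theorem mo_shr40 (N : Nat) : (N : ℝ) / 2 ^ 40 ≤ ((Nat.shiftRight N 40 : Nat) : ℝ) + 1 := by
  have h1 : Nat.shiftRight N 40 = N / 2 ^ 40 := Nat.shiftRight_eq_div_pow N 40
  rw [h1, div_le_iff₀ (by positivity)]
  have h2 : N < 2 ^ 40 * (N / 2 ^ 40 + 1) := Nat.lt_mul_div_succ N (by positivity)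
  have h3 : (N : ℝ) < 2 ^ 40 * (((N / 2 ^ 40 : ℕ) : ℝ) + 1) := by exact_mod_cast h2
  linarith

private theorem mo_cadd (a b : ℕ) : ((Nat.add a b : ℕ) : ℝ) = (a : ℝ) + b := Nat.cast_add a b

private theorem mo_cmul (a b : ℕ) : ((Nat.mul a b : ℕ) : ℝ) = (a : ℝ) * b := Nat.cast_mul a b

private theorem mo_norm_term {ε : List ℂ} (hε : Small ε) (z : ℂ) (j : Nat) :
    ‖z * get ε j‖ ≤ ‖z‖ := by
  rw [norm_mul]
  exact mul_le_of_le_one_right (norm_nonneg _) (get_small hε j)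

private theorem mo_norm_lin {ε : List ℂ} (hε : Small ε) (X : Nat) :
    ‖lin X ε‖ ≤ ∑ j ∈ Finset.range 7, ‖bz X (j + 1)‖ :=
  (norm_sum_le _ _).trans (Finset.sum_le_sum fun j _ => mo_norm_term hε _ j)

/-- seven blocks with an error of `2` units each -/
private theorem mo_lin_err {ε : List ℂ} (hε : Small ε) (X : Nat) (f : Nat → ℂ)
    (h : ∀ j, ‖bz X (j + 1) - f j‖ ≤ 2 / 2 ^ 40) :
    ‖lin X ε - ∑ j ∈ Finset.range 7, f j * get ε j‖ ≤ 14 / 2 ^ 40 := by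
  unfold lin
  rw [← Finset.sum_sub_distrib]
  refine (norm_sum_le _ _).trans ?_
  have h1 : ∀ j ∈ Finset.range 7, ‖bz X (j + 1) * get ε j - f j * get ε j‖ ≤ 2 / 2 ^ 40 := by
    intro j _
    rw [← sub_mul]
    exact (mo_norm_term hε _ j).trans (h j)
  refine (Finset.sum_le_sum h1).trans ?_
  rw [Finset.sum_const, Finset.card_range, nsmul_eq_mul]
  norm_num

/-- `‖lin‖` and `‖z - centre‖` are at most `D` -/
theorem MemC.split {ε : List ℂ} (hε : Small ε) {x : A} {z : ℂ} (h : MemC ε x z) :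
    ∃ ρ : ℂ, z = bz x.X 0 + (lin x.X ε + ρ) ∧ ‖ρ‖ ≤ (x.r : ℝ) / 2 ^ 40 ∧
      ‖lin x.X ε‖ * 2 ^ 40 + x.r ≤ (x.D : ℝ) ∧ ‖lin x.X ε + ρ‖ ≤ (x.D : ℝ) / 2 ^ 40 := by
  have h1 := mo_norm_lin hε x.X
  have h2 : ‖lin x.X ε‖ * 2 ^ 40 + x.r ≤ (x.D : ℝ) := by
    have := h.dev
    have h3 := mul_le_mul_of_nonneg_right h1 (by positivity : (0 : ℝ) ≤ 2 ^ 40)
    linarith
  refine ⟨z - (bz x.X 0 + lin x.X ε), by ring, h.mem, h2, ?_⟩
  refine (norm_add_le _ _).trans ?_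
  rw [le_div_iff₀ (by positivity), add_mul]
  have h4 := h.mem
  rw [le_div_iff₀ (by positivity)] at h4
  linarith

/-- the constructor `mdl`: the range of `X` and the bound `D` are automatic (`good_iff`,
`dmag_spec` for `X >>> 1024`, whose block `7` is `0`) -/
theorem mem_mdl {ε : List ℂ} {X r : Nat} {b : Bool} {z : ℂ}
    (h : b = true → Clean (2 ^ 62) X → ‖z - (bz X 0 + lin X ε)‖ ≤ (r : ℝ) / 2 ^ 40) :
    Mem ε (mdl X r b) z := by
  intro hok
  have hok' : (b && good X && Nat.ble r 4611686018427387904) = true := hok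
  simp only [Bool.and_eq_true] at hok'
  obtain ⟨⟨hb, hg⟩, -⟩ := hok'
  have hX := (good_iff X).1 hg
  refine ⟨hX, ?_, h hb hX⟩
  show (∑ j ∈ Finset.range 7, ‖bz X (j + 1)‖) * 2 ^ 40 + (r : ℝ) ≤
    ((Nat.add (dmag (Nat.shiftRight X 1024)) r : Nat) : ℝ)
  rw [mo_cadd]
  have h1 : Clean (2 ^ 90) (Nat.shiftRight X 1024) := clean_mono (clean_shr hX 1) (by norm_num)
  have h2 := dmag_spec h1
  have h3 : ∀ j, bz (Nat.shiftRight X 1024) j = bz X (j + 1) := fun j => bz_shr X 1 j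
  simp only [h3] at h2
  rw [Finset.sum_range_succ] at h2
  have h4 : (0 : ℝ) ≤ ‖bz X (7 + 1)‖ := norm_nonneg _
  nlinarith

theorem mdl_ok {X r : Nat} {b : Bool} (h : (mdl X r b).ok = true) :
    b = true ∧ Clean (2 ^ 62) X ∧ r ≤ 2 ^ 62 := by
  have hok' : (b && good X && Nat.ble r 4611686018427387904) = true := h
  simp only [Bool.and_eq_true] at hok'
  obtain ⟨⟨hb, hg⟩, hr⟩ := hok'
  exact ⟨hb, (good_iff X).1 hg, Nat.le_of_ble_eq_true hr⟩

private theorem mo_ofZ {z : Z} (h : Nat.ble (Nat.add (Nat.add z.a z.b) (Nat.add z.c z.d))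
    4611686018427387903 = true) :
    One (2 ^ 62) (nrm (pack z.a z.b z.c z.d)) ∧ bz (nrm (pack z.a z.b z.c z.d)) 0 = z.val := by
  have h1 : z.a + z.b + (z.c + z.d) ≤ 4611686018427387903 := Nat.le_of_ble_eq_true h
  have h2 := pack_spec (n := 2 ^ 62) (a := z.a) (b := z.b) (c := z.c) (d := z.d) (by norm_num)
    (by omega) (by omega) (by omega) (by omega)
  have h3 := one_nrm (by norm_num) h2.1
  exact ⟨h3.1, h3.2.trans h2.2.1⟩

theorem Mem.const (ε : List ℂ) (z : Z) : Mem ε (A.const z) z.val := by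
  refine mem_mdl fun hb _ => ?_
  obtain ⟨h1, h2⟩ := mo_ofZ hb
  have h3 : lin (nrm (pack z.a z.b z.c z.d)) ε = 0 := by
    unfold lin
    refine Finset.sum_eq_zero fun j _ => ?_
    rw [bz_zero_of_one h1 (by omega), zero_mul]
  rw [h2, h3]
  simp

private theorem mo_add {x y : A} (f : Nat → ℂ) {ε : List ℂ} {X r : Nat} {u v w : ℂ}
    (hx : ‖u - (bz x.X 0 + lin x.X ε)‖ ≤ (x.r : ℝ) / 2 ^ 40) (hr : (r : ℝ) = x.r + y.r)
    (hy : ‖w - (f 0 + ∑ j ∈ Finset.range 7, f (j + 1) * get ε j)‖ ≤ (y.r : ℝ) / 2 ^ 40)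
    (hv : v = u + w) (hX : ∀ j, bz X j = bz x.X j + f j) :
    ‖v - (bz X 0 + lin X ε)‖ ≤ (r : ℝ) / 2 ^ 40 := by
  have h1 : lin X ε = lin x.X ε + ∑ j ∈ Finset.range 7, f (j + 1) * get ε j := by
    unfold lin
    rw [← Finset.sum_add_distrib]
    refine Finset.sum_congr rfl fun j _ => ?_
    rw [hX, add_mul]
  have h2 : v - (bz X 0 + lin X ε) = (u - (bz x.X 0 + lin x.X ε)) +
      (w - (f 0 + ∑ j ∈ Finset.range 7, f (j + 1) * get ε j)) := by
    rw [h1, hX, hv]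
    ring
  rw [h2, hr, add_div]
  exact (norm_add_le _ _).trans (add_le_add hx hy)

theorem Mem.add {ε : List ℂ} {x y : A} {u v : ℂ} (hx : Mem ε x u) (hy : Mem ε y v) :
    Mem ε (x.add y) (u + v) := by
  refine mem_mdl fun hb _ => ?_
  simp only [Bool.and_eq_true] at hb
  have h1 := hx hb.1
  have h2 := hy hb.2
  have h3 := clean_add h1.clean h2.clean (by norm_num)
  have h4 := clean_nrm (by norm_num) h3.1
  exact mo_add (fun j => bz y.X j) h1.mem (mo_cadd _ _) h2.mem rfl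
    (fun j => (h4.2 j).trans (h3.2 j))

private theorem mo_neg {ε : List ℂ} {x : A} {u : ℂ} (h : MemC ε x u) :
    ‖-u - (-bz x.X 0 + ∑ j ∈ Finset.range 7, -bz x.X (j + 1) * get ε j)‖ ≤ (x.r : ℝ) / 2 ^ 40 := by
  have h1 : ∑ j ∈ Finset.range 7, -bz x.X (j + 1) * get ε j = -lin x.X ε := by
    unfold lin
    rw [← Finset.sum_neg_distrib]
    exact Finset.sum_congr rfl fun j _ => by ring
  have h2 : -u - (-bz x.X 0 + -lin x.X ε) = -(u - (bz x.X 0 + lin x.X ε)) := by ring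
  rw [h1, h2, norm_neg]
  exact h.mem

theorem Mem.neg {ε : List ℂ} {x : A} {u : ℂ} (hx : Mem ε x u) : Mem ε x.neg (-u) := by
  refine mem_mdl fun hb _ => ?_
  have h1 := hx hb
  have h2 := clean_swap (by norm_num) h1.clean
  unfold lin
  simp only [h2.2]
  exact mo_neg h1

theorem Mem.sub {ε : List ℂ} {x y : A} {u v : ℂ} (hx : Mem ε x u) (hy : Mem ε y v) :
    Mem ε (x.sub y) (u - v) := by
  refine mem_mdl fun hb _ => ?_
  simp only [Bool.and_eq_true] at hb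
  have h1 := hx hb.1
  have h2 := hy hb.2
  have h5 := clean_swap (by norm_num) h2.clean
  have h3 := clean_add h1.clean h5.1 (by norm_num)
  have h4 := clean_nrm (by norm_num) h3.1
  exact mo_add (fun j => -bz y.X j) h1.mem (mo_cadd _ _) (mo_neg h2) (sub_eq_add_neg u v)
    (fun j => by rw [h4.2 j, h3.2 j, h5.2 j])

/-- `x.mul y = mdl (core x.X y.X) _ _`; `(c1 + δ1)(c2 + δ2) = c1 c2 + c2 lin1 + c1 lin2 + c2 ρ1 +
c1 ρ2 + δ1 δ2` -/
theorem Mem.mul {ε : List ℂ} (hε : Small ε) {x y : A} {u v : ℂ} (hx : Mem ε x u)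
    (hy : Mem ε y v) : Mem ε (x.mul y) (u * v) := by
  show Mem ε (mdl (core x.X y.X) (Nat.add (Nat.shiftRight
       (Nat.add (Nat.add (Nat.mul (mg (Nat.land x.X m512)) y.r)
         (Nat.mul (mg (Nat.land y.X m512)) x.r)) (Nat.mul x.D y.D)) 40) 20)
    (x.ok && y.ok)) (u * v)
  refine mem_mdl fun hb _ => ?_
  simp only [Bool.and_eq_true] at hb
  have h1 := hx hb.1
  have h2 := hy hb.2
  obtain ⟨ρ, hu, hρ, -, hδ⟩ := h1.split hε
  obtain ⟨σ, hv, hσ, -, hη⟩ := h2.split hε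
  obtain ⟨-, k0, k1⟩ := core_spec h1.clean h2.clean
  have c1 : ‖bz x.X 0‖ ≤ (mg (Nat.land x.X m512) : ℝ) / 2 ^ 40 := by
    rw [← bz_head]
    exact norm_le_mg (by norm_num) (clean_head h1.clean)
  have c2 : ‖bz y.X 0‖ ≤ (mg (Nat.land y.X m512) : ℝ) / 2 ^ 40 := by
    rw [← bz_head]
    exact norm_le_mg (by norm_num) (clean_head h2.clean)
  have k2 := mo_lin_err hε (core x.X y.X) (fun j => bz x.X (j + 1) * bz y.X 0 + bz y.X (j + 1) * bz x.X 0)
    (fun j => k1 (j + 1) (by omega))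
  have k3 : ∑ j ∈ Finset.range 7, (bz x.X (j + 1) * bz y.X 0 + bz y.X (j + 1) * bz x.X 0) * get ε j =
      bz y.X 0 * lin x.X ε + bz x.X 0 * lin y.X ε := by
    unfold lin
    rw [Finset.mul_sum, Finset.mul_sum, ← Finset.sum_add_distrib]
    exact Finset.sum_congr rfl fun j _ => by ring
  rw [k3] at k2
  rw [mo_cadd]
  generalize mg (Nat.land x.X m512) = m1 at *
  generalize mg (Nat.land y.X m512) = m2 at *
  have s1 := mo_shr40 (Nat.add (Nat.add (Nat.mul m1 y.r) (Nat.mul m2 x.r)) (Nat.mul x.D y.D))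
  have key : u * v - (bz (core x.X y.X) 0 + lin (core x.X y.X) ε) =
      -(bz (core x.X y.X) 0 - bz x.X 0 * bz y.X 0) +
      (-(lin (core x.X y.X) ε - (bz y.X 0 * lin x.X ε + bz x.X 0 * lin y.X ε)) +
      (bz x.X 0 * σ + (bz y.X 0 * ρ + (lin x.X ε + ρ) * (lin y.X ε + σ)))) := by
    rw [hu, hv]
    ring
  have n1 : ‖bz x.X 0 * σ‖ ≤ ((m1 : ℝ) / 2 ^ 40) * ((y.r : ℝ) / 2 ^ 40) := by
    rw [norm_mul]
    exact mul_le_mul c1 hσ (norm_nonneg _) (by positivity)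
  have n2 : ‖bz y.X 0 * ρ‖ ≤ ((m2 : ℝ) / 2 ^ 40) * ((x.r : ℝ) / 2 ^ 40) := by
    rw [norm_mul]
    exact mul_le_mul c2 hρ (norm_nonneg _) (by positivity)
  have n3 : ‖(lin x.X ε + ρ) * (lin y.X ε + σ)‖ ≤
      ((x.D : ℝ) / 2 ^ 40) * ((y.D : ℝ) / 2 ^ 40) := by
    rw [norm_mul]
    exact mul_le_mul hδ hη (norm_nonneg _) (by positivity)
  set S : ℝ := ((Nat.shiftRight
      (Nat.add (Nat.add (Nat.mul m1 y.r) (Nat.mul m2 x.r)) (Nat.mul x.D y.D)) 40 : Nat) : ℝ) with hS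
  have s2 : ((m1 : ℝ) / 2 ^ 40) * ((y.r : ℝ) / 2 ^ 40) + (((m2 : ℝ) / 2 ^ 40) * ((x.r : ℝ) / 2 ^ 40) +
      ((x.D : ℝ) / 2 ^ 40) * ((y.D : ℝ) / 2 ^ 40)) ≤ (S + 1) / 2 ^ 40 := by
    have h : ((m1 : ℝ) / 2 ^ 40) * ((y.r : ℝ) / 2 ^ 40) + (((m2 : ℝ) / 2 ^ 40) * ((x.r : ℝ) / 2 ^ 40) +
      ((x.D : ℝ) / 2 ^ 40) * ((y.D : ℝ) / 2 ^ 40)) =
      (((Nat.add (Nat.add (Nat.mul m1 y.r) (Nat.mul m2 x.r)) (Nat.mul x.D y.D) : ℕ) : ℝ) / 2 ^ 40)
        / 2 ^ 40 := by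
      rw [mo_cadd, mo_cadd, mo_cmul, mo_cmul, mo_cmul]
      ring
    rw [h]
    exact div_le_div_of_nonneg_right s1 (by positivity)
  rw [key]
  have t1 : ‖-(bz (core x.X y.X) 0 - bz x.X 0 * bz y.X 0)‖ ≤ 2 / 2 ^ 40 := by rw [norm_neg]; exact k0
  have t2 : ‖-(lin (core x.X y.X) ε - (bz y.X 0 * lin x.X ε + bz x.X 0 * lin y.X ε))‖ ≤ 14 / 2 ^ 40 := by
    rw [norm_neg]; exact k2
  refine (norm_add_le _ _).trans ?_
  have a1 := norm_add_le (-(lin (core x.X y.X) ε - (bz y.X 0 * lin x.X ε + bz x.X 0 * lin y.X ε)))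
    (bz x.X 0 * σ + (bz y.X 0 * ρ + (lin x.X ε + ρ) * (lin y.X ε + σ)))
  have a2 := norm_add_le (bz x.X 0 * σ) (bz y.X 0 * ρ + (lin x.X ε + ρ) * (lin y.X ε + σ))
  have a3 := norm_add_le (bz y.X 0 * ρ) ((lin x.X ε + ρ) * (lin y.X ε + σ))
  have fin : (S + ((20 : ℕ) : ℝ)) / 2 ^ 40 = 2 / 2 ^ 40 + (14 / 2 ^ 40 + ((S + 1) / 2 ^ 40 + 3 / 2 ^ 40)) := by
    push_cast
    ring
  have p3 : (0 : ℝ) ≤ 3 / 2 ^ 40 := by positivity
  rw [fin]
  linarith

theorem Mem.scale {ε : List ℂ} (hε : Small ε) (z : Z) {x : A} {u : ℂ} (hx : Mem ε x u) :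
    Mem ε (x.scale z) (z.val * u) := by
  show Mem ε (mdl (mulX x.X (nrm (pack z.a z.b z.c z.d)))
    (Nat.add (Nat.shiftRight (Nat.mul (mg (nrm (pack z.a z.b z.c z.d))) x.r) 40) 20)
    (x.ok && Nat.ble (Nat.add (Nat.add z.a z.b) (Nat.add z.c z.d)) 4611686018427387903)) (z.val * u)
  refine mem_mdl fun hb _ => ?_
  simp only [Bool.and_eq_true] at hb
  have h1 := hx hb.1
  obtain ⟨o1, o2⟩ := mo_ofZ hb.2
  obtain ⟨ρ, hu, hρ, -, -⟩ := h1.split hε
  obtain ⟨-, k1⟩ := mulX_spec h1.clean o1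
  have c1 : ‖z.val‖ ≤ (mg (nrm (pack z.a z.b z.c z.d)) : ℝ) / 2 ^ 40 := by
    rw [← o2]
    exact norm_le_mg (by norm_num) o1
  rw [mo_cadd]
  generalize nrm (pack z.a z.b z.c z.d) = c at *
  rw [o2] at k1
  have k0 := k1 0
  have k2 := mo_lin_err hε (mulX x.X c) (fun j => bz x.X (j + 1) * z.val)
    (fun j => k1 (j + 1))
  have k3 : ∑ j ∈ Finset.range 7, (bz x.X (j + 1) * z.val) * get ε j = z.val * lin x.X ε := by
    unfold lin
    rw [Finset.mul_sum]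
    exact Finset.sum_congr rfl fun j _ => by ring
  rw [k3] at k2
  generalize mg c = m1 at *
  have s1 := mo_shr40 (Nat.mul m1 x.r)
  have key : z.val * u - (bz (mulX x.X c) 0 + lin (mulX x.X c) ε) =
      -(bz (mulX x.X c) 0 - bz x.X 0 * z.val) +
      (-(lin (mulX x.X c) ε - z.val * lin x.X ε) + z.val * ρ) := by
    rw [hu]
    ring
  have n1 : ‖z.val * ρ‖ ≤ ((m1 : ℝ) / 2 ^ 40) * ((x.r : ℝ) / 2 ^ 40) := by
    rw [norm_mul]
    exact mul_le_mul c1 hρ (norm_nonneg _) (by positivity)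
  set S : ℝ := ((Nat.shiftRight (Nat.mul m1 x.r) 40 : Nat) : ℝ) with hS
  have s2 : ((m1 : ℝ) / 2 ^ 40) * ((x.r : ℝ) / 2 ^ 40) ≤ (S + 1) / 2 ^ 40 := by
    have h : ((m1 : ℝ) / 2 ^ 40) * ((x.r : ℝ) / 2 ^ 40) =
        (((Nat.mul m1 x.r : ℕ) : ℝ) / 2 ^ 40) / 2 ^ 40 := by
      rw [mo_cmul]
      ring
    rw [h]
    exact div_le_div_of_nonneg_right s1 (by positivity)
  rw [key]
  have t1 : ‖-(bz (mulX x.X c) 0 - bz x.X 0 * z.val)‖ ≤ 2 / 2 ^ 40 := by rw [norm_neg]; exact k0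
  have t2 : ‖-(lin (mulX x.X c) ε - z.val * lin x.X ε)‖ ≤ 14 / 2 ^ 40 := by
    rw [norm_neg]; exact k2
  refine (norm_add_le _ _).trans ?_
  have a1 := norm_add_le (-(lin (mulX x.X c) ε - z.val * lin x.X ε)) (z.val * ρ)
  have fin : (S + ((20 : ℕ) : ℝ)) / 2 ^ 40 = 2 / 2 ^ 40 + (14 / 2 ^ 40 + ((S + 1) / 2 ^ 40 + 3 / 2 ^ 40)) := by
    push_cast
    ring
  have p3 : (0 : ℝ) ≤ 3 / 2 ^ 40 := by positivity
  rw [fin]
  linarith

/-! ### comparisons -/

/-- `nr ≤ 7`: the blocks `1, ..., nr` have real noise, they contribute at most `|Re|`; the other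
blocks at most their absolute value. -/
theorem isPos_sound {nr : Nat} {ε : List ℂ} (hε : Small ε) (hr : RealL nr ε) {x : A} {u : ℂ}
    (hx : Mem ε x u) (h : x.isPos nr = true) : 0 < u.re := by
  have h' : (x.ok && Nat.ble (Nat.add (Nat.add (fd x.X 2)
    (Nat.add (reSum (Nat.shiftRight (Nat.mod x.X (Nat.pow 2 (Nat.shiftLeft (Nat.add nr 1) 10))) 1024))
      (dmag (Nat.shiftRight x.X (Nat.shiftLeft (Nat.add nr 1) 10)))))
      (Nat.add x.r 1)) (fd x.X 0)) = true := h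
  rw [Bool.and_eq_true] at h'
  obtain ⟨hok, hb⟩ := h'
  have h1 := hx hok
  have es : Nat.shiftLeft (Nat.add nr 1) 10 = 1024 * (nr + 1) := by
    have : Nat.shiftLeft (Nat.add nr 1) 10 = (nr + 1) * 2 ^ 10 := Nat.shiftLeft_eq _ _
    rw [this]
    ring
  rw [es] at hb
  have hle : fd x.X 2 + (reSum (Nat.shiftRight (Nat.mod x.X (Nat.pow 2 (1024 * (nr + 1)))) 1024) +
    dmag (Nat.shiftRight x.X (1024 * (nr + 1)))) + (x.r + 1) ≤ fd x.X 0 := Nat.le_of_ble_eq_true hb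
  obtain ⟨Y, hY⟩ : ∃ Y, Y = Nat.shiftRight (Nat.mod x.X (Nat.pow 2 (1024 * (nr + 1)))) 1024 := ⟨_, rfl⟩
  obtain ⟨Z', hZ⟩ : ∃ Z', Z' = Nat.shiftRight x.X (1024 * (nr + 1)) := ⟨_, rfl⟩
  rw [← hY, ← hZ] at hle
  -- the fields of `Y`
  have fY : ∀ i, fd Y i = if i < 8 * nr then fd x.X (i + 8) else 0 := by
    intro i
    have e1 : fd (Nat.shiftRight (Nat.mod x.X (Nat.pow 2 (1024 * (nr + 1)))) 1024) i =
      fd (Nat.mod x.X (Nat.pow 2 (1024 * (nr + 1)))) (i + 8) := fd_shr _ 8 i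
    have e2 : Nat.mod x.X (Nat.pow 2 (1024 * (nr + 1))) = x.X % 2 ^ (128 * (8 * (nr + 1))) := by
      have : 1024 * (nr + 1) = 128 * (8 * (nr + 1)) := by ring
      rw [this]
      rfl
    rw [hY, e1, e2, fd_eq, fd_eq]
    split_ifs with hi
    · have e3 : 128 * (8 * (nr + 1)) = 128 * (i + 8) + (128 + 128 * (8 * (nr + 1) - (i + 8) - 1)) := by
        omega
      rw [e3, pow_add, Nat.mod_mul_right_div_self, pow_add, Nat.mod_mul_right_mod]
    · have e4 : x.X % 2 ^ (128 * (8 * (nr + 1))) < 2 ^ (128 * (i + 8)) :=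
        lt_of_lt_of_le (Nat.mod_lt _ (by positivity)) (Nat.pow_le_pow_right (by norm_num) (by omega))
      rw [Nat.div_eq_of_lt e4, Nat.zero_mod]
  have cY : Clean (2 ^ 90) Y := by
    intro i
    rw [fY]
    split_ifs with hi
    · refine ⟨lt_trans (h1.clean (i + 8)).1 (by norm_num), fun h => (h1.clean (i + 8)).2 ?_⟩
      rcases h with h | h
      · left; omega
      · right; omega
    · exact ⟨by norm_num, fun _ => rfl⟩
  have rY := reSum_spec cY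
  have cZ : Clean (2 ^ 90) Z' := by
    rw [hZ]
    exact clean_mono (clean_shr h1.clean (nr + 1)) (by norm_num)
  have dZ := dmag_spec cZ
  have bZ : ∀ j, bz Z' j = bz x.X (j + (nr + 1)) := fun j => by rw [hZ]; exact bz_shr _ _ _
  simp only [bZ] at dZ
  -- the noise
  have bre : ∀ j, (bz x.X j).re = ((fd x.X (8 * j) : ℝ) - fd x.X (8 * j + 2)) / 2 ^ 40 := by
    intro j
    unfold bz
    rw [add_re, ofReal_re, mul_re, ofReal_re, ofReal_im, I_re, I_im]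
    ring
  have term : ∀ j, |(bz x.X (j + 1) * get ε j).re| ≤
      (if j < nr then ((fd x.X (8 * (j + 1)) : ℝ) + fd x.X (8 * (j + 1) + 2)) / 2 ^ 40 else
        ‖bz x.X (j + 1)‖) := by
    intro j
    split_ifs with hj
    · have him : (get ε j).im = 0 := hr j hj
      have h5 : |(get ε j).re| ≤ 1 := (Complex.abs_re_le_norm _).trans (get_small hε j)
      rw [mul_re, him, mul_zero, sub_zero, abs_mul]
      refine (mul_le_of_le_one_right (abs_nonneg _) h5).trans ?_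
      rw [bre, abs_div, abs_of_pos (by positivity : (0 : ℝ) < 2 ^ 40)]
      refine div_le_div_of_nonneg_right ?_ (by positivity)
      rw [abs_le]
      have p1 : (0 : ℝ) ≤ fd x.X (8 * (j + 1)) := Nat.cast_nonneg _
      have p2 : (0 : ℝ) ≤ fd x.X (8 * (j + 1) + 2) := Nat.cast_nonneg _
      constructor <;> linarith
    · exact (Complex.abs_re_le_norm _).trans (mo_norm_term hε _ j)
  have hlin : |(lin x.X ε).re| ≤ ∑ j ∈ Finset.range 7,
      (if j < nr then ((fd x.X (8 * (j + 1)) : ℝ) + fd x.X (8 * (j + 1) + 2)) / 2 ^ 40 else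
        ‖bz x.X (j + 1)‖) := by
    unfold lin
    rw [re_sum]
    exact (Finset.abs_sum_le_sum_abs _ _).trans (Finset.sum_le_sum fun j _ => term j)
  have hsum : (∑ j ∈ Finset.range 7,
      (if j < nr then ((fd x.X (8 * (j + 1)) : ℝ) + fd x.X (8 * (j + 1) + 2)) / 2 ^ 40 else
        ‖bz x.X (j + 1)‖)) * 2 ^ 40 ≤ (reSum Y : ℝ) + dmag Z' := by
    have hR : (reSum Y : ℝ) = ∑ j ∈ Finset.range 8,
        (if j < nr then ((fd x.X (8 * (j + 1)) : ℝ) + fd x.X (8 * (j + 1) + 2)) else 0) := by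
      rw [rY]
      push_cast
      refine Finset.sum_congr rfl fun j _ => ?_
      rw [fY, fY]
      by_cases hj : j < nr
      · rw [if_pos (by omega), if_pos (by omega), if_pos hj]
        have e1 : 8 * j + 8 = 8 * (j + 1) := by ring
        have e2 : 8 * j + 2 + 8 = 8 * (j + 1) + 2 := by ring
        rw [e1, e2]
      · rw [if_neg (by omega), if_neg (by omega), if_neg hj]
        simp
    have hsplit : (∑ j ∈ Finset.range 7,
      (if j < nr then ((fd x.X (8 * (j + 1)) : ℝ) + fd x.X (8 * (j + 1) + 2)) / 2 ^ 40 else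
        ‖bz x.X (j + 1)‖)) * 2 ^ 40 = (∑ j ∈ Finset.range 7,
      (if j < nr then ((fd x.X (8 * (j + 1)) : ℝ) + fd x.X (8 * (j + 1) + 2)) else 0)) +
      (∑ j ∈ Finset.range 7, (if j < nr then 0 else ‖bz x.X (j + 1)‖)) * 2 ^ 40 := by
      rw [Finset.sum_mul, Finset.sum_mul, ← Finset.sum_add_distrib]
      refine Finset.sum_congr rfl fun j _ => ?_
      split_ifs
      · rw [zero_mul, add_zero, div_mul_cancel₀ _ (by positivity)]
      · rw [zero_add]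
    rw [hsplit, hR]
    have h7 : (0 : ℝ) ≤ (if 7 < nr then ((fd x.X (8 * (7 + 1)) : ℝ) + fd x.X (8 * (7 + 1) + 2)) else 0) := by
      split_ifs
      · positivity
      · exact le_rfl
    rw [Finset.sum_range_succ _ 7]
    have hB : (∑ j ∈ Finset.range 7, (if j < nr then 0 else ‖bz x.X (j + 1)‖)) ≤
        ∑ j ∈ Finset.range 8, ‖bz x.X (j + (nr + 1))‖ := by
      rcases le_or_gt 7 nr with hn | hn
      · rw [Finset.sum_eq_zero]
        · exact Finset.sum_nonneg fun j _ => norm_nonneg _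
        · intro j hj
          rw [Finset.mem_range] at hj
          rw [if_pos (by omega)]
      · obtain ⟨k, hk⟩ : ∃ k, 7 = nr + k := ⟨7 - nr, by omega⟩
        rw [hk, Finset.sum_range_add, Finset.sum_eq_zero, zero_add]
        · have e : ∀ j ∈ Finset.range k, (if nr + j < nr then (0 : ℝ) else ‖bz x.X (nr + j + 1)‖) =
              ‖bz x.X (j + (nr + 1))‖ := by
            intro j _
            rw [if_neg (by omega)]
            congr 2
            ring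
          rw [Finset.sum_congr rfl e]
          exact Finset.sum_le_sum_of_subset_of_nonneg
            (Finset.range_subset_range.2 (by omega)) (fun j _ _ => norm_nonneg _)
        · intro j hj
          rw [Finset.mem_range] at hj
          rw [if_pos hj]
    have hB' := mul_le_mul_of_nonneg_right hB (by positivity : (0 : ℝ) ≤ 2 ^ 40)
    linarith
  have hle' : (fd x.X 2 : ℝ) + (reSum Y + dmag Z') + (x.r + 1) ≤ fd x.X 0 := by exact_mod_cast hle
  have m1 := (Complex.abs_re_le_norm _).trans h1.mem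
  rw [sub_re, add_re, bre 0] at m1
  have m2 := (abs_le.1 m1).1
  have m3 := (abs_le.1 hlin).1
  rw [Nat.mul_zero, Nat.zero_add] at m2
  have m4 : (∑ j ∈ Finset.range 7,
      (if j < nr then ((fd x.X (8 * (j + 1)) : ℝ) + fd x.X (8 * (j + 1) + 2)) / 2 ^ 40 else
        ‖bz x.X (j + 1)‖)) ≤ ((reSum Y : ℝ) + dmag Z') / 2 ^ 40 := by
    rw [le_div_iff₀ (by positivity)]
    exact hsum
  have m5 := div_le_div_of_nonneg_right hle' (by positivity : (0 : ℝ) ≤ 2 ^ 40)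
  rw [add_div, add_div, add_div (x.r : ℝ)] at m5
  have m6 : (0 : ℝ) < 1 / 2 ^ 40 := by positivity
  rw [sub_div] at m2
  linarith

theorem isLt_sound {ε : List ℂ} (hε : Small ε) {x : A} {u : ℂ} (hx : Mem ε x u) {B : Nat}
    (h : x.isLt B = true) : ‖u‖ < (B : ℝ) / 2 ^ 40 := by
  have h' : (x.ok && Nat.ble (Nat.add x.D 1) B &&
    Nat.ble (Nat.add (Nat.add
      (Nat.mul (Nat.add (Nat.sub (fd x.X 0) (fd x.X 2)) (Nat.sub (fd x.X 2) (fd x.X 0)))
        (Nat.add (Nat.sub (fd x.X 0) (fd x.X 2)) (Nat.sub (fd x.X 2) (fd x.X 0))))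
      (Nat.mul (Nat.add (Nat.sub (fd x.X 1) (fd x.X 3)) (Nat.sub (fd x.X 3) (fd x.X 1)))
        (Nat.add (Nat.sub (fd x.X 1) (fd x.X 3)) (Nat.sub (fd x.X 3) (fd x.X 1))))) 1)
      (Nat.mul (Nat.sub B x.D) (Nat.sub B x.D))) = true := h
  simp only [Bool.and_eq_true] at h'
  obtain ⟨⟨hok, hb⟩, hn⟩ := h'
  have h1 := hx hok
  have hb' : x.D + 1 ≤ B := Nat.le_of_ble_eq_true hb
  obtain ⟨p, hp⟩ : ∃ p, p = Nat.add (Nat.sub (fd x.X 0) (fd x.X 2)) (Nat.sub (fd x.X 2) (fd x.X 0)) := ⟨_, rfl⟩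
  obtain ⟨q, hq⟩ : ∃ q, q = Nat.add (Nat.sub (fd x.X 1) (fd x.X 3)) (Nat.sub (fd x.X 3) (fd x.X 1)) := ⟨_, rfl⟩
  rw [← hp, ← hq] at hn
  have hn' : p * p + q * q + 1 ≤ (B - x.D) * (B - x.D) := Nat.le_of_ble_eq_true hn
  obtain ⟨ρ, hu, -, -, hD⟩ := h1.split hε
  obtain ⟨E, hE⟩ : ∃ E : Nat, E = B - x.D := ⟨_, rfl⟩
  rw [← hE] at hn'
  have hEB : B = E + x.D := by omega
  have sq : ∀ a b : Nat, ((Nat.add (Nat.sub a b) (Nat.sub b a) : Nat) : ℝ) ^ 2 = ((a : ℝ) - b) ^ 2 := by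
    intro a b
    show ((a - b + (b - a) : Nat) : ℝ) ^ 2 = _
    rcases le_total a b with h | h
    · rw [Nat.sub_eq_zero_of_le h, zero_add, Nat.cast_sub h]
      ring
    · rw [Nat.sub_eq_zero_of_le h, add_zero, Nat.cast_sub h]
  have hp2 := sq (fd x.X 0) (fd x.X 2)
  have hq2 := sq (fd x.X 1) (fd x.X 3)
  rw [← hp] at hp2
  rw [← hq] at hq2
  have hn2 : (p : ℝ) ^ 2 + (q : ℝ) ^ 2 + 1 ≤ (E : ℝ) ^ 2 := by
    have : (p : ℝ) * p + q * q + 1 ≤ (E : ℝ) * E := by exact_mod_cast hn'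
    nlinarith
  have hnorm : ‖bz x.X 0‖ ^ 2 * (2 ^ 40) ^ 2 = (p : ℝ) ^ 2 + (q : ℝ) ^ 2 := by
    rw [hp2, hq2, ← Complex.normSq_eq_norm_sq, Complex.normSq_apply]
    have e1 : (bz x.X 0).re = ((fd x.X 0 : ℝ) - fd x.X 2) / 2 ^ 40 := by
      unfold bz
      rw [add_re, ofReal_re, mul_re, ofReal_re, ofReal_im, I_re, I_im]
      ring
    have e2 : (bz x.X 0).im = ((fd x.X 1 : ℝ) - fd x.X 3) / 2 ^ 40 := by
      unfold bz
      rw [add_im, ofReal_im, mul_im, ofReal_re, ofReal_im, I_re, I_im]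
      ring
    rw [e1, e2]
    ring
  have h2 : ‖bz x.X 0‖ < (E : ℝ) / 2 ^ 40 := by
    rw [lt_div_iff₀ (by positivity)]
    apply lt_of_pow_lt_pow_left₀ 2 (Nat.cast_nonneg E)
    rw [mul_pow, hnorm]
    linarith
  have h4 : (B : ℝ) = E + (x.D : ℝ) := by
    rw [hEB]
    push_cast
    ring
  rw [h4, add_div, hu]
  exact (norm_add_le _ _).trans_lt (add_lt_add_of_lt_of_le h2 hD)

/-! ### variables -/

private theorem mo_lin_var {X j : Nat} (hj : j < 7) {ε : List ℂ} {a b : ℂ}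
    (h : ∀ i, bz X i = if i = 0 then a else if i = j + 1 then b else 0) :
    lin X ε = b * get ε j := by
  unfold lin
  rw [Finset.sum_eq_single j]
  · rw [h, if_neg (by omega), if_pos rfl]
  · intro i _ hi
    rw [h, if_neg (by omega), if_neg (by omega), zero_mul]
  · intro hn
    exact absurd (Finset.mem_range.2 hj) hn

/-- one real variable: noise symbol `j` has the value `(t - c)/h` (`0` if `h = 0`) -/
theorem mem_var {c h j : Nat} (hj : j < 7) {ε : List ℂ} {t : ℝ}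
    (ht : (t : ℂ) = (((c : ℝ) / 2 ^ 40 : ℝ) : ℂ) + (((h : ℝ) / 2 ^ 40 : ℝ) : ℂ) * get ε j) :
    Mem ε (mdl (Nat.add c (Nat.shiftLeft h (Nat.mul 1024 (Nat.add j 1)))) 0
      (Nat.ble c 4611686018427387903 && Nat.ble h 4611686018427387903)) (t : ℂ) := by
  refine mem_mdl fun hb _ => ?_
  simp only [Bool.and_eq_true] at hb
  have hc : c ≤ 4611686018427387903 := Nat.le_of_ble_eq_true hb.1
  have hh : h ≤ 4611686018427387903 := Nat.le_of_ble_eq_true hb.2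
  obtain ⟨-, h2⟩ := var_spec (c := c) (h := h) (by omega) (by omega) hj
  rw [mo_lin_var hj h2, h2 0, if_pos rfl, ht]
  simp

theorem mem_disc {j : Nat} (hj : j < 7) (ε : List ℂ) :
    Mem ε (mdl (Nat.shiftLeft 1099511627776 (Nat.mul 1024 (Nat.add j 1))) 0 true)
      (get ε j) := by
  refine mem_mdl fun _ _ => ?_
  have h2 := (var_spec (c := 0) (h := 1099511627776) (by norm_num) (by norm_num) hj).2
  have e : Nat.add 0 (Nat.shiftLeft 1099511627776 (Nat.mul 1024 (Nat.add j 1))) =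
    Nat.shiftLeft 1099511627776 (Nat.mul 1024 (Nat.add j 1)) := Nat.zero_add _
  rw [e] at h2
  rw [mo_lin_var hj h2, h2 0, if_pos rfl]
  have e1 : (((1099511627776 : Nat) : ℝ) / 2 ^ 40 : ℝ) = 1 := by norm_num
  rw [e1]
  simp

end Pool.Agent.helper31.IB
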